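import Pool.Agent.Lib.Nvc.Lp
import Pool.Agent.Lib.Nsh.Cast

/-!
# The second type of candidates

MP_602ccf, project Nvc (owner helper29). `Nsh.rm N A = A / N` (real matrix).

PROOF. `N = 16 E ^ 2`, `T = TT g.n k N = (2 n) W ^ 2`, `W = 8 k N ^ 2`. Let `sA i = sm g.n k s g.A i`, `sB i = sm g.n k s g.B i`; `N sA i + a sB i = sm g.n k s (mc N a g) i`. From `hs`, and as
`|a sB i - a k ∑ B i l y_l| ≤ a k N` (both between `0` and `k N`): `|sA i - k ∑ l, A i l y_l| ≤ 16 k + a k ≤ 16 k + 16 k E` (`a E ≤ N = 16 E ^ 2`, so `a ≤ 16 E`).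
The system `zP, zQ` has the solution `x`: rows `r < n`: `∑ x_l sA l ≥ k ∑ x_l A_lj y_j - (16 k + 16 k E) = k N u - (16 k + 16 k E)` (by `hu'`) and `sA r ≤ k ∑ A r j y_j + (16 k + 16 k E) ≤ k N u + (16 k + 16 k E)`; rows `n + j`:
`∑ l x_l sB l = ∑ t < k, ∑ l x_l B l (jt t) = k N v` (by `hv'`, as `0 < y (jt t)`), `≥ k ∑ x_l B l j`. The bound `W`: `sA, sB ≤ k N`, `32 k E + 32 k ≤ 4 k N`.
`X` = the output, `tot = T`; `Y = ys g.n k s`, `tot Y = k` (`jt < n`), `rn A Y i = sA i`, `pn A X Y = ∑ X_i sA i`, `pn B X Y = ∑ X_i sB i`. `lp_spec`: `T sA r ≤ ∑ X_l sA l + (32 k E + 32 k) T + T` and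
`k ∑ B l j X_l ≤ ∑ X_l sB l + T`. So `pass` with `H = 128 E`: `32 k E + 32 k + 1 ≤ 128 E k`, `1 ≤ 128 E k`.
-/

set_option autoImplicit false

namespace Nvc.Case2Aux

open Finset Nsh Nvc

theorem jt_lt {n : ℕ} (hn : 1 ≤ n) (s t : ℕ) : jt n s t < n := Nat.mod_lt _ (by omega)

theorem smb {n k s N : ℕ} (hn : 1 ≤ n) {M : ℕ → ℕ → ℕ} (hM : ∀ i < n, ∀ j < n, M i j ≤ N) {i : ℕ}
    (hi : i < n) : sm n k s M i ≤ k * N := by
  unfold sm
  have h := sum_le_card_nsmul (range k) (fun t => M i (jt n s t)) N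
    (fun t _ => hM i hi _ (jt_lt hn s t))
  simpa using h

theorem sm_mc (g : Gm) (N a k s i : ℕ) :
    sm g.n k s (mc N a g) i = N * sm g.n k s g.A i + a * sm g.n k s g.B i := by
  unfold sm mc
  rw [mul_sum, mul_sum, ← sum_add_distrib]

theorem rn_const (n c : ℕ) (x : ℕ → ℕ) : ∑ l ∈ range n, c * x l = c * tot n x := by
  unfold tot
  rw [mul_sum]

/-- weights of the sample -/
theorem sum_ys {n k s : ℕ} (hn : 1 ≤ n) (f : ℕ → ℕ) :
    ∑ l ∈ range n, f l * ys n k s l = ∑ t ∈ range k, f (jt n s t) := by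
  unfold ys
  simp only [mul_sum]
  rw [sum_comm]
  refine sum_congr rfl (fun t _ => ?_)
  rw [sum_eq_single (jt n s t)]
  · simp
  · intro b _ hb
    rw [if_neg (fun h => hb h.symm), mul_zero]
  · intro h
    exact absurd (mem_range.2 (jt_lt hn s t)) h

theorem tot_ys {n k s : ℕ} (hn : 1 ≤ n) : tot n (ys n k s) = k := by
  have h := sum_ys (k := k) (s := s) hn (fun _ => 1)
  simp only [one_mul, sum_const, card_range, smul_eq_mul, mul_one] at h
  exact h

theorem rn_ys {n k s : ℕ} (hn : 1 ≤ n) (M : ℕ → ℕ → ℕ) (i : ℕ) :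
    rn n M (ys n k s) i = sm n k s M i := by
  unfold rn sm
  exact sum_ys hn (fun l => M i l)

end Nvc.Case2Aux

namespace Nvc

open Finset Nsh

theorem case2 {g : Gm} {E k N : ℕ} (hE : 1 ≤ E) (hk : 1 ≤ k) (hN : N = 16 * E ^ 2) (hn : 1 ≤ g.n)
    (hA : ∀ i < g.n, ∀ j < g.n, g.A i j ≤ N) (hB : ∀ i < g.n, ∀ j < g.n, g.B i j ≤ N)
    {x y : ℕ → ℝ} {u v : ℝ} (h : Eqm g.n (rm N g.A) (rm N g.B) x y u v) {a s : ℕ}
    (haE : a * E ≤ N) (hsup : ∀ t < k, 0 < y (jt g.n s t))
    (hs : ∀ i < g.n, |(sm g.n k s (mc N a g) i : ℝ) - k * ∑ l ∈ range g.n, (mc N a g i l : ℝ) * y l| ≤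
      16 * k * N) :
    pass g (128 * E) (lp (2 * g.n) g.n (zP g k E s) (zQ g k s) (TT g.n k N)) (ys g.n k s) := by
  have hE2 : E ≤ E ^ 2 := Nat.le_self_pow (by norm_num) E
  have hN16 : 16 * E ≤ N := by rw [hN]; omega
  have hN0 : (0 : ℝ) < N := Nat.cast_pos.2 (by omega)
  have hkR : (1 : ℝ) ≤ k := by exact_mod_cast hk
  have haE' : a ≤ 16 * E := by
    refine Nat.le_of_mul_le_mul_right ?_ hE
    calc a * E ≤ N := haE
      _ = 16 * E * E := by rw [hN]; ring
  have haR : (a : ℝ) ≤ 16 * E := by exact_mod_cast haE'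
  -- real facts
  have F1' : ∀ i, ∑ j ∈ range g.n, (g.A i j : ℝ) * y j = N * rv g.n (rm N g.A) y i := by
    intro i
    unfold rv rm
    rw [mul_sum]
    refine sum_congr rfl (fun j _ => ?_)
    field_simp
  have F3' : ∀ j, ∑ i ∈ range g.n, x i * (g.B i j : ℝ) = N * cv g.n (rm N g.B) x j := by
    intro j
    unfold cv rm
    rw [mul_sum]
    refine sum_congr rfl (fun i _ => ?_)
    field_simp
  have F1 : ∀ i < g.n, ∑ j ∈ range g.n, (g.A i j : ℝ) * y j ≤ N * u := by
    intro i hi
    rw [F1']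
    exact mul_le_mul_of_nonneg_left (h.hu i hi) hN0.le
  have F3 : ∀ j < g.n, ∑ i ∈ range g.n, x i * (g.B i j : ℝ) ≤ N * v := by
    intro j hj
    rw [F3']
    exact mul_le_mul_of_nonneg_left (h.hv j hj) hN0.le
  have F5 : ∑ i ∈ range g.n, x i * ∑ j ∈ range g.n, (g.A i j : ℝ) * y j = N * u := by
    have : ∀ i ∈ range g.n, x i * ∑ j ∈ range g.n, (g.A i j : ℝ) * y j = x i * (N * u) := by
      intro i hi
      rcases (h.hx.nn i (mem_range.1 hi)).eq_or_lt with h0 | h0
      · rw [← h0]; simp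
      · rw [F1', h.hu' i (mem_range.1 hi) h0]
    rw [sum_congr rfl this, ← sum_mul, h.hx.sum, one_mul]
  -- the sample approximates the rows of A
  have D : ∀ i < g.n, |(sm g.n k s g.A i : ℝ) - k * ∑ l ∈ range g.n, (g.A i l : ℝ) * y l| ≤
      16 * k + 16 * k * E := by
    intro i hi
    have h1 := hs i hi
    have h2 : ∑ l ∈ range g.n, (mc N a g i l : ℝ) * y l =
        N * (∑ l ∈ range g.n, (g.A i l : ℝ) * y l) + a * (∑ l ∈ range g.n, (g.B i l : ℝ) * y l) := by
      rw [mul_sum, mul_sum, ← sum_add_distrib]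
      refine sum_congr rfl (fun l _ => ?_)
      unfold mc
      push_cast
      ring
    rw [Case2Aux.sm_mc, h2] at h1
    have h3 : (sm g.n k s g.B i : ℝ) ≤ k * N := by
      exact_mod_cast Case2Aux.smb hn hB hi
    have h3' : (0 : ℝ) ≤ (sm g.n k s g.B i : ℝ) := Nat.cast_nonneg _
    have h4 : ∑ l ∈ range g.n, (g.B i l : ℝ) * y l ≤ N := by
      calc ∑ l ∈ range g.n, (g.B i l : ℝ) * y l ≤ ∑ l ∈ range g.n, (N : ℝ) * y l := by
            refine sum_le_sum (fun l hl => mul_le_mul_of_nonneg_right ?_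
              (h.hy.nn l (mem_range.1 hl)))
            exact_mod_cast hB i hi l (mem_range.1 hl)
        _ = N := by rw [← mul_sum, h.hy.sum, mul_one]
    have h4' : 0 ≤ ∑ l ∈ range g.n, (g.B i l : ℝ) * y l :=
      sum_nonneg (fun l hl => mul_nonneg (Nat.cast_nonneg _) (h.hy.nn l (mem_range.1 hl)))
    push_cast at h1
    generalize (∑ l ∈ range g.n, (g.A i l : ℝ) * y l) = p at h1 h2 ⊢
    generalize (∑ l ∈ range g.n, (g.B i l : ℝ) * y l) = q at h1 h2 h4 h4'
    generalize (sm g.n k s g.A i : ℝ) = sA at h1 ⊢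
    generalize (sm g.n k s g.B i : ℝ) = sB at h1 h3 h3'
    have hkR0 : (0 : ℝ) ≤ k := by linarith
    have ha0 : (0 : ℝ) ≤ a := Nat.cast_nonneg _
    have h5 : |sB - k * q| ≤ k * N := by
      rw [abs_le]
      have := mul_le_mul_of_nonneg_left h4 hkR0
      have := mul_nonneg hkR0 h4'
      constructor <;> linarith
    have h6 : (N : ℝ) * |sA - k * p| ≤ N * (16 * k + 16 * k * E) := by
      have e1 : (N : ℝ) * |sA - k * p| = |N * sA + a * sB - k * (N * p + a * q) -
          a * (sB - k * q)| := by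
        rw [← abs_of_pos hN0, ← abs_mul, abs_of_pos hN0]
        congr 1
        ring
      rw [e1]
      refine (abs_sub _ _).trans ?_
      have e2 : |(a : ℝ) * (sB - k * q)| ≤ 16 * E * (k * N) := by
        rw [abs_mul, abs_of_nonneg ha0]
        exact mul_le_mul haR h5 (abs_nonneg _) (by positivity)
      nlinarith
    exact le_of_mul_le_mul_left h6 hN0
  have hT : TT g.n k N = 2 * g.n * (8 * k * N ^ 2) ^ 2 := rfl
  have b0 : k * N ≤ k * N ^ 2 := Nat.mul_le_mul_left _ (Nat.le_self_pow (by norm_num) N)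
  have b1 : 32 * k * E + 32 * k ≤ 4 * (k * N) := by
    have e1 : k * (16 * E) ≤ k * N := Nat.mul_le_mul_left _ hN16
    have e2 : k * 16 ≤ k * (16 * E) := Nat.mul_le_mul_left _ (by omega)
    nlinarith
  have b2 : 8 * k * N ^ 2 = 8 * (k * N ^ 2) := by ring
  have X0 := tot_lp (R := 2 * g.n) hn (zP g k E s) (zQ g k s) (TT g.n k N)
  have X1 := lp_spec (R := 2 * g.n) (W := 8 * k * N ^ 2) hn (P := zP g k E s) (Q := zQ g k s)
    (by
      intro r hr l hl
      unfold zP zQ
      by_cases h0 : r < g.n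
      · rw [if_pos h0, if_pos h0]
        have h1 := Case2Aux.smb (k := k) (s := s) hn hA hl
        have h2 := Case2Aux.smb (k := k) (s := s) hn hA h0
        constructor <;> omega
      · rw [if_neg h0, if_neg h0]
        have h1 := Case2Aux.smb (k := k) (s := s) hn hB hl
        have h2 : k * g.B l (r - g.n) ≤ k * N := Nat.mul_le_mul_left _ (hB l hl _ (by omega))
        constructor <;> omega)
    (y := x) h.hx
    (by
      intro r hr
      unfold zP zQ
      by_cases h0 : r < g.n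
      · simp only [if_pos h0]
        rw [← mul_sum, h.hx.sum, mul_one]
        have h2 : ∑ l ∈ range g.n, ((sm g.n k s g.A l + (32 * k * E + 32 * k) : ℕ) : ℝ) * x l =
            ∑ l ∈ range g.n, x l * (sm g.n k s g.A l : ℝ) + (32 * k * E + 32 * k) := by
          have : ∀ l ∈ range g.n, ((sm g.n k s g.A l + (32 * k * E + 32 * k) : ℕ) : ℝ) * x l =
              x l * (sm g.n k s g.A l : ℝ) + (32 * k * E + 32 * k) * x l := by
            intro l _
            push_cast
            ring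
          rw [sum_congr rfl this, sum_add_distrib, ← mul_sum, h.hx.sum, mul_one]
        rw [h2]
        have h3 : k * (N * u) - (16 * k + 16 * k * E) ≤
            ∑ l ∈ range g.n, x l * (sm g.n k s g.A l : ℝ) := by
          have e1 : ∑ l ∈ range g.n, x l * (k * (∑ j ∈ range g.n, (g.A l j : ℝ) * y j) -
              (16 * k + 16 * k * E)) ≤ ∑ l ∈ range g.n, x l * (sm g.n k s g.A l : ℝ) := by
            refine sum_le_sum (fun l hl => mul_le_mul_of_nonneg_left ?_
              (h.hx.nn l (mem_range.1 hl)))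
            have := (abs_le.1 (D l (mem_range.1 hl))).1
            linarith
          refine le_trans (le_of_eq ?_) e1
          have e2 : ∀ l ∈ range g.n, x l * (k * (∑ j ∈ range g.n, (g.A l j : ℝ) * y j) -
              (16 * k + 16 * k * E)) = k * (x l * ∑ j ∈ range g.n, (g.A l j : ℝ) * y j) -
                (16 * k + 16 * k * E) * x l := by
            intro l _
            ring
          rw [sum_congr rfl e2, sum_sub_distrib, ← mul_sum, ← mul_sum, F5, h.hx.sum, mul_one]
        have h4 := (abs_le.1 (D r h0)).2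
        have h5 := mul_le_mul_of_nonneg_left (F1 r h0) (by linarith : (0 : ℝ) ≤ k)
        linarith
      · simp only [if_neg h0]
        have h1 : ∑ l ∈ range g.n, (sm g.n k s g.B l : ℝ) * x l = k * (N * v) := by
          have e1 : ∀ l ∈ range g.n, (sm g.n k s g.B l : ℝ) * x l =
              ∑ t ∈ range k, x l * (g.B l (jt g.n s t) : ℝ) := by
            intro l _
            unfold sm
            push_cast
            rw [sum_mul]
            exact sum_congr rfl (fun t _ => mul_comm _ _)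
          rw [sum_congr rfl e1, sum_comm]
          have e2 : ∀ t ∈ range k, ∑ l ∈ range g.n, x l * (g.B l (jt g.n s t) : ℝ) = N * v := by
            intro t ht
            rw [F3', h.hv' _ (Case2Aux.jt_lt hn s t) (hsup t (mem_range.1 ht))]
          rw [sum_congr rfl e2, sum_const, card_range, nsmul_eq_mul]
        rw [h1]
        have h2 : ∑ l ∈ range g.n, ((k * g.B l (r - g.n) : ℕ) : ℝ) * x l =
            k * ∑ l ∈ range g.n, x l * (g.B l (r - g.n) : ℝ) := by
          rw [mul_sum]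
          refine sum_congr rfl (fun l _ => ?_)
          push_cast
          ring
        rw [h2]
        exact mul_le_mul_of_nonneg_left (F3 _ (by omega)) (by linarith))
  rw [← hT] at X1
  generalize lp (2 * g.n) g.n (zP g k E s) (zQ g k s) (TT g.n k N) = X at X0 X1 ⊢
  have hTpos : 1 ≤ TT g.n k N := by
    rw [hT]
    have h1 : 1 ≤ k * N := Nat.mul_pos hk (by omega)
    have h2 : 1 ≤ 8 * k * N ^ 2 := by omega
    have h3 : 1 ≤ (8 * k * N ^ 2) ^ 2 := Nat.one_le_pow _ _ h2
    nlinarith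
  have pA : pn g.n g.A X (ys g.n k s) = ∑ l ∈ range g.n, sm g.n k s g.A l * X l := by
    unfold pn
    refine sum_congr rfl (fun l _ => ?_)
    rw [Case2Aux.rn_ys hn, mul_comm]
  have pB : pn g.n g.B X (ys g.n k s) = ∑ l ∈ range g.n, sm g.n k s g.B l * X l := by
    unfold pn
    refine sum_congr rfl (fun l _ => ?_)
    rw [Case2Aux.rn_ys hn, mul_comm]
  have hkE : k ≤ k * E := Nat.le_mul_of_pos_right _ hE
  refine ⟨by rw [X0]; exact hTpos, by rw [Case2Aux.tot_ys hn]; exact hk, ?_, ?_⟩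
  · intro r hr
    have hr := mem_range.1 hr
    have h1 := X1 r (by omega)
    have e1 : rn g.n (zQ g k s) X r = sm g.n k s g.A r * TT g.n k N := by
      unfold rn zQ
      simp only [if_pos hr]
      rw [Case2Aux.rn_const, X0]
    have e2 : rn g.n (zP g k E s) X r =
        ∑ l ∈ range g.n, sm g.n k s g.A l * X l + (32 * k * E + 32 * k) * TT g.n k N := by
      unfold rn zP
      simp only [if_pos hr, add_mul _ (32 * k * E + 32 * k)]
      rw [sum_add_distrib, Case2Aux.rn_const, X0]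
    rw [e1, e2] at h1
    rw [X0, Case2Aux.tot_ys hn, Case2Aux.rn_ys hn, pA]
    have h2 : (32 * k * E + 32 * k + 1) * TT g.n k N ≤ 128 * E * (TT g.n k N * k) := by
      have : 32 * k * E + 32 * k + 1 ≤ 128 * E * k := by nlinarith
      calc (32 * k * E + 32 * k + 1) * TT g.n k N ≤ (128 * E * k) * TT g.n k N :=
            Nat.mul_le_mul_right _ this
        _ = _ := by ring
    nlinarith
  · intro c hc
    have hc := mem_range.1 hc
    have h1 := X1 (g.n + c) (by omega)
    have h0 : ¬ g.n + c < g.n := by omega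
    have h9 : g.n + c - g.n = c := by omega
    have e1 : rn g.n (zQ g k s) X (g.n + c) = k * cn g.n g.B X c := by
      unfold rn zQ cn
      simp only [if_neg h0, h9]
      rw [mul_sum]
      exact sum_congr rfl (fun l _ => by ring)
    have e2 : rn g.n (zP g k E s) X (g.n + c) = ∑ l ∈ range g.n, sm g.n k s g.B l * X l := by
      unfold rn zP
      simp only [if_neg h0]
    rw [e1, e2] at h1
    rw [X0, Case2Aux.tot_ys hn, pB]
    have h2 : TT g.n k N ≤ 128 * E * (TT g.n k N * k) := by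
      have : 1 ≤ 128 * E * k := by nlinarith
      calc TT g.n k N = 1 * TT g.n k N := (one_mul _).symm
        _ ≤ (128 * E * k) * TT g.n k N := Nat.mul_le_mul_right _ this
        _ = _ := by ring
    have hR : 2 * g.n * (8 * k * N ^ 2) ^ 2 = TT g.n k N := rfl
    nlinarith

end Nvc
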