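import Pool.Agent.Lib.Nsh.Basic
import Pool.Agent.Lib.P74ff84.Equil

/-!
# Existence of an equilibrium

MP_602ccf, project Nvc (owner helper29).

PROOF. `P74ff84.equilibrium` for `V = Fin n ⊕ Fin n` (`K = 4 * n + 4`): `M (inl i) (inl i') = K`, `M (inl i) (inr j) = - A i j`, `M (inr j) (inr j') = K`,
`M (inr j) (inl i) = - B i j`, `m = K / 2`. Solution `b`, `x i = b (inl i)`, `y j = b (inr j)` in `[0, 1]`. Let `θ = K * (∑ x - 1 / 2)`: `x i < 1 → (A y) i ≤ θ` and `0 < x i → θ ≤ (A y) i`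
(`A y` with the unnormalised `y`). `∑ x > 0`: otherwise all `x i = 0 < 1`, so `0 ≤ (A y) i ≤ θ = - K / 2 < 0`. So some `x i > 0`, `θ ≤ (A y) i ≤ ∑ y ≤ n`, hence `∑ x ≤ 1 / 2 + n / K < 1` and all `x i < 1`: `(A y) i ≤ θ` for
all `i`, with equality if `0 < x i`. The same for `y`. Put `x / ∑ x`, `y / ∑ y`, `u = θ / ∑ y`, `v = θ' / ∑ x`.
-/

set_option autoImplicit false

namespace Nvc

open Finset Nsh

namespace NashAux

theorem side {n : ℕ} (hn : 1 ≤ n) (A : Fin n → Fin n → ℝ) (hA : ∀ i j, 0 ≤ A i j ∧ A i j ≤ 1)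
    (a c : Fin n → ℝ) (a0 : ∀ i, 0 ≤ a i) (c0 : ∀ i, 0 ≤ c i) (c1 : ∀ i, c i ≤ 1)
    (h1 : ∀ i, a i < 1 → (4 * (n : ℝ) + 4) / 2 ≤ (4 * (n : ℝ) + 4) * ∑ k, a k - ∑ j, A i j * c j)
    (h2 : ∀ i, 0 < a i → (4 * (n : ℝ) + 4) * ∑ k, a k - ∑ j, A i j * c j ≤ (4 * (n : ℝ) + 4) / 2) :
    0 < ∑ k, a k ∧ ∀ i, ∑ j, A i j * c j ≤ (4 * (n : ℝ) + 4) * (∑ k, a k - 1 / 2) ∧
      (0 < a i → ∑ j, A i j * c j = (4 * (n : ℝ) + 4) * (∑ k, a k - 1 / 2)) := by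
  have hn0 : (0 : ℝ) ≤ (n : ℝ) := Nat.cast_nonneg n
  have hAc0 : ∀ i, 0 ≤ ∑ j, A i j * c j := fun i =>
    sum_nonneg (fun j _ => mul_nonneg (hA i j).1 (c0 j))
  have hAcn : ∀ i, ∑ j, A i j * c j ≤ n := by
    intro i
    calc ∑ j, A i j * c j ≤ ∑ _j : Fin n, (1 : ℝ) := by
          refine sum_le_sum (fun j _ => ?_)
          have := mul_le_mul (hA i j).2 (c1 j) (c0 j) zero_le_one
          simpa using this
      _ = n := by simp
  have hpos : 0 < ∑ k, a k := by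
    by_contra hcon
    have hz : ∑ k, a k = 0 := le_antisymm (not_lt.mp hcon) (sum_nonneg (fun k _ => a0 k))
    have hall : ∀ k, a k = 0 := fun k =>
      (sum_eq_zero_iff_of_nonneg (fun k _ => a0 k)).1 hz k (mem_univ k)
    have h := h1 ⟨0, hn⟩ (by rw [hall]; exact zero_lt_one)
    have h' := hAc0 ⟨0, hn⟩
    rw [hz] at h
    nlinarith
  obtain ⟨i0, _, hi0⟩ : ∃ i ∈ (univ : Finset (Fin n)), 0 < a i := by
    by_contra hcon
    push Not at hcon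
    have : ∑ k, a k ≤ 0 := sum_nonpos hcon
    linarith
  have hlt : ∑ k, a k < 1 := by
    have h := h2 i0 hi0
    have h' := hAcn i0
    nlinarith
  have hl : ∀ i, a i < 1 := fun i =>
    lt_of_le_of_lt (single_le_sum (fun k _ => a0 k) (mem_univ i)) hlt
  refine ⟨hpos, fun i => ⟨?_, fun hi => ?_⟩⟩
  · have h := h1 i (hl i)
    nlinarith
  · have h := h1 i (hl i)
    have h' := h2 i hi
    nlinarith

/-- the matrix for `P74ff84.equilibrium` -/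
def gm {n : ℕ} (A B : Fin n → Fin n → ℝ) : Fin n ⊕ Fin n → Fin n ⊕ Fin n → ℝ
  | Sum.inl _, Sum.inl _ => 4 * (n : ℝ) + 4
  | Sum.inl i, Sum.inr j => - A i j
  | Sum.inr _, Sum.inr _ => 4 * (n : ℝ) + 4
  | Sum.inr j, Sum.inl i => - B i j

theorem gm_inl {n : ℕ} (A B : Fin n → Fin n → ℝ) (b : Fin n ⊕ Fin n → ℝ) (i : Fin n) :
    ∑ u, gm A B (Sum.inl i) u * b u =
      (4 * (n : ℝ) + 4) * ∑ k, b (Sum.inl k) - ∑ j, A i j * b (Sum.inr j) := by
  rw [Fintype.sum_sum_type]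
  simp only [gm, neg_mul, sum_neg_distrib, ← mul_sum]
  ring

theorem gm_inr {n : ℕ} (A B : Fin n → Fin n → ℝ) (b : Fin n ⊕ Fin n → ℝ) (j : Fin n) :
    ∑ u, gm A B (Sum.inr j) u * b u =
      (4 * (n : ℝ) + 4) * ∑ k, b (Sum.inr k) - ∑ i, B i j * b (Sum.inl i) := by
  rw [Fintype.sum_sum_type]
  simp only [gm, neg_mul, sum_neg_distrib, ← mul_sum]
  ring

end NashAux

theorem nash {n : ℕ} (hn : 1 ≤ n) {A B : ℕ → ℕ → ℝ} (hA : U01 n A) (hB : U01 n B) :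
    ∃ (x y : ℕ → ℝ) (u v : ℝ), Mix n x ∧ Mix n y ∧
      (∀ i < n, rv n A y i ≤ u) ∧ (∀ i < n, 0 < x i → rv n A y i = u) ∧
      (∀ j < n, cv n B x j ≤ v) ∧ (∀ j < n, 0 < y j → cv n B x j = v) := by
  classical
  obtain ⟨b, b0, b1, hb1, hb2⟩ := P74ff84.equilibrium (V := Fin n ⊕ Fin n)
    (NashAux.gm (fun i j => A i j) (fun i j => B i j)) (fun _ => (4 * (n : ℝ) + 4) / 2)
  set a : Fin n → ℝ := fun i => b (Sum.inl i) with ha
  set c : Fin n → ℝ := fun j => b (Sum.inr j) with hc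
  have e1 : ∀ i : Fin n,
      ∑ u, NashAux.gm (fun i j => A i j) (fun i j => B i j) (Sum.inl i) u * b u =
      (4 * (n : ℝ) + 4) * ∑ k, a k - ∑ j : Fin n, A i j * c j :=
    fun i => NashAux.gm_inl _ _ b i
  have e2 : ∀ j : Fin n,
      ∑ u, NashAux.gm (fun i j => A i j) (fun i j => B i j) (Sum.inr j) u * b u =
      (4 * (n : ℝ) + 4) * ∑ k, c k - ∑ i : Fin n, B i j * a i :=
    fun j => NashAux.gm_inr _ _ b j
  obtain ⟨hX, hXA⟩ := NashAux.side hn (fun i j => A i j)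
    (fun i j => hA i i.2 j j.2) a c (fun i => b0 _) (fun i => b0 _) (fun i => b1 _)
    (fun i hi => by rw [← e1 i]; exact hb1 (Sum.inl i) hi)
    (fun i hi => by rw [← e1 i]; exact hb2 (Sum.inl i) hi)
  obtain ⟨hY, hYB⟩ := NashAux.side hn (fun j i => B i j)
    (fun j i => hB i i.2 j j.2) c a (fun i => b0 _) (fun i => b0 _) (fun i => b1 _)
    (fun i hi => by rw [← e2 i]; exact hb1 (Sum.inr i) hi)
    (fun i hi => by rw [← e2 i]; exact hb2 (Sum.inr i) hi)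
  set X : ℝ := ∑ k, a k with hXd
  set Y : ℝ := ∑ k, c k with hYd
  set x : ℕ → ℝ := fun i => if h : i < n then a ⟨i, h⟩ / X else 0 with hx
  set y : ℕ → ℝ := fun i => if h : i < n then c ⟨i, h⟩ / Y else 0 with hy
  have xf : ∀ i : Fin n, x i = a i / X := fun i => by
    simp only [hx]
    rw [dif_pos i.2]
  have yf : ∀ i : Fin n, y i = c i / Y := fun i => by
    simp only [hy]
    rw [dif_pos i.2]
  have hrv : ∀ i : Fin n, rv n A y i = (∑ j : Fin n, A i j * c j) / Y := by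
    intro i
    unfold rv
    rw [Finset.sum_range, Finset.sum_div]
    refine sum_congr rfl (fun j _ => ?_)
    rw [yf]
    ring
  have hcv : ∀ j : Fin n, cv n B x j = (∑ i : Fin n, B i j * a i) / X := by
    intro j
    unfold cv
    rw [Finset.sum_range, Finset.sum_div]
    refine sum_congr rfl (fun i _ => ?_)
    rw [xf]
    ring
  refine ⟨x, y, (4 * (n : ℝ) + 4) * (X - 1 / 2) / Y, (4 * (n : ℝ) + 4) * (Y - 1 / 2) / X,
    ⟨?_, ?_⟩, ⟨?_, ?_⟩, ?_, ?_, ?_, ?_⟩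
  · intro i hi
    rw [show x i = a ⟨i, hi⟩ / X from xf ⟨i, hi⟩]
    exact div_nonneg (b0 _) hX.le
  · rw [Finset.sum_range]
    simp only [xf]
    rw [← Finset.sum_div]
    exact div_self hX.ne'
  · intro i hi
    rw [show y i = c ⟨i, hi⟩ / Y from yf ⟨i, hi⟩]
    exact div_nonneg (b0 _) hY.le
  · rw [Finset.sum_range]
    simp only [yf]
    rw [← Finset.sum_div]
    exact div_self hY.ne'
  · intro i hi
    rw [hrv ⟨i, hi⟩]
    exact div_le_div_of_nonneg_right (hXA ⟨i, hi⟩).1 hY.le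
  · intro i hi hxi
    rw [hrv ⟨i, hi⟩, (hXA ⟨i, hi⟩).2]
    rw [show x i = a ⟨i, hi⟩ / X from xf ⟨i, hi⟩] at hxi
    exact (div_pos_iff_of_pos_right hX).1 hxi
  · intro j hj
    rw [hcv ⟨j, hj⟩]
    exact div_le_div_of_nonneg_right (hYB ⟨j, hj⟩).1 hX.le
  · intro j hj hyj
    rw [hcv ⟨j, hj⟩, (hYB ⟨j, hj⟩).2]
    rw [show y j = c ⟨j, hj⟩ / Y from yf ⟨j, hj⟩] at hyj
    exact (div_pos_iff_of_pos_right hY).1 hyj

end Nvc
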