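import Pool.Agent.Lib.Nvc.Case1
import Pool.Agent.Lib.Nvc.Case2
import Pool.Agent.Lib.Nvc.Nash

/-!
# Some candidate passes the test

MP_602ccf, project Nvc (owner helper29).

PROOF of `digits`: `s = ∑ τ < k, t τ * n ^ τ` (`Nat.ofDigits`, or induction on `k`: `s = t 0 + n * s'`).
PROOF of `number`: `m = ty + 2 * (a + (N + 1) * (u + (N + 1) * (v + (N + 1) * s)))`.
PROOF of `exists_cand`: `N = 16 E ^ 2`; the equilibrium of `rm N g.A`, `rm N g.B` (`nash`, entries in `[0, 1]`); `hsm` for `y` gives `t`, `digits` gives `s`. `a = ⌊N * t⌋₊ ≤ N` (here `t` is the weight). For `i < n`: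
`C' i l = mc N a g i l / N ^ 2 = A' + (a / N) B'` with `A' = g.A / N`, `B' = g.B / N`, `C1 i l = A i l + t B i l`: `0 ≤ C1 i l - C' i l ≤ 1 / N + |t - a / N| * 1 + 1 / N ≤ 3 / N`. So
`|avg C' - C' y| ≤ |avg C1 - C1 y| + 3 / N ≤ 1 / (2 E ^ 2) + 3 / N ≤ 1 / E ^ 2 = 16 / N`; times `k N ^ 2`: `hs` of `case1`, `case2`. If `N ≤ a * E`: `case1` with the candidate `ty = 0`, `u = ⌈N u⌉₊ ≤ N`, `v = ⌈N v⌉₊ ≤ N`
(`u, v ≤ 1`: some `x i > 0`, `rv_le_one`); otherwise `case2` with `ty = 1` and `u = v = 0`.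
-/

set_option autoImplicit false

namespace Nvc

open Finset Nsh

theorem digits {n k : ℕ} (t : ℕ → ℕ) (ht : ∀ τ < k, t τ < n) :
    ∃ s < n ^ k, ∀ τ < k, jt n s τ = t τ := by
  induction k generalizing t with
  | zero => exact ⟨0, by simp, fun τ hτ => absurd hτ (by omega)⟩
  | succ k ih =>
    obtain ⟨s, hs, h⟩ := ih (fun τ => t (τ + 1)) (fun τ hτ => ht (τ + 1) (by omega))
    have h0 : t 0 < n := ht 0 (by omega)
    have hn : 0 < n := by omega
    refine ⟨t 0 + n * s, ?_, ?_⟩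
    · have h1 : n * (s + 1) ≤ n * n ^ k := Nat.mul_le_mul_left n hs
      rw [pow_succ, mul_comm (n ^ k) n]
      rw [mul_add, mul_one] at h1
      omega
    · intro τ hτ
      rcases τ with _ | τ
      · unfold jt
        rw [pow_zero, Nat.div_one, Nat.add_mul_mod_self_left, Nat.mod_eq_of_lt h0]
      · have h2 := h τ (by omega)
        unfold jt at h2 ⊢
        rw [pow_succ, mul_comm (n ^ τ) n, ← Nat.div_div_eq_div_mul,
          Nat.add_mul_div_left _ _ hn, Nat.div_eq_of_lt h0, zero_add]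
        exact h2

theorem number {n k N ty a u v s : ℕ} (hty : ty < 2) (ha : a ≤ N) (hu : u ≤ N) (hv : v ≤ N)
    (hs : s < n ^ k) : ∃ m < NC n k N, dT m = ty ∧ dA N m = a ∧ dU N m = u ∧ dV N m = v ∧
      dS N m = s := by
  have key : ∀ (p q b c : ℕ), p < b → q < c → p + b * q < b * c := by
    intro p q b c hp hq
    have h1 : b * (q + 1) ≤ b * c := Nat.mul_le_mul_left b hq
    rw [mul_add, mul_one] at h1
    omega
  have hN : 0 < N + 1 := Nat.succ_pos N
  have ha' : a < N + 1 := by omega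
  have hu' : u < N + 1 := by omega
  have hv' : v < N + 1 := by omega
  have e1 : (ty + 2 * (a + (N + 1) * (u + (N + 1) * (v + (N + 1) * s)))) / 2 =
      a + (N + 1) * (u + (N + 1) * (v + (N + 1) * s)) := by
    rw [Nat.add_mul_div_left _ _ (by norm_num), Nat.div_eq_of_lt hty, zero_add]
  have e2 : (a + (N + 1) * (u + (N + 1) * (v + (N + 1) * s))) / (N + 1) =
      u + (N + 1) * (v + (N + 1) * s) := by
    rw [Nat.add_mul_div_left _ _ hN, Nat.div_eq_of_lt ha', zero_add]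
  have e3 : (u + (N + 1) * (v + (N + 1) * s)) / (N + 1) = v + (N + 1) * s := by
    rw [Nat.add_mul_div_left _ _ hN, Nat.div_eq_of_lt hu', zero_add]
  have e4 : (v + (N + 1) * s) / (N + 1) = s := by
    rw [Nat.add_mul_div_left _ _ hN, Nat.div_eq_of_lt hv', zero_add]
  refine ⟨ty + 2 * (a + (N + 1) * (u + (N + 1) * (v + (N + 1) * s))), ?_, ?_, ?_, ?_, ?_, ?_⟩
  · exact key _ _ _ _ hty (key _ _ _ _ ha' (key _ _ _ _ hu' (key _ _ _ _ hv' hs)))
  · unfold dT
    rw [Nat.add_mul_mod_self_left, Nat.mod_eq_of_lt hty]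
  · unfold dA
    rw [e1, Nat.add_mul_mod_self_left, Nat.mod_eq_of_lt ha']
  · unfold dU
    rw [e1, e2, Nat.add_mul_mod_self_left, Nat.mod_eq_of_lt hu']
  · unfold dV
    rw [e1, e2, e3, Nat.add_mul_mod_self_left, Nat.mod_eq_of_lt hv']
  · unfold dS
    rw [e1, e2, e3, e4]

namespace CandAux

/-- the rounded combination is close to the real one -/
theorem close {N a : ℕ} {A B t : ℝ} {p q : ℕ} (hN : 0 < N) (ht : 0 ≤ t) (ht1 : t ≤ 1)
    (hq : q ≤ N) (hA1 : (p : ℝ) / N ≤ A) (hA2 : A ≤ (p : ℝ) / N + 1 / N)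
    (hB1 : (q : ℝ) / N ≤ B) (hB2 : B ≤ (q : ℝ) / N + 1 / N)
    (ha1 : (a : ℝ) ≤ N * t) (ha2 : N * t < a + 1) :
    0 ≤ (N : ℝ) ^ 2 * (A + t * B) - (N * p + a * q) ∧
      (N : ℝ) ^ 2 * (A + t * B) - (N * p + a * q) ≤ 3 * N := by
  have hN' : (0 : ℝ) < N := Nat.cast_pos.2 hN
  have hq' : (q : ℝ) ≤ N := Nat.cast_le.2 hq
  have hq0 : (0 : ℝ) ≤ q := Nat.cast_nonneg q
  have a1 : (p : ℝ) ≤ N * A := by
    have := mul_le_mul_of_nonneg_left hA1 hN'.le
    rwa [mul_div_cancel₀ _ hN'.ne'] at this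
  have a2 : N * A ≤ p + 1 := by
    have := mul_le_mul_of_nonneg_left hA2 hN'.le
    rwa [mul_add, mul_div_cancel₀ _ hN'.ne', mul_div_cancel₀ _ hN'.ne'] at this
  have b1 : (q : ℝ) ≤ N * B := by
    have := mul_le_mul_of_nonneg_left hB1 hN'.le
    rwa [mul_div_cancel₀ _ hN'.ne'] at this
  have b2 : N * B ≤ q + 1 := by
    have := mul_le_mul_of_nonneg_left hB2 hN'.le
    rwa [mul_add, mul_div_cancel₀ _ hN'.ne', mul_div_cancel₀ _ hN'.ne'] at this
  have hNt : N * t ≤ N := by nlinarith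
  have hNt0 : 0 ≤ N * t := by positivity
  have c1 : 0 ≤ N * (N * A - p) := mul_nonneg hN'.le (by linarith)
  have c2 : N * (N * A - p) ≤ N * 1 := mul_le_mul_of_nonneg_left (by linarith) hN'.le
  have d1 : 0 ≤ N * t * (N * B - q) := mul_nonneg hNt0 (by linarith)
  have d2 : N * t * (N * B - q) ≤ N * 1 := by
    calc N * t * (N * B - q) ≤ N * t * 1 := mul_le_mul_of_nonneg_left (by linarith) hNt0
      _ ≤ N * 1 := by linarith
  have e1 : 0 ≤ (N * t - a) * q := mul_nonneg (by linarith) hq0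
  have e2 : (N * t - a) * q ≤ 1 * N :=
    mul_le_mul (by linarith) hq' hq0 zero_le_one
  have : (N : ℝ) ^ 2 * (A + t * B) - (N * p + a * q) =
      N * (N * A - p) + N * t * (N * B - q) + (N * t - a) * q := by ring
  rw [this]
  constructor <;> linarith

end CandAux

theorem exists_cand {g : Gm} {E k : ℕ} (hE : 1 ≤ E) (hk : 1 ≤ k) {A B : ℕ → ℕ → ℝ}
    (h : Apx g (16 * E ^ 2) A B) {t : ℝ} (ht : 0 ≤ t) (ht1 : t ≤ 1)
    (hsm : Smp g.n k (1 / (2 * E ^ 2)) (fun i j => A i j + t * B i j)) :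
    ∃ m < NC g.n k (16 * E ^ 2), pass g (128 * E) (cX g k E m) (cY g k E m) := by
  have hNE : (16 * E ^ 2 : ℕ) = 16 * E ^ 2 := rfl
  obtain ⟨N, hN⟩ : ∃ N, N = 16 * E ^ 2 := ⟨_, rfl⟩
  rw [← hN] at h
  have hE2 : 1 ≤ E ^ 2 := Nat.one_le_pow _ _ hE
  have hN1 : 1 ≤ N := by omega
  have hNr : (N : ℝ) = 16 * (E : ℝ) ^ 2 := by rw [hN]; push_cast; ring
  have hN0 : (0 : ℝ) < N := Nat.cast_pos.2 hN1
  have hE0 : (0 : ℝ) < E := Nat.cast_pos.2 hE
  have hk0 : (0 : ℝ) < k := Nat.cast_pos.2 hk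
  have hA : ∀ i < g.n, ∀ j < g.n, g.A i j ≤ N := fun i hi j hj => (h.hA i hi j hj).1
  have hB : ∀ i < g.n, ∀ j < g.n, g.B i j ≤ N := fun i hi j hj => (h.hB i hi j hj).1
  have uA := u01_rm hN1 hA
  have uB := u01_rm hN1 hB
  obtain ⟨x, y, u, v, hx, hy, h1, h1', h2, h2'⟩ := nash h.hn uA uB
  have hEq : Eqm g.n (rm N g.A) (rm N g.B) x y u v := ⟨hx, hy, h1, h1', h2, h2'⟩
  obtain ⟨t', ht', happ⟩ := hsm y hy
  obtain ⟨s, hs, hdig⟩ := digits (n := g.n) (k := k) t' (fun τ hτ => (ht' τ hτ).1)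
  have hNt0 : 0 ≤ (N : ℝ) * t := by positivity
  have ha1 : ((⌊(N : ℝ) * t⌋₊ : ℕ) : ℝ) ≤ N * t := Nat.floor_le hNt0
  have ha2 : (N : ℝ) * t < (⌊(N : ℝ) * t⌋₊ : ℕ) + 1 := Nat.lt_floor_add_one _
  obtain ⟨a, hadef⟩ : ∃ a, a = ⌊(N : ℝ) * t⌋₊ := ⟨_, rfl⟩
  rw [← hadef] at ha1 ha2
  have ha : a ≤ N := by
    have : (a : ℝ) ≤ N := by nlinarith
    exact_mod_cast this
  -- closeness of the entries
  have hcl : ∀ i < g.n, ∀ l < g.n,
      0 ≤ (N : ℝ) ^ 2 * (A i l + t * B i l) - (mc N a g i l : ℝ) ∧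
        (N : ℝ) ^ 2 * (A i l + t * B i l) - (mc N a g i l : ℝ) ≤ 3 * N := by
    intro i hi l hl
    obtain ⟨p1, p2, p3⟩ := h.hA i hi l hl
    obtain ⟨q1, q2, q3⟩ := h.hB i hi l hl
    have := CandAux.close (a := a) hN1 ht ht1 q1 p2 p3 q2 q3 ha1 ha2
    have hm : (mc N a g i l : ℝ) = N * g.A i l + a * g.B i l := by
      unfold mc
      push_cast
      ring
    rw [hm]
    exact this
  have hss : ∀ i < g.n, |(sm g.n k s (mc N a g) i : ℝ) -
      k * ∑ l ∈ range g.n, (mc N a g i l : ℝ) * y l| ≤ 16 * k * N := by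
    intro i hi
    have e1 : (sm g.n k s (mc N a g) i : ℝ) = ∑ τ ∈ range k, (mc N a g i (t' τ) : ℝ) := by
      unfold sm
      push_cast
      refine sum_congr rfl (fun τ hτ => ?_)
      rw [hdig τ (mem_range.1 hτ)]
    -- first difference
    have f1 : 0 ≤ ∑ τ ∈ range k, ((N : ℝ) ^ 2 * (A i (t' τ) + t * B i (t' τ)) -
        (mc N a g i (t' τ) : ℝ)) :=
      sum_nonneg (fun τ hτ => (hcl i hi _ (ht' τ (mem_range.1 hτ)).1).1)
    have f2 : ∑ τ ∈ range k, ((N : ℝ) ^ 2 * (A i (t' τ) + t * B i (t' τ)) -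
        (mc N a g i (t' τ) : ℝ)) ≤ k * (3 * N) := by
      have := sum_le_card_nsmul (range k) (fun τ => (N : ℝ) ^ 2 * (A i (t' τ) + t * B i (t' τ)) -
        (mc N a g i (t' τ) : ℝ)) (3 * N) (fun τ hτ => (hcl i hi _ (ht' τ (mem_range.1 hτ)).1).2)
      rwa [card_range, nsmul_eq_mul] at this
    have g1 : 0 ≤ ∑ l ∈ range g.n, ((N : ℝ) ^ 2 * (A i l + t * B i l) -
        (mc N a g i l : ℝ)) * y l :=
      sum_nonneg (fun l hl => mul_nonneg (hcl i hi l (mem_range.1 hl)).1 (hy.nn l (mem_range.1 hl)))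
    have g2 : ∑ l ∈ range g.n, ((N : ℝ) ^ 2 * (A i l + t * B i l) -
        (mc N a g i l : ℝ)) * y l ≤ 3 * N := by
      have : ∑ l ∈ range g.n, ((N : ℝ) ^ 2 * (A i l + t * B i l) -
        (mc N a g i l : ℝ)) * y l ≤ ∑ l ∈ range g.n, 3 * N * y l :=
        sum_le_sum (fun l hl => mul_le_mul_of_nonneg_right (hcl i hi l (mem_range.1 hl)).2
          (hy.nn l (mem_range.1 hl)))
      rwa [← mul_sum, hy.sum, mul_one] at this
    have h3 := happ i hi
    have h4 : |∑ τ ∈ range k, (A i (t' τ) + t * B i (t' τ)) -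
        k * rv g.n (fun i j => A i j + t * B i j) y i| ≤ k * (1 / (2 * E ^ 2)) := by
      have e : ∑ τ ∈ range k, (A i (t' τ) + t * B i (t' τ)) -
          k * rv g.n (fun i j => A i j + t * B i j) y i =
          k * ((∑ τ ∈ range k, (A i (t' τ) + t * B i (t' τ))) / k -
            rv g.n (fun i j => A i j + t * B i j) y i) := by
        rw [mul_sub, mul_div_cancel₀ _ hk0.ne']
      rw [e, abs_mul, abs_of_pos hk0]
      exact mul_le_mul_of_nonneg_left h3 hk0.le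
    have h5 : (N : ℝ) ^ 2 * (k * (1 / (2 * E ^ 2))) = 8 * k * N := by
      rw [hNr]
      field_simp
      ring
    have h6 : |(N : ℝ) ^ 2 * (∑ τ ∈ range k, (A i (t' τ) + t * B i (t' τ)) -
        k * rv g.n (fun i j => A i j + t * B i j) y i)| ≤ 8 * k * N := by
      rw [abs_mul, abs_of_pos (by positivity : (0 : ℝ) < (N : ℝ) ^ 2), ← h5]
      exact mul_le_mul_of_nonneg_left h4 (by positivity)
    have e2 : (sm g.n k s (mc N a g) i : ℝ) - k * ∑ l ∈ range g.n, (mc N a g i l : ℝ) * y l =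
        (N : ℝ) ^ 2 * (∑ τ ∈ range k, (A i (t' τ) + t * B i (t' τ)) -
          k * rv g.n (fun i j => A i j + t * B i j) y i) -
        ∑ τ ∈ range k, ((N : ℝ) ^ 2 * (A i (t' τ) + t * B i (t' τ)) -
          (mc N a g i (t' τ) : ℝ)) +
        k * ∑ l ∈ range g.n, ((N : ℝ) ^ 2 * (A i l + t * B i l) -
          (mc N a g i l : ℝ)) * y l := by
      rw [e1, sum_sub_distrib, ← mul_sum]
      have : ∑ l ∈ range g.n, ((N : ℝ) ^ 2 * (A i l + t * B i l) - (mc N a g i l : ℝ)) * y l =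
          (N : ℝ) ^ 2 * rv g.n (fun i j => A i j + t * B i j) y i -
            ∑ l ∈ range g.n, (mc N a g i l : ℝ) * y l := by
        unfold rv
        rw [mul_sum, ← sum_sub_distrib]
        refine sum_congr rfl (fun l _ => ?_)
        ring
      rw [this]
      ring
    rw [e2]
    have g3 : 0 ≤ k * ∑ l ∈ range g.n, ((N : ℝ) ^ 2 * (A i l + t * B i l) -
        (mc N a g i l : ℝ)) * y l := mul_nonneg hk0.le g1
    have g4 : k * ∑ l ∈ range g.n, ((N : ℝ) ^ 2 * (A i l + t * B i l) -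
        (mc N a g i l : ℝ)) * y l ≤ k * (3 * N) := mul_le_mul_of_nonneg_left g2 hk0.le
    have hkN : 0 < (k : ℝ) * N := mul_pos hk0 hN0
    rw [abs_le] at h6 ⊢
    obtain ⟨h7, h8⟩ := h6
    constructor <;> nlinarith
  by_cases haE : N ≤ a * E
  · have hu1 : ⌈(N : ℝ) * u⌉₊ ≤ N := by
      have : ∃ i ∈ range g.n, 0 < x i := by
        by_contra hcon
        push Not at hcon
        have h0 : ∑ i ∈ range g.n, x i ≤ 0 := sum_nonpos hcon
        rw [hx.sum] at h0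
        linarith
      obtain ⟨i, hi, hxi⟩ := this
      have hu : u ≤ 1 := by
        rw [← h1' i (mem_range.1 hi) hxi]
        exact rv_le_one uA hy (mem_range.1 hi)
      rw [Nat.ceil_le]
      nlinarith
    have hv1 : ⌈(N : ℝ) * v⌉₊ ≤ N := by
      have : ∃ i ∈ range g.n, 0 < y i := by
        by_contra hcon
        push Not at hcon
        have h0 : ∑ i ∈ range g.n, y i ≤ 0 := sum_nonpos hcon
        rw [hy.sum] at h0
        linarith
      obtain ⟨i, hi, hyi⟩ := this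
      have hv : v ≤ 1 := by
        rw [← h2' i (mem_range.1 hi) hyi]
        exact cv_le_one uB hx (mem_range.1 hi)
      rw [Nat.ceil_le]
      nlinarith
    obtain ⟨m, hm, m1, m2, m3, m4, m5⟩ := number (n := g.n) (k := k) (N := N) (ty := 0)
      (by norm_num) ha hu1 hv1 hs
    have hc := case1 hE hk hN h.hn hA hB hEq ha haE hss
    rw [hN] at hm m2 m3 m4 m5 hc
    refine ⟨m, hm, ?_⟩
    unfold cX cY
    rw [if_pos m1, if_pos m1, m2, m3, m4, m5]
    exact hc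
  · obtain ⟨m, hm, m1, m2, m3, m4, m5⟩ := number (n := g.n) (k := k) (N := N) (ty := 1)
      (u := 0) (v := 0) (by norm_num) ha (Nat.zero_le _) (Nat.zero_le _) hs
    have hc := case2 hE hk hN h.hn hA hB hEq (a := a) (s := s) (by omega)
      (fun τ hτ => by rw [hdig τ hτ]; exact (ht' τ hτ).2) hss
    rw [hN] at hm m2 m3 m4 m5 hc
    refine ⟨m, hm, ?_⟩
    unfold cX cY
    rw [if_neg (by omega), if_neg (by omega), m5]
    exact hc

end Nvc
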