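import Pool.Agent.Lib.Nvc.Lp
import Pool.Agent.Lib.Nsh.Cast

/-!
# The first type of candidates

MP_602ccf, project Nvc (owner helper29). `Nsh.rm N A = A / N` (real matrix), `Nsh.rl L x = x / L`.

PROOF. `N = 16 E ^ 2`, `U = ⌈N u⌉₊`, `V = ⌈N v⌉₊` (`U, V ≤ N` as `u, v ≤ 1`), `T = TT g.n k N = (2 n) W ^ 2`, `W = 8 k N ^ 2`. In units: `c_i = sm g.n k s (mc N a g) i`, `m_il = mc N a g i l`;
`hs` says `|c_i - k ∑ l, m_il y_l| ≤ 16 k N`.
* the system `yP, yQ` has the solution `y`: rows `r < n`: `∑ A r l y_l = N rv ≤ N u ≤ U`; rows `n + i`: `c_i ≤ k ∑ l m_il y_l + 16 k N`. The bound `W`: `m_il ≤ 2 N ^ 2`, `16 k N ≤ k N ^ 2`.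
* the system `xP, xQ` has the solution `x`: rows `r < n`: `∑ l, B l r x_l = N cv ≤ V`; the others: `∑ l x_l c_l ≥ k ∑ l x_l ∑ j m_lj y_j - 16 k N = k N ^ 2 (u + (a / N) v) - 16 k N`
  (`∑ x_l A_lj y_j = N u` by `hu'`, `∑ x_l B_lj y_j = N v` by `hv'`), and `N u ≥ U - 1`, `N v ≥ V - 1`, so it is `≥ k (N U + a V) - 2 k N - 16 k N`.
Let `X`, `Y` be the outputs (`tot = T`, `tot_lp`), `x' = X / T`, `y' = Y / T`. `lp_spec`: (1) `∑ A r l Y_l ≤ T U + T`; (2) `T c_i ≤ k ∑ m_il Y_l + 16 k N T + T`; (3) `∑ B l r X_l ≤ T V + T`; (4) `T k (N U + a V) ≤ ∑ c_l X_l + 18 k N T + T`.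
(2) times `X_i`, summed, with (4) times `T`: `T ^ 2 k (N U + a V) ≤ k ∑ X_i m_il Y_l + (16 k N + 1) T ^ 2 + (18 k N + 1) T ^ 2`, i.e. `N p_A + a p_B ≥ N U + a V - 34 N - 2` where `p_A = ∑ x' A y'`, `p_B = ∑ x' B y'`
(`k ≥ 1`). Since `p_B ≤ V + 1` and `p_A ≤ U + 1` by (1), (3): `N (U + 1 - p_A) ≤ 34 N + 2 + N + a ≤ 38 N`, so the regret of the row player is `≤ 38 ≤ 128 E` (it is `max (A y')_i - p_A ≤ U + 1 - p_A`), and
`a (V + 1 - p_B) ≤ 38 N`, `N ≤ a E`, so `V + 1 - p_B ≤ 38 E ≤ 128 E`. Multiply by `T ^ 2`: `pass`.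
-/

set_option autoImplicit false

namespace Nvc.Case1Aux

open Finset Nsh Nvc

theorem mcb {g : Gm} {N a : ℕ} (hA : ∀ i < g.n, ∀ j < g.n, g.A i j ≤ N)
    (hB : ∀ i < g.n, ∀ j < g.n, g.B i j ≤ N) (ha : a ≤ N) {i l : ℕ} (hi : i < g.n) (hl : l < g.n) :
    mc N a g i l ≤ 2 * N ^ 2 := by
  unfold mc
  have h1 : N * g.A i l ≤ N * N := Nat.mul_le_mul_left _ (hA i hi l hl)
  have h2 : a * g.B i l ≤ N * N := Nat.mul_le_mul ha (hB i hi l hl)
  nlinarith

theorem jt_lt {n : ℕ} (hn : 1 ≤ n) (s t : ℕ) : jt n s t < n := Nat.mod_lt _ (by omega)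

theorem smb {g : Gm} {N a k s : ℕ} (hn : 1 ≤ g.n) (hA : ∀ i < g.n, ∀ j < g.n, g.A i j ≤ N)
    (hB : ∀ i < g.n, ∀ j < g.n, g.B i j ≤ N) (ha : a ≤ N) {i : ℕ} (hi : i < g.n) :
    sm g.n k s (mc N a g) i ≤ k * (2 * N ^ 2) := by
  unfold sm
  have h := sum_le_card_nsmul (range k) (fun t => mc N a g i (jt g.n s t)) (2 * N ^ 2)
    (fun t _ => mcb hA hB ha hi (jt_lt hn s t))
  simpa using h

/-- sum of a constant row -/
theorem rn_const (n c : ℕ) (x : ℕ → ℕ) : ∑ l ∈ range n, c * x l = c * tot n x := by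
  unfold tot
  rw [mul_sum]

theorem comb {n N a U V T k : ℕ} (hk : 1 ≤ k) (haN : a ≤ N) (hN : 1 ≤ N) {A B M : ℕ → ℕ → ℕ}
    {X Y c : ℕ → ℕ} (hX : tot n X = T) (hY : tot n Y = T) (hM : ∀ i < n, ∀ l < n, M i l = N * A i l + a * B i l)
    (h1 : ∀ r < n, rn n A Y r ≤ U * T + T)
    (h2 : ∀ i < n, c i * T ≤ k * (∑ l ∈ range n, M i l * Y l) + 16 * k * N * T + T)
    (h3 : ∀ r < n, cn n B X r ≤ V * T + T)
    (h4 : k * (N * U + a * V) * T ≤ (∑ l ∈ range n, c l * X l) + 18 * k * N * T + T) :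
    N * ((U + 1) * T ^ 2) ≤ N * pn n A X Y + 38 * N * T ^ 2 ∧
    a * ((V + 1) * T ^ 2) ≤ a * pn n B X Y + 38 * N * T ^ 2 := by
  have hPA : pn n A X Y ≤ (U + 1) * T ^ 2 := by
    unfold pn
    calc ∑ i ∈ range n, X i * rn n A Y i ≤ ∑ i ∈ range n, X i * (U * T + T) :=
          sum_le_sum (fun i hi => Nat.mul_le_mul_left _ (h1 i (mem_range.1 hi)))
      _ = (∑ i ∈ range n, X i) * (U * T + T) := by rw [sum_mul]
      _ = (U + 1) * T ^ 2 := by
          have : ∑ i ∈ range n, X i = T := hX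
          rw [this]; ring
  have hPBe : pn n B X Y = ∑ l ∈ range n, Y l * cn n B X l := by
    unfold pn rn cn
    simp only [mul_sum]
    rw [sum_comm]
    exact sum_congr rfl (fun l _ => sum_congr rfl (fun i _ => by ring))
  have hPB : pn n B X Y ≤ (V + 1) * T ^ 2 := by
    rw [hPBe]
    calc ∑ i ∈ range n, Y i * cn n B X i ≤ ∑ i ∈ range n, Y i * (V * T + T) :=
          sum_le_sum (fun i hi => Nat.mul_le_mul_left _ (h3 i (mem_range.1 hi)))
      _ = (∑ i ∈ range n, Y i) * (V * T + T) := by rw [sum_mul]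
      _ = (V + 1) * T ^ 2 := by
          have : ∑ i ∈ range n, Y i = T := hY
          rw [this]; ring
  have hsum : T * (∑ l ∈ range n, c l * X l) ≤
      k * (N * pn n A X Y + a * pn n B X Y) + (16 * k * N + 1) * T ^ 2 := by
    have e1 : ∑ i ∈ range n, X i * (k * (∑ l ∈ range n, M i l * Y l) + 16 * k * N * T + T) =
        k * (N * pn n A X Y + a * pn n B X Y) + (16 * k * N + 1) * T ^ 2 := by
      have e2 : ∀ i ∈ range n, X i * (k * (∑ l ∈ range n, M i l * Y l) + 16 * k * N * T + T) =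
          k * (N * (X i * rn n A Y i) + a * (X i * rn n B Y i)) +
            X i * (16 * k * N * T + T) := by
        intro i hi
        have : ∑ l ∈ range n, M i l * Y l = N * rn n A Y i + a * rn n B Y i := by
          unfold rn
          rw [mul_sum, mul_sum, ← sum_add_distrib]
          refine sum_congr rfl (fun l hl => ?_)
          rw [hM i (mem_range.1 hi) l (mem_range.1 hl)]
          ring
        rw [this]
        ring
      rw [sum_congr rfl e2, sum_add_distrib, ← mul_sum, sum_add_distrib, ← mul_sum, ← mul_sum,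
        ← sum_mul]
      have : ∑ i ∈ range n, X i = T := hX
      rw [this]
      unfold pn
      ring
    rw [← e1, mul_sum]
    refine sum_le_sum (fun i hi => ?_)
    have := Nat.mul_le_mul_left (X i) (h2 i (mem_range.1 hi))
    calc T * (c i * X i) = X i * (c i * T) := by ring
      _ ≤ _ := this
  have h5 : k * ((N * U + a * V) * T ^ 2) ≤
      k * (N * pn n A X Y + a * pn n B X Y + (34 * N + 2) * T ^ 2) := by
    have := Nat.mul_le_mul_right T h4
    have hk2 : T ^ 2 ≤ k * T ^ 2 := Nat.le_mul_of_pos_left _ (by omega)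
    nlinarith
  have h6 := Nat.le_of_mul_le_mul_left h5 (by omega)
  have e3 : a * pn n B X Y ≤ a * ((V + 1) * T ^ 2) := Nat.mul_le_mul_left _ hPB
  have e4 : N * pn n A X Y ≤ N * ((U + 1) * T ^ 2) := Nat.mul_le_mul_left _ hPA
  have e5 : a * T ^ 2 ≤ N * T ^ 2 := Nat.mul_le_mul_right _ haN
  have e6 : T ^ 2 ≤ N * T ^ 2 := Nat.le_mul_of_pos_left _ (by omega)
  constructor
  · nlinarith
  · nlinarith

end Nvc.Case1Aux

namespace Nvc

open Finset Nsh

theorem case1 {g : Gm} {E k N : ℕ} (hE : 1 ≤ E) (hk : 1 ≤ k) (hN : N = 16 * E ^ 2) (hn : 1 ≤ g.n)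
    (hA : ∀ i < g.n, ∀ j < g.n, g.A i j ≤ N) (hB : ∀ i < g.n, ∀ j < g.n, g.B i j ≤ N)
    {x y : ℕ → ℝ} {u v : ℝ} (h : Eqm g.n (rm N g.A) (rm N g.B) x y u v) {a s : ℕ} (ha : a ≤ N)
    (haE : N ≤ a * E)
    (hs : ∀ i < g.n, |(sm g.n k s (mc N a g) i : ℝ) - k * ∑ l ∈ range g.n, (mc N a g i l : ℝ) * y l| ≤
      16 * k * N) :
    pass g (128 * E)
      (lp (2 * g.n) g.n (xP g k N a ⌈N * v⌉₊ s) (xQ g k N a ⌈N * u⌉₊ ⌈N * v⌉₊) (TT g.n k N))
      (lp (2 * g.n) g.n (yP g k N a ⌈N * u⌉₊) (yQ g k N a s) (TT g.n k N)) := by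
  have hN16 : 16 ≤ N := by
    rw [hN]
    have : 1 ≤ E ^ 2 := Nat.one_le_pow _ _ hE
    omega
  have hN0 : (0 : ℝ) < N := Nat.cast_pos.2 (by omega)
  have hkR : (1 : ℝ) ≤ k := by exact_mod_cast hk
  -- real facts
  have F1' : ∀ i, ∑ j ∈ range g.n, (g.A i j : ℝ) * y j = N * rv g.n (rm N g.A) y i := by
    intro i
    unfold rv rm
    rw [mul_sum]
    refine sum_congr rfl (fun j _ => ?_)
    field_simp
  have F3' : ∀ j, ∑ i ∈ range g.n, x i * (g.B i j : ℝ) = N * cv g.n (rm N g.B) x j := by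
    intro j
    unfold cv rm
    rw [mul_sum]
    refine sum_congr rfl (fun i _ => ?_)
    field_simp
  have F1 : ∀ i < g.n, ∑ j ∈ range g.n, (g.A i j : ℝ) * y j ≤ N * u := by
    intro i hi
    rw [F1']
    exact mul_le_mul_of_nonneg_left (h.hu i hi) hN0.le
  have F3 : ∀ j < g.n, ∑ i ∈ range g.n, x i * (g.B i j : ℝ) ≤ N * v := by
    intro j hj
    rw [F3']
    exact mul_le_mul_of_nonneg_left (h.hv j hj) hN0.le
  have F5 : ∑ i ∈ range g.n, x i * ∑ j ∈ range g.n, (g.A i j : ℝ) * y j = N * u := by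
    have : ∀ i ∈ range g.n, x i * ∑ j ∈ range g.n, (g.A i j : ℝ) * y j = x i * (N * u) := by
      intro i hi
      rcases (h.hx.nn i (mem_range.1 hi)).eq_or_lt with h0 | h0
      · rw [← h0]; simp
      · rw [F1', h.hu' i (mem_range.1 hi) h0]
    rw [sum_congr rfl this, ← sum_mul, h.hx.sum, one_mul]
  have F6 : ∑ j ∈ range g.n, y j * ∑ i ∈ range g.n, x i * (g.B i j : ℝ) = N * v := by
    have : ∀ j ∈ range g.n, y j * ∑ i ∈ range g.n, x i * (g.B i j : ℝ) = y j * (N * v) := by
      intro j hj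
      rcases (h.hy.nn j (mem_range.1 hj)).eq_or_lt with h0 | h0
      · rw [← h0]; simp
      · rw [F3', h.hv' j (mem_range.1 hj) h0]
    rw [sum_congr rfl this, ← sum_mul, h.hy.sum, one_mul]
  have hu0 : 0 ≤ (N : ℝ) * u := by
    rw [← F5]
    exact sum_nonneg (fun i hi => mul_nonneg (h.hx.nn i (mem_range.1 hi))
      (sum_nonneg (fun j hj => mul_nonneg (Nat.cast_nonneg _) (h.hy.nn j (mem_range.1 hj)))))
  have hv0 : 0 ≤ (N : ℝ) * v := by
    rw [← F6]
    exact sum_nonneg (fun i hi => mul_nonneg (h.hy.nn i (mem_range.1 hi))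
      (sum_nonneg (fun j hj => mul_nonneg (h.hx.nn j (mem_range.1 hj)) (Nat.cast_nonneg _))))
  have hu1 : (N : ℝ) * u ≤ N := by
    rw [← F5]
    calc ∑ i ∈ range g.n, x i * ∑ j ∈ range g.n, (g.A i j : ℝ) * y j
        ≤ ∑ i ∈ range g.n, x i * (N : ℝ) := by
          refine sum_le_sum (fun i hi => mul_le_mul_of_nonneg_left ?_ (h.hx.nn i (mem_range.1 hi)))
          calc ∑ j ∈ range g.n, (g.A i j : ℝ) * y j ≤ ∑ j ∈ range g.n, (N : ℝ) * y j := by
                refine sum_le_sum (fun j hj => mul_le_mul_of_nonneg_right ?_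
                  (h.hy.nn j (mem_range.1 hj)))
                exact_mod_cast hA i (mem_range.1 hi) j (mem_range.1 hj)
            _ = N := by rw [← mul_sum, h.hy.sum, mul_one]
      _ = N := by rw [← sum_mul, h.hx.sum, one_mul]
  have hv1 : (N : ℝ) * v ≤ N := by
    rw [← F6]
    calc ∑ j ∈ range g.n, y j * ∑ i ∈ range g.n, x i * (g.B i j : ℝ)
        ≤ ∑ j ∈ range g.n, y j * (N : ℝ) := by
          refine sum_le_sum (fun j hj => mul_le_mul_of_nonneg_left ?_ (h.hy.nn j (mem_range.1 hj)))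
          calc ∑ i ∈ range g.n, x i * (g.B i j : ℝ) ≤ ∑ i ∈ range g.n, x i * (N : ℝ) := by
                refine sum_le_sum (fun i hi => mul_le_mul_of_nonneg_left ?_
                  (h.hx.nn i (mem_range.1 hi)))
                exact_mod_cast hB i (mem_range.1 hi) j (mem_range.1 hj)
            _ = N := by rw [← sum_mul, h.hx.sum, one_mul]
      _ = N := by rw [← sum_mul, h.hy.sum, one_mul]
  obtain ⟨U, hU⟩ : ∃ U : ℕ, U = ⌈(N : ℝ) * u⌉₊ := ⟨_, rfl⟩
  obtain ⟨V, hV⟩ : ∃ V : ℕ, V = ⌈(N : ℝ) * v⌉₊ := ⟨_, rfl⟩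
  rw [← hU, ← hV]
  have hU1 : (N : ℝ) * u ≤ U := by rw [hU]; exact Nat.le_ceil _
  have hV1 : (N : ℝ) * v ≤ V := by rw [hV]; exact Nat.le_ceil _
  have hU2 : (U : ℝ) ≤ N * u + 1 := by rw [hU]; exact (Nat.ceil_lt_add_one hu0).le
  have hV2 : (V : ℝ) ≤ N * v + 1 := by rw [hV]; exact (Nat.ceil_lt_add_one hv0).le
  have hUN : U ≤ N := by rw [hU]; exact Nat.ceil_le.2 hu1
  have hVN : V ≤ N := by rw [hV]; exact Nat.ceil_le.2 hv1
  have hm := @Case1Aux.mcb g N a hA hB ha
  have hc := @Case1Aux.smb g N a k s hn hA hB ha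
  have hT : TT g.n k N = 2 * g.n * (8 * k * N ^ 2) ^ 2 := rfl
  have b1 : N ≤ 8 * k * N ^ 2 := by nlinarith [Nat.mul_le_mul hk (le_refl (N ^ 2))]
  have b2 : k * (2 * N ^ 2) + 18 * k * N ≤ 8 * k * N ^ 2 := by
    have : 18 * k * N ≤ 2 * k * N ^ 2 := by
      calc 18 * k * N = (2 * k * N) * 9 := by ring
        _ ≤ (2 * k * N) * N := Nat.mul_le_mul_left _ (by omega)
        _ = 2 * k * N ^ 2 := by ring
    nlinarith
  -- the system for y
  have Y0 := tot_lp (R := 2 * g.n) hn (yP g k N a U) (yQ g k N a s) (TT g.n k N)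
  have Y1 := lp_spec (R := 2 * g.n) (W := 8 * k * N ^ 2) hn (P := yP g k N a U) (Q := yQ g k N a s)
    (by
      intro r hr l hl
      unfold yP yQ
      by_cases h0 : r < g.n
      · rw [if_pos h0, if_pos h0]
        have := hA r h0 l hl
        constructor <;> omega
      · rw [if_neg h0, if_neg h0]
        have h1 := hm (i := r - g.n) (l := l) (by omega) hl
        have h2 := hc (i := r - g.n) (by omega)
        have h3 : k * mc N a g (r - g.n) l ≤ k * (2 * N ^ 2) := Nat.mul_le_mul_left _ h1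
        have h4 : 16 * k * N ≤ 18 * k * N := by nlinarith
        constructor <;> omega)
    (y := y) h.hy
    (by
      intro r hr
      unfold yP yQ
      by_cases h0 : r < g.n
      · simp only [if_pos h0]
        rw [← mul_sum, h.hy.sum, mul_one]
        exact (F1 r h0).trans hU1
      · simp only [if_neg h0]
        rw [← mul_sum, h.hy.sum, mul_one]
        have h1 := (abs_le.1 (hs (r - g.n) (by omega))).2
        have h2 : ∑ l ∈ range g.n, ((k * mc N a g (r - g.n) l + 16 * k * N : ℕ) : ℝ) * y l =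
            k * ∑ l ∈ range g.n, (mc N a g (r - g.n) l : ℝ) * y l + 16 * k * N := by
          have : ∀ l ∈ range g.n, ((k * mc N a g (r - g.n) l + 16 * k * N : ℕ) : ℝ) * y l =
              k * ((mc N a g (r - g.n) l : ℝ) * y l) + (16 * k * N) * y l := by
            intro l _
            push_cast
            ring
          rw [sum_congr rfl this, sum_add_distrib, ← mul_sum, ← mul_sum, h.hy.sum, mul_one]
        rw [h2]
        linarith)
  rw [← hT] at Y1
  -- the system for x
  have X0 := tot_lp (R := 2 * g.n) hn (xP g k N a V s) (xQ g k N a U V) (TT g.n k N)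
  have X1 := lp_spec (R := 2 * g.n) (W := 8 * k * N ^ 2) hn (P := xP g k N a V s)
    (Q := xQ g k N a U V)
    (by
      intro r hr l hl
      unfold xP xQ
      by_cases h0 : r < g.n
      · rw [if_pos h0, if_pos h0]
        have := hB l hl r h0
        constructor <;> omega
      · rw [if_neg h0, if_neg h0]
        have h2 := hc (i := l) hl
        have h3 : k * (N * U + a * V) ≤ k * (2 * N ^ 2) := by
          refine Nat.mul_le_mul_left _ ?_
          have e1 : N * U ≤ N * N := Nat.mul_le_mul_left _ hUN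
          have e2 : a * V ≤ N * N := Nat.mul_le_mul ha hVN
          nlinarith
        constructor <;> omega)
    (y := x) h.hx
    (by
      intro r hr
      unfold xP xQ
      by_cases h0 : r < g.n
      · simp only [if_pos h0]
        rw [← mul_sum, h.hx.sum, mul_one]
        refine le_trans (le_of_eq ?_) ((F3 r h0).trans hV1)
        exact sum_congr rfl (fun l _ => mul_comm _ _)
      · simp only [if_neg h0]
        rw [← mul_sum, h.hx.sum, mul_one]
        have h2 : ∑ l ∈ range g.n, ((sm g.n k s (mc N a g) l + 18 * k * N : ℕ) : ℝ) * x l =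
            ∑ l ∈ range g.n, x l * (sm g.n k s (mc N a g) l : ℝ) + 18 * k * N := by
          have : ∀ l ∈ range g.n, ((sm g.n k s (mc N a g) l + 18 * k * N : ℕ) : ℝ) * x l =
              x l * (sm g.n k s (mc N a g) l : ℝ) + (18 * k * N) * x l := by
            intro l _
            push_cast
            ring
          rw [sum_congr rfl this, sum_add_distrib, ← mul_sum, h.hx.sum, mul_one]
        rw [h2]
        have h3 : k * (N * (N * u) + a * (N * v)) - 16 * k * N ≤
            ∑ l ∈ range g.n, x l * (sm g.n k s (mc N a g) l : ℝ) := by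
          have e1 : ∑ l ∈ range g.n, x l * (k * (∑ j ∈ range g.n, (mc N a g l j : ℝ) * y j) -
              16 * k * N) ≤ ∑ l ∈ range g.n, x l * (sm g.n k s (mc N a g) l : ℝ) := by
            refine sum_le_sum (fun l hl => mul_le_mul_of_nonneg_left ?_
              (h.hx.nn l (mem_range.1 hl)))
            have := (abs_le.1 (hs l (mem_range.1 hl))).1
            linarith
          refine le_trans (le_of_eq ?_) e1
          have e2 : ∀ l ∈ range g.n, x l * (k * (∑ j ∈ range g.n, (mc N a g l j : ℝ) * y j) -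
              16 * k * N) = k * (N * (x l * ∑ j ∈ range g.n, (g.A l j : ℝ) * y j)) +
                k * (a * (∑ j ∈ range g.n, x l * (g.B l j : ℝ) * y j)) - (16 * k * N) * x l := by
            intro l _
            have : ∑ j ∈ range g.n, (mc N a g l j : ℝ) * y j =
                N * (∑ j ∈ range g.n, (g.A l j : ℝ) * y j) +
                  a * (∑ j ∈ range g.n, (g.B l j : ℝ) * y j) := by
              rw [mul_sum, mul_sum, ← sum_add_distrib]
              refine sum_congr rfl (fun j _ => ?_)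
              unfold mc
              push_cast
              ring
            rw [this]
            have h7 : ∑ j ∈ range g.n, x l * (g.B l j : ℝ) * y j =
                x l * ∑ j ∈ range g.n, (g.B l j : ℝ) * y j := by
              rw [mul_sum]
              exact sum_congr rfl (fun j _ => by ring)
            rw [h7]
            ring
          rw [sum_congr rfl e2, sum_sub_distrib, sum_add_distrib, ← mul_sum, ← mul_sum, F5,
            ← mul_sum, ← mul_sum, ← mul_sum, h.hx.sum]
          have h8 : ∑ l ∈ range g.n, ∑ j ∈ range g.n, x l * (g.B l j : ℝ) * y j = N * v := by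
            rw [← F6, sum_comm]
            refine sum_congr rfl (fun j _ => ?_)
            rw [mul_sum]
            exact sum_congr rfl (fun i _ => by ring)
          rw [h8]
          ring
        have haR : (a : ℝ) ≤ N := by exact_mod_cast ha
        have h4 : (N : ℝ) * U + a * V ≤ N * (N * u) + a * (N * v) + 2 * N := by
          have e1 : (N : ℝ) * U ≤ N * (N * u + 1) := mul_le_mul_of_nonneg_left hU2 hN0.le
          have e2 : (a : ℝ) * V ≤ a * (N * v + 1) :=
            mul_le_mul_of_nonneg_left hV2 (Nat.cast_nonneg _)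
          linarith
        have h5 := mul_le_mul_of_nonneg_left h4 (by linarith : (0 : ℝ) ≤ k)
        push_cast
        linarith)
  rw [← hT] at X1
  generalize lp (2 * g.n) g.n (yP g k N a U) (yQ g k N a s) (TT g.n k N) = Y at Y0 Y1 ⊢
  generalize lp (2 * g.n) g.n (xP g k N a V s) (xQ g k N a U V) (TT g.n k N) = X at X0 X1 ⊢
  have hTpos : 1 ≤ TT g.n k N := by
    rw [hT]
    have : 1 ≤ 8 * k * N ^ 2 := by omega
    have h1 : 1 ≤ (8 * k * N ^ 2) ^ 2 := Nat.one_le_pow _ _ this
    nlinarith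
  have key := Case1Aux.comb (n := g.n) (N := N) (a := a) (U := U) (V := V) (T := TT g.n k N)
    (k := k) hk ha (by omega) (A := g.A) (B := g.B) (M := mc N a g) (X := X) (Y := Y)
    (c := fun i => sm g.n k s (mc N a g) i) X0 Y0 (fun i _ l _ => rfl)
    (by
      intro r hr
      have h1 := Y1 r (by omega)
      have e1 : rn g.n (yQ g k N a s) Y r = rn g.n g.A Y r := by
        unfold rn yQ
        simp only [if_pos hr]
      have e2 : rn g.n (yP g k N a U) Y r = U * TT g.n k N := by
        unfold rn yP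
        simp only [if_pos hr]
        rw [Case1Aux.rn_const, Y0]
      rw [e1, e2] at h1
      exact h1)
    (by
      intro i hi
      have h1 := Y1 (g.n + i) (by omega)
      have h0 : ¬ g.n + i < g.n := by omega
      have h9 : g.n + i - g.n = i := by omega
      have e1 : rn g.n (yQ g k N a s) Y (g.n + i) = sm g.n k s (mc N a g) i * TT g.n k N := by
        unfold rn yQ
        simp only [if_neg h0, h9]
        rw [Case1Aux.rn_const, Y0]
      have e2 : rn g.n (yP g k N a U) Y (g.n + i) =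
          k * (∑ l ∈ range g.n, mc N a g i l * Y l) + 16 * k * N * TT g.n k N := by
        unfold rn yP
        simp only [if_neg h0, h9, add_mul]
        rw [sum_add_distrib, Case1Aux.rn_const, Y0, mul_sum]
        congr 1
        exact sum_congr rfl (fun l _ => by ring)
      rw [e1, e2] at h1
      exact h1)
    (by
      intro r hr
      have h1 := X1 r (by omega)
      have e1 : rn g.n (xQ g k N a U V) X r = cn g.n g.B X r := by
        unfold rn xQ cn
        simp only [if_pos hr]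
        exact sum_congr rfl (fun l _ => by ring)
      have e2 : rn g.n (xP g k N a V s) X r = V * TT g.n k N := by
        unfold rn xP
        simp only [if_pos hr]
        rw [Case1Aux.rn_const, X0]
      rw [e1, e2] at h1
      exact h1)
    (by
      have h1 := X1 g.n (by omega)
      have h0 : ¬ g.n < g.n := by omega
      have e1 : rn g.n (xQ g k N a U V) X g.n = k * (N * U + a * V) * TT g.n k N := by
        unfold rn xQ
        simp only [if_neg h0]
        rw [Case1Aux.rn_const, X0]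
      have e2 : rn g.n (xP g k N a V s) X g.n =
          (∑ l ∈ range g.n, sm g.n k s (mc N a g) l * X l) + 18 * k * N * TT g.n k N := by
        unfold rn xP
        simp only [if_neg h0, add_mul]
        rw [sum_add_distrib, Case1Aux.rn_const, X0]
      rw [e1, e2] at h1
      exact h1)
  obtain ⟨key1, key2⟩ := key
  have h1 : ∀ r < g.n, rn g.n g.A Y r ≤ U * TT g.n k N + TT g.n k N := by
    intro r hr
    have h1 := Y1 r (by omega)
    have e1 : rn g.n (yQ g k N a s) Y r = rn g.n g.A Y r := by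
      unfold rn yQ
      simp only [if_pos hr]
    have e2 : rn g.n (yP g k N a U) Y r = U * TT g.n k N := by
      unfold rn yP
      simp only [if_pos hr]
      rw [Case1Aux.rn_const, Y0]
    rw [e1, e2] at h1
    exact h1
  have h3 : ∀ r < g.n, cn g.n g.B X r ≤ V * TT g.n k N + TT g.n k N := by
    intro r hr
    have h1 := X1 r (by omega)
    have e1 : rn g.n (xQ g k N a U V) X r = cn g.n g.B X r := by
      unfold rn xQ cn
      simp only [if_pos hr]
      exact sum_congr rfl (fun l _ => by ring)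
    have e2 : rn g.n (xP g k N a V s) X r = V * TT g.n k N := by
      unfold rn xP
      simp only [if_pos hr]
      rw [Case1Aux.rn_const, X0]
    rw [e1, e2] at h1
    exact h1
  unfold pass
  rw [X0, Y0]
  generalize TT g.n k N = T at *
  refine ⟨hTpos, hTpos, fun r hr => ?_, fun c hc' => ?_⟩
  · have e1 := Nat.mul_le_mul_left T (h1 r (mem_range.1 hr))
    have e2 : (U + 1) * T ^ 2 ≤ pn g.n g.A X Y + 38 * T ^ 2 := by
      have : N * ((U + 1) * T ^ 2) ≤ N * (pn g.n g.A X Y + 38 * T ^ 2) := by nlinarith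
      exact Nat.le_of_mul_le_mul_left this (by omega)
    have e3 : 38 * T ^ 2 ≤ 128 * E * (T * T) := by
      have : 38 ≤ 128 * E := by omega
      calc 38 * T ^ 2 = 38 * (T * T) := by ring
        _ ≤ _ := Nat.mul_le_mul_right _ this
    nlinarith
  · have e1 := Nat.mul_le_mul_left T (h3 c (mem_range.1 hc'))
    have ha0 : 0 < a := by
      rcases Nat.eq_zero_or_pos a with h0 | h0
      · rw [h0] at haE
        omega
      · exact h0
    have e2 : (V + 1) * T ^ 2 ≤ pn g.n g.B X Y + 38 * E * T ^ 2 := by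
      have : a * ((V + 1) * T ^ 2) ≤ a * (pn g.n g.B X Y + 38 * E * T ^ 2) := by
        have e4 : 38 * N * T ^ 2 ≤ 38 * (a * E) * T ^ 2 :=
          Nat.mul_le_mul_right _ (Nat.mul_le_mul_left _ haE)
        calc a * ((V + 1) * T ^ 2) ≤ a * pn g.n g.B X Y + 38 * N * T ^ 2 := key2
          _ ≤ a * pn g.n g.B X Y + 38 * (a * E) * T ^ 2 := Nat.add_le_add_left e4 _
          _ = _ := by ring
      exact Nat.le_of_mul_le_mul_left this ha0
    have e3 : 38 * E * T ^ 2 ≤ 128 * E * (T * T) := by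
      calc 38 * E * T ^ 2 = 38 * E * (T * T) := by ring
        _ ≤ _ := Nat.mul_le_mul_right _ (by omega)
    nlinarith

end Nvc
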