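import Pool.Agent.Lib.Nvc.Defs

/-!
# The dual fat-shattering dimension

MP_602ccf, project Nvc (owner helper29).

PROOF of `dual`. Let `J` (a set of rows) be shattered by the columns with margin `2 * h` and witness `r`. For `i ∈ J` (sets `T ∋ i` and `T ∌ i`): `r i + 2 h ≤ 2` and `0 ≤ r i - 2 h`. Suppose
`(⌊1 / h⌋₊ + 1) * 2 ^ (d + 1) < J.card`. The map `i ↦ ⌊r i / (2 * h)⌋₊` sends `J` to `range (⌊1 / h⌋₊ + 1)`, so some value `v` has at least `2 ^ (d + 1)` rows in `J`
(pigeonhole). With `ρ = 2 * h * v + h` these rows have `|r i - ρ| ≤ h`, so they satisfy: for `T ⊆ J` there is a column `j` with `ρ + h ≤ C i j` for `i ∈ T` and `C i j ≤ ρ - h` for `i ∉ T`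
(`i` in this class). Index `2 ^ (d + 1)` of them by the subsets of `Fin (d + 1)`: an injection `e : Finset (Fin (d + 1)) → class`. For `m : Fin (d + 1)` let `c m` be the column for
`T = {e U | m ∈ U}`: `ρ + h ≤ C (e U) (c m)` if `m ∈ U`, and `≤ ρ - h` otherwise. `c` is injective (`U = {m}`), and its image is shattered with margin `h` and the constant witness `ρ` (row `e U` with
`U = {m | c m ∈ T}`): `d + 1` elements, contradicting `FatDim h C d`.

`FatDim.mono`, `FatDim.scale`: from the definition (a set shattered with a larger margin is shattered with a smaller one; multiply the witness by `c`).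
-/

set_option autoImplicit false

namespace Nvc

open Finset

theorem FatDim.mono {ι κ : Type*} {g g' : ℝ} {C : ι → κ → ℝ} {d d' : ℕ} (h : FatDim g C d)
    (hg : g ≤ g') (hd : d ≤ d') : FatDim g' C d' := by
  intro J hJ
  obtain ⟨r, hr⟩ := hJ
  refine (h J ⟨r, fun T hT => ?_⟩).trans hd
  obtain ⟨i, hi⟩ := hr T hT
  refine ⟨i, fun j hj => ⟨fun hjT => ?_, fun hjT => ?_⟩⟩
  · have := (hi j hj).1 hjT
    linarith
  · have := (hi j hj).2 hjT
    linarith

theorem FatDim.scale {ι κ : Type*} {g c : ℝ} (hc : 0 < c) {C : ι → κ → ℝ} {d : ℕ}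
    (h : FatDim g C d) : FatDim (c * g) (fun i j => c * C i j) d := by
  intro J hJ
  obtain ⟨r, hr⟩ := hJ
  refine h J ⟨fun j => r j / c, fun T hT => ?_⟩
  obtain ⟨i, hi⟩ := hr T hT
  have key : ∀ j, c * (r j / c) = r j := fun j => mul_div_cancel₀ (r j) hc.ne'
  refine ⟨i, fun j hj => ⟨fun hjT => ?_, fun hjT => ?_⟩⟩
  · have h1 := (hi j hj).1 hjT
    have h2 : c * (r j / c + g) ≤ c * C i j := by rw [mul_add, key]; exact h1
    exact le_of_mul_le_mul_left h2 hc
  · have h1 := (hi j hj).2 hjT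
    have h2 : c * C i j ≤ c * (r j / c - g) := by rw [mul_sub, key]; exact h1
    exact le_of_mul_le_mul_left h2 hc

theorem dual {ι κ : Type*} {h : ℝ} (hh : 0 < h) {C : ι → κ → ℝ}
    (hC : ∀ i j, 0 ≤ C i j ∧ C i j ≤ 2) {d : ℕ} (hF : FatDim h C d) :
    FatDim (2 * h) (fun j i => C i j) ((⌊1 / h⌋₊ + 1) * 2 ^ (d + 1)) := by
  classical
  intro J hJ
  obtain ⟨r, hr⟩ := hJ
  by_contra hcon
  push Not at hcon
  have hmaps : ∀ i ∈ J, ⌊r i / (2 * h)⌋₊ ∈ range (⌊1 / h⌋₊ + 1) := by
    intro i hi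
    obtain ⟨j, hj⟩ := hr {i} (by simpa using hi)
    have h1 := (hj i hi).1 (by simp)
    have h2 := (hC i j).2
    rw [mem_range, Nat.lt_succ_iff]
    apply Nat.floor_le_floor
    rw [div_le_div_iff₀ (by positivity) hh]
    nlinarith
  have hnonneg : ∀ i ∈ J, 0 ≤ r i := by
    intro i hi
    obtain ⟨j, hj⟩ := hr ∅ (by simp)
    have h1 := (hj i hi).2 (by simp)
    have h2 := (hC i j).1
    linarith
  obtain ⟨v, -, hv⟩ := exists_lt_card_fiber_of_mul_lt_card_of_maps_to hmaps
    (by rw [card_range]; exact hcon)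
  set K := J.filter (fun i => ⌊r i / (2 * h)⌋₊ = v) with hK
  have hKJ : K ⊆ J := filter_subset _ _
  obtain ⟨e⟩ : Nonempty (Finset (Fin (d + 1)) ↪ K) := by
    apply Function.Embedding.nonempty_of_card_le
    rw [Fintype.card_finset, Fintype.card_fin, Fintype.card_coe]
    exact hv.le
  set ρ : ℝ := 2 * h * v + h with hρ
  have hKr : ∀ i ∈ K, ρ - h ≤ r i ∧ r i ≤ ρ + h := by
    intro i hi
    rw [hK, mem_filter] at hi
    have h1 : (v : ℝ) ≤ r i / (2 * h) := by
      rw [← hi.2]
      exact Nat.floor_le (div_nonneg (hnonneg i hi.1) (by positivity))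
    have h2 : r i / (2 * h) < v + 1 := by
      rw [← hi.2]
      exact Nat.lt_floor_add_one _
    rw [le_div_iff₀ (by positivity)] at h1
    rw [div_lt_iff₀ (by positivity)] at h2
    constructor <;> rw [hρ] <;> nlinarith
  have hcol : ∀ m : Fin (d + 1), ∃ j, ∀ U : Finset (Fin (d + 1)),
      (m ∈ U → ρ + h ≤ C (e U) j) ∧ (m ∉ U → C (e U) j ≤ ρ - h) := by
    intro m
    obtain ⟨j, hj⟩ := hr ((univ.filter (fun U : Finset (Fin (d + 1)) => m ∈ U)).image
      (fun U => (e U : ι))) (by
        intro i hi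
        rw [mem_image] at hi
        obtain ⟨U, -, rfl⟩ := hi
        exact hKJ (e U).2)
    refine ⟨j, fun U => ⟨fun hm => ?_, fun hm => ?_⟩⟩
    · have h1 := (hj (e U) (hKJ (e U).2)).1 (mem_image_of_mem _ (by simpa using hm))
      have h2 := (hKr (e U) (e U).2).1
      linarith
    · have h1 := (hj (e U) (hKJ (e U).2)).2 (by
        intro hmem
        rw [mem_image] at hmem
        obtain ⟨U', hU', hUU⟩ := hmem
        have : U' = U := e.injective (Subtype.ext hUU)
        rw [mem_filter] at hU'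
        exact hm (this ▸ hU'.2))
      have h2 := (hKr (e U) (e U).2).2
      linarith
  choose c hc using hcol
  have hinj : Function.Injective c := by
    intro m m' hmm
    by_contra hne
    have h1 := (hc m {m}).1 (by simp)
    have h2 := (hc m' {m}).2 (by simpa using fun h => hne h.symm)
    rw [← hmm] at h2
    linarith
  have hbound := hF (univ.image c) ⟨fun _ => ρ, fun T _ => ⟨e (univ.filter (fun m => c m ∈ T)),
    fun j hj => by
      rw [mem_image] at hj
      obtain ⟨m, -, rfl⟩ := hj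
      exact ⟨fun hT => (hc m _).1 (by simpa using hT), fun hT => (hc m _).2 (by simpa using hT)⟩⟩⟩
  rw [card_image_of_injective _ hinj, card_univ, Fintype.card_fin] at hbound
  omega

end Nvc
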