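import Pool.Agent.Lib.Nvc.Samp
import Pool.Agent.Lib.Nvc.Dual

/-!
# Convex combinations of bounded dimension

MP_602ccf, project Nvc (owner helper29).

PROOF. Let `γ = 1 / (192 * E ^ 2)`, `d' = (⌊1 / (2 * γ)⌋₊ + 1) * 2 ^ (d + 1) ≥ d`, and `k` from `sampling d'` at the scale `4 * γ = 1 / (48 * E ^ 2)` (`24 * (4 γ) = 1 / (2 E ^ 2)`).
Case `β ≤ α`: `α ≥ 1 / 2`, `t = β / α`, `A + t B = (1 / α) (α A + β B)`: `FatDim.scale` gives `FatDim (γ / α)`, `FatDim.mono` (`γ / α ≤ 2 γ ≤ 4 γ`, `d ≤ d'`), left alternative.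
Case `α < β`: `t = α / β`, `B + t A` has `FatDim (2 γ) _ d`, entries in `[0, 2]`; `dual` gives `FatDim (4 γ)` of the transposed matrix with `d'`; right alternative (the transposed matrix is `fun i j => B j i + t * A j i`).
-/

set_option autoImplicit false

namespace Nvc

open Finset

theorem ConvAux.key {n d : ℕ} {g : ℝ} (hg : 0 < g) {P Q : ℕ → ℕ → ℝ} {α β : ℝ} (hα : 1 / 2 ≤ α)
    (hF : FatDim g (fun i j : Fin n => α * P i j + β * Q i j) d) :
    FatDim (2 * g) (fun i j : Fin n => P i j + β / α * Q i j) d := by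
  have hα0 : 0 < α := by linarith
  have h1 := FatDim.scale (c := 1 / α) (by positivity) hF
  have h2 : (fun i j : Fin n => 1 / α * (α * P i j + β * Q i j)) =
      (fun i j : Fin n => P i j + β / α * Q i j) := by
    funext i j
    field_simp
  rw [h2] at h1
  refine h1.mono ?_ le_rfl
  refine mul_le_mul_of_nonneg_right ?_ hg.le
  rw [div_le_iff₀ hα0]
  linarith

theorem ConvAux.entries {P Q : ℕ → ℕ → ℝ} (hP : ∀ i j, 0 ≤ P i j ∧ P i j ≤ 1)
    (hQ : ∀ i j, 0 ≤ Q i j ∧ Q i j ≤ 1) {t : ℝ} (ht : 0 ≤ t) (ht1 : t ≤ 1) (i j : ℕ) :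
    0 ≤ P i j + t * Q i j ∧ P i j + t * Q i j ≤ 2 := by
  have h1 := hP i j
  have h2 := hQ i j
  constructor
  · have := mul_nonneg ht h2.1
    linarith [h1.1]
  · have := mul_le_mul ht1 h2.2 h2.1 (by norm_num : (0 : ℝ) ≤ 1)
    linarith [h1.2]

theorem conv (E d : ℕ) (hE : 1 ≤ E) : ∃ k : ℕ, 1 ≤ k ∧
    ∀ (n : ℕ) (A B : ℕ → ℕ → ℝ), (∀ i j, 0 ≤ A i j ∧ A i j ≤ 1) → (∀ i j, 0 ≤ B i j ∧ B i j ≤ 1) →
      ∀ α β : ℝ, 0 ≤ α → 0 ≤ β → α + β = 1 →
        FatDim (1 / (192 * E ^ 2)) (fun i j : Fin n => α * A i j + β * B i j) d →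
        ∃ t : ℝ, 0 ≤ t ∧ t ≤ 1 ∧ (Smp n k (1 / (2 * E ^ 2)) (fun i j => A i j + t * B i j) ∨
          Smp n k (1 / (2 * E ^ 2)) (fun i j => B j i + t * A j i)) := by
  have hE0 : (0 : ℝ) < E := by exact_mod_cast hE
  set γ : ℝ := 1 / (192 * E ^ 2) with hγ
  have hγ0 : 0 < γ := by positivity
  have hdd : d ≤ (⌊1 / (2 * γ)⌋₊ + 1) * 2 ^ (d + 1) := by
    have h1 : d < 2 ^ (d + 1) := (Nat.lt_succ_self d).trans Nat.lt_two_pow_self
    exact h1.le.trans (Nat.le_mul_of_pos_left _ (Nat.succ_pos _))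
  obtain ⟨k, hk, hs⟩ := sampling ((⌊1 / (2 * γ)⌋₊ + 1) * 2 ^ (d + 1)) (g := 4 * γ) (by positivity)
  have h24 : 24 * (4 * γ) = 1 / (2 * E ^ 2) := by
    rw [hγ]
    field_simp
    norm_num
  rw [h24] at hs
  refine ⟨k, hk, ?_⟩
  intro n A B hA hB α β hα hβ hαβ hF
  rcases le_total β α with hle | hle
  · have hα2 : 1 / 2 ≤ α := by linarith
    have hα0 : 0 < α := by linarith
    have ht0 : 0 ≤ β / α := by positivity
    have ht1 : β / α ≤ 1 := by rw [div_le_one hα0]; exact hle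
    refine ⟨β / α, ht0, ht1, Or.inl ?_⟩
    refine hs n (fun i j => A i j + β / α * B i j) (ConvAux.entries hA hB ht0 ht1) ?_
    exact (ConvAux.key hγ0 hα2 hF).mono (by linarith) hdd
  · have hβ2 : 1 / 2 ≤ β := by linarith
    have hβ0 : 0 < β := by linarith
    have ht0 : 0 ≤ α / β := by positivity
    have ht1 : α / β ≤ 1 := by rw [div_le_one hβ0]; exact hle
    refine ⟨α / β, ht0, ht1, Or.inr ?_⟩
    refine hs n (fun i j => B j i + α / β * A j i)
      (fun i j => ConvAux.entries hB hA ht0 ht1 j i) ?_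
    have h1 : (fun i j : Fin n => α * A i j + β * B i j) =
        (fun i j : Fin n => β * B i j + α * A i j) := by
      funext i j
      ring
    rw [h1] at hF
    have h2 := ConvAux.key hγ0 hβ2 hF
    have h3 := dual (h := 2 * γ) (by positivity)
      (fun i j : Fin n => ConvAux.entries hB hA ht0 ht1 i j) h2
    refine h3.mono (le_of_eq (by ring)) le_rfl

end Nvc
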