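import Pool.Agent.Lib.Nvc.Dual

/-!
# 0/1 matrices without a fixed submatrix

MP_602ccf, project Nvc (owner helper29).

PROOF of `free_dim`. Let `J` be shattered with margin `g > 0`, witness `r`, and `a + b < J.card`. For `j ∈ J` (sets `T ∋ j`, `T ∌ j`): `r j + g ≤ 1`, `0 ≤ r j - g`, so for every `T ⊆ J` there is a row `i` with
`C i j = 1` for `j ∈ T` and `C i j = 0` for `j ∈ J \ T`. Take an injection `e : Fin (a + b) → J` (`Fin.castAdd`, `Fin.natAdd`), `τ q = e (natAdd a q)` and for `p : Fin a` the row `σ p` of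
`T = {e (castAdd b p)} ∪ {τ q | P p q = true}`. `σ` is injective (column `e (castAdd b p)`), and `C (σ p) (τ q) = 1` iff `P p q = true`: a copy of `P`.
-/

set_option autoImplicit false

namespace Nvc

open Finset

theorem free_dim {m n a b : ℕ} {P : Fin a → Fin b → Bool} {C : Fin m → Fin n → ℝ}
    (hC : ∀ i j, C i j = 0 ∨ C i j = 1)
    (hP : ¬ ∃ (σ : Fin a → Fin m) (τ : Fin b → Fin n), Function.Injective σ ∧
      Function.Injective τ ∧ ∀ p q, C (σ p) (τ q) = if P p q = true then 1 else 0)
    {g : ℝ} (hg : 0 < g) : FatDim g C (a + b) := by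
  classical
  intro J hJ
  by_contra hlt
  push Not at hlt
  obtain ⟨r, hr⟩ := hJ
  -- every subset of `J` is the trace of a row
  have key : ∀ T ⊆ J, ∃ i, ∀ j ∈ J, (j ∈ T → C i j = 1) ∧ (j ∉ T → C i j = 0) := by
    intro T hT
    obtain ⟨i, hi⟩ := hr T hT
    refine ⟨i, fun j hj => ⟨fun hjT => ?_, fun hjT => ?_⟩⟩
    · have h1 := (hi j hj).1 hjT
      obtain ⟨i', hi'⟩ := hr ∅ (empty_subset _)
      have h2 := (hi' j hj).2 (notMem_empty _)
      have h3 : 0 ≤ C i' j := by
        rcases hC i' j with h | h <;> rw [h] <;> norm_num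
      rcases hC i j with h | h
      · rw [h] at h1
        linarith
      · exact h
    · have h1 := (hi j hj).2 hjT
      obtain ⟨i', hi'⟩ := hr J (Subset.refl _)
      have h2 := (hi' j hj).1 hj
      have h3 : C i' j ≤ 1 := by
        rcases hC i' j with h | h <;> rw [h] <;> norm_num
      rcases hC i j with h | h
      · exact h
      · rw [h] at h1
        linarith
  -- `a + b` elements of `J`
  obtain ⟨e⟩ : Nonempty (Fin (a + b) ↪ J) := by
    refine Function.Embedding.nonempty_of_card_le ?_
    rw [Fintype.card_fin, Fintype.card_coe]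
    exact hlt.le
  have hrow : ∀ p : Fin a, ∃ i, ∀ j ∈ J,
      (j ∈ J.filter (fun j : Fin n => j = (e (Fin.castAdd b p) : Fin n) ∨
        ∃ q, j = (e (Fin.natAdd a q) : Fin n) ∧ P p q = true) → C i j = 1) ∧
      (j ∉ J.filter (fun j : Fin n => j = (e (Fin.castAdd b p) : Fin n) ∨
        ∃ q, j = (e (Fin.natAdd a q) : Fin n) ∧ P p q = true) → C i j = 0) :=
    fun p => key _ (filter_subset _ _)
  choose σ hσ using hrow
  refine hP ⟨σ, fun q => e (Fin.natAdd a q), ?_, ?_, ?_⟩
  · intro p p' hpp
    have h1 := (hσ p (e (Fin.castAdd b p)) (e (Fin.castAdd b p)).2).1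
      (mem_filter.2 ⟨(e (Fin.castAdd b p)).2, Or.inl rfl⟩)
    by_contra hne
    have h2 := (hσ p' (e (Fin.castAdd b p)) (e (Fin.castAdd b p)).2).2 (by
      intro hmem
      rcases (mem_filter.1 hmem).2 with h | ⟨q, h, -⟩
      · have h3 := e.injective (Subtype.ext h)
        exact hne (Fin.castAdd_injective a b h3)
      · have h3 := congrArg Fin.val (e.injective (Subtype.ext h))
        have h4 := p.2
        simp only [Fin.val_castAdd, Fin.val_natAdd] at h3
        omega)
    rw [hpp] at h1
    rw [h1] at h2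
    exact one_ne_zero h2
  · intro q q' h
    have h3 := e.injective (Subtype.ext h)
    exact Fin.natAdd_injective b a h3
  · intro p q
    by_cases hq : P p q = true
    · rw [if_pos hq]
      exact (hσ p (e (Fin.natAdd a q)) (e (Fin.natAdd a q)).2).1
        (mem_filter.2 ⟨(e (Fin.natAdd a q)).2, Or.inr ⟨q, rfl, hq⟩⟩)
    · rw [if_neg hq]
      refine (hσ p (e (Fin.natAdd a q)) (e (Fin.natAdd a q)).2).2 ?_
      intro hmem
      rcases (mem_filter.1 hmem).2 with h | ⟨q', h, h'⟩
      · have h3 := congrArg Fin.val (e.injective (Subtype.ext h))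
        have h4 := p.2
        simp only [Fin.val_castAdd, Fin.val_natAdd] at h3
        omega
      · have h3 := e.injective (Subtype.ext h)
        rw [Fin.natAdd_injective b a h3] at hq
        exact hq h'

end Nvc
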