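import Pool.Agent.Lib.Nvc.Pack

/-!
# Bounded fat-shattering dimension gives small covers on samples

MP_602ccf, project Nvc (owner helper29).

PROOF. For a row `i` let `f i : Fin M → ℕ`, `f i p = ⌊C i (t p) / (2 * g)⌋₊`, with values `< b` (`C ≤ 2`, `1 / g < b`). Let `F0` be the image of `f`, and
`F ⊆ F0` a subset with `Sep univ F` of largest size (`Finset.exists_max_image` on the powerset, `∅` is separated). `I` = a choice of one row for each element of `F`
(`I.card ≤ F.card`). Every row `i` has `f' ∈ F` with `¬ (f i p + 2 ≤ f' p ∨ f' p + 2 ≤ f i p)` for all `p`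
(if `f i ∈ F` take `f' = f i`; otherwise `insert (f i) F` is not separated), so `|C i (t p) - C i' (t p)| ≤ 4 * g` (`Nat.floor_le`, `Nat.lt_floor_add_one`).
The size: `pack_lt` with `X = univ : Finset (Fin M)`, `m = M`: let `P` be strongly shattered by `F`. The map `P → κ`, `e ↦ t e.1`, is injective on `P`: if `e ≠ e'` and
`t e.1 = t e'.1`, then for `T = {e}` some `f ∈ F` has `e.2 + 1 ≤ f e.1 = f e'.1 ≤ e'.2 - 1` (as `f = f i` depends only on `t p`) and for `T = {e'}` the other way round, a contradiction.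
The image `J` is shattered by `C` with margin `g`: witness `r (t e.1) = (2 * e.2 + 1) * g - g`... precisely `r = 2 * g * e.2`: `f i p ≥ e.2 + 1` gives `C ≥ 2 g (e.2 + 1) ≥ r + g`, and
`f i p + 1 ≤ e.2` gives `C < 2 g (f i p + 1) ≤ 2 g e.2`; so take `r = 2 * g * e.2 + g`: `C ≥ r + g` and `C ≤ r - g`. Hence `P.card = J.card ≤ d` by `hF`.
-/

set_option autoImplicit false

namespace Nvc

open Finset

theorem cover {ι κ : Type*} [Fintype ι] {g : ℝ} (hg : 0 < g) {d b r M : ℕ} (hM : 1 ≤ M)
    (hb : 1 / g < b) (hr : (M * b + 1) ^ d < 2 ^ r) {C : ι → κ → ℝ}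
    (hC : ∀ i j, 0 ≤ C i j ∧ C i j ≤ 2) (hF : FatDim g C d) (t : Fin M → κ) :
    ∃ I : Finset ι, I.card < 2 * (2 * M * b ^ 2) ^ r ∧
      ∀ i, ∃ i' ∈ I, ∀ p, |C i (t p) - C i' (t p)| ≤ 4 * g := by
  classical
  have hb1 : 1 ≤ b := by
    have h1 : (0 : ℝ) < b := lt_trans (by positivity) hb
    exact_mod_cast h1
  obtain ⟨f, hf⟩ : ∃ f : ι → Fin M → ℕ, ∀ i p, f i p = ⌊C i (t p) / (2 * g)⌋₊ :=
    ⟨fun i p => ⌊C i (t p) / (2 * g)⌋₊, fun _ _ => rfl⟩
  have h2g : 0 < 2 * g := by positivity
  have hlo : ∀ i p, (f i p : ℝ) * (2 * g) ≤ C i (t p) := by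
    intro i p
    have h := Nat.floor_le (div_nonneg (hC i (t p)).1 h2g.le)
    rw [← hf i p] at h
    rwa [le_div_iff₀ h2g] at h
  have hup : ∀ i p, C i (t p) < ((f i p : ℝ) + 1) * (2 * g) := by
    intro i p
    have h := Nat.lt_floor_add_one (C i (t p) / (2 * g))
    rw [← hf i p] at h
    rwa [div_lt_iff₀ h2g] at h
  have hfb : ∀ i p, f i p < b := by
    intro i p
    have h3 : (f i p : ℝ) * (2 * g) ≤ 2 := le_trans (hlo i p) (hC i (t p)).2
    have h4 : (f i p : ℝ) ≤ 1 / g := by
      rw [le_div_iff₀ hg]; linarith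
    exact_mod_cast lt_of_le_of_lt h4 hb
  have hft : ∀ i p q, t p = t q → f i p = f i q := by
    intro i p q h
    rw [hf, hf, h]
  -- a maximal separated family of rows
  obtain ⟨F, hFm, hmax⟩ := Finset.exists_max_image
    ((univ.image f).powerset.filter (fun F => Sep univ F)) Finset.card
    ⟨∅, by simp [Sep]⟩
  rw [mem_filter, mem_powerset] at hFm
  obtain ⟨hF0, hsep⟩ := hFm
  have hex : ∀ φ ∈ F, ∃ i, f i = φ := by
    intro φ hφ
    obtain ⟨i, _, hi⟩ := mem_image.mp (hF0 hφ)
    exact ⟨i, hi⟩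
  have hcard : F.card < 2 * (2 * M * b ^ 2) ^ r := by
    refine pack_lt (d := d) hM hb1 univ F (by simp) ?_ hsep ?_ hr
    · intro φ hφ x _
      obtain ⟨i, rfl⟩ := hex φ hφ
      exact hfb i x
    · intro P _ hP
      have hinj : ∀ e ∈ P, ∀ e' ∈ P, t e.1 = t e'.1 → e = e' := by
        intro e he e' he' htt
        by_contra hne
        obtain ⟨φ, hφ, h1⟩ := hP {e} (singleton_subset_iff.mpr he)
        obtain ⟨i, rfl⟩ := hex φ hφ
        obtain ⟨ψ, hψ, h2⟩ := hP {e'} (singleton_subset_iff.mpr he')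
        obtain ⟨j, rfl⟩ := hex ψ hψ
        have a1 := (h1 e he).1 (mem_singleton_self e)
        have a2 := (h1 e' he').2 (by rw [mem_singleton]; exact fun h => hne h.symm)
        have a3 := (h2 e' he').1 (mem_singleton_self e')
        have a4 := (h2 e he).2 (by rw [mem_singleton]; exact hne)
        have b1 := hft i e.1 e'.1 htt
        have b2 := hft j e.1 e'.1 htt
        omega
      have hJ : (P.image (fun e => t e.1)).card = P.card :=
        card_image_of_injOn (fun e he e' he' h => hinj e he e' he' h)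
      rw [← hJ]
      apply hF
      refine ⟨fun j => if h : ∃ e ∈ P, t e.1 = j then 2 * g * (h.choose.2 : ℝ) + g else 0, ?_⟩
      intro T _
      have hr' : ∀ e ∈ P, (if h : ∃ e' ∈ P, t e'.1 = t e.1 then
          2 * g * (h.choose.2 : ℝ) + g else 0) = 2 * g * (e.2 : ℝ) + g := by
        intro e he
        have h : ∃ e' ∈ P, t e'.1 = t e.1 := ⟨e, he, rfl⟩
        rw [dif_pos h]
        have h2 := hinj _ h.choose_spec.1 e he h.choose_spec.2
        rw [h2]
      obtain ⟨φ, hφ, h1⟩ := hP (P.filter (fun e => t e.1 ∈ T)) (filter_subset _ _)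
      obtain ⟨i, rfl⟩ := hex φ hφ
      refine ⟨i, ?_⟩
      intro j hj
      obtain ⟨e, he, rfl⟩ := mem_image.mp hj
      dsimp only
      rw [hr' e he]
      constructor
      · intro hjT
        have h2 := (h1 e he).1 (mem_filter.mpr ⟨he, hjT⟩)
        have h3 : ((e.2 : ℝ) + 1) ≤ (f i e.1 : ℝ) := by exact_mod_cast h2
        have h4 := hlo i e.1
        nlinarith
      · intro hjT
        have h2 := (h1 e he).2 (fun h => hjT (mem_filter.mp h).2)
        have h3 : (f i e.1 : ℝ) + 1 ≤ (e.2 : ℝ) := by exact_mod_cast h2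
        have h4 := hup i e.1
        nlinarith
  choose c hc using hex
  refine ⟨F.attach.image (fun φ => c φ.1 φ.2), ?_, ?_⟩
  · exact lt_of_le_of_lt (card_image_le.trans (by rw [card_attach])) hcard
  · intro i
    have key : ∃ φ ∈ F, ∀ p, ¬ (f i p + 2 ≤ φ p ∨ φ p + 2 ≤ f i p) := by
      by_cases hi : f i ∈ F
      · refine ⟨f i, hi, ?_⟩
        intro p
        omega
      · by_contra hno
        push Not at hno
        have hS : Sep univ (insert (f i) F) := by
          intro φ hφ ψ hψ hne
          rw [mem_insert] at hφ hψ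
          rcases hφ with rfl | hφ
          · rcases hψ with rfl | hψ
            · exact absurd rfl hne
            · obtain ⟨p, hp⟩ := hno ψ hψ
              exact ⟨p, mem_univ _, hp⟩
          · rcases hψ with rfl | hψ
            · obtain ⟨p, hp⟩ := hno φ hφ
              exact ⟨p, mem_univ _, hp.symm⟩
            · exact hsep φ hφ ψ hψ hne
        have hle := hmax (insert (f i) F) (by
          rw [mem_filter, mem_powerset]
          refine ⟨?_, hS⟩
          intro φ hφ
          rw [mem_insert] at hφ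
          rcases hφ with rfl | hφ
          · exact mem_image_of_mem f (mem_univ i)
          · exact hF0 hφ)
        rw [card_insert_of_notMem hi] at hle
        omega
    obtain ⟨φ, hφ, hφp⟩ := key
    refine ⟨c φ hφ, ?_, ?_⟩
    · rw [mem_image]
      exact ⟨⟨φ, hφ⟩, mem_attach _ _, rfl⟩
    · intro p
      have h1 := hφp p
      have h2 : f (c φ hφ) p = φ p := by rw [hc φ hφ]
      have h3 := hlo i p
      have h4 := hup i p
      have h5 := hlo (c φ hφ) p
      have h6 := hup (c φ hφ) p
      rw [h2] at h5 h6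
      have h7 : f i p ≤ φ p + 1 := by omega
      have h8 : φ p ≤ f i p + 1 := by omega
      have h9 : (f i p : ℝ) ≤ φ p + 1 := by exact_mod_cast h7
      have h10 : (φ p : ℝ) ≤ f i p + 1 := by exact_mod_cast h8
      rw [abs_le]
      constructor <;> nlinarith

end Nvc
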