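import Pool.Agent.Lib.Nsh.NDefs

/-!
# Games of bounded fat-shattering dimension: definitions

MP_602ccf, project Nvc (owner helper29): for every `ε` there is a scale `g` such that for every `d` there is a
polynomial-time algorithm for `ε`-Nash equilibria in all games where some convex combination of the two payoff
matrices has fat-shattering dimension at most `d` at the scale `g`. Paper proof: /team-store/602ccf_vc.md.
-/

set_option autoImplicit false

namespace Nvc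

open Finset

/-- the set `J` of columns is shattered by the rows of `C` with margin `g` -/
def Shat {ι κ : Type*} (g : ℝ) (C : ι → κ → ℝ) (J : Finset κ) : Prop :=
  ∃ r : κ → ℝ, ∀ T ⊆ J, ∃ i, ∀ j ∈ J, (j ∈ T → r j + g ≤ C i j) ∧ (j ∉ T → C i j ≤ r j - g)

/-- the fat-shattering dimension of `C` at the scale `g` is at most `d` -/
def FatDim {ι κ : Type*} (g : ℝ) (C : ι → κ → ℝ) (d : ℕ) : Prop :=
  ∀ J : Finset κ, Shat g C J → J.card ≤ d

/-- every mixed strategy `y` has a sample of size `k` (with elements of its support) that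
approximates the payoffs of all rows within `δ` -/
def Smp (n k : ℕ) (δ : ℝ) (C : ℕ → ℕ → ℝ) : Prop :=
  ∀ y, Nsh.Mix n y → ∃ t : ℕ → ℕ, (∀ s < k, t s < n ∧ 0 < y (t s)) ∧
    ∀ i < n, |(∑ s ∈ range k, C i (t s)) / k - Nsh.rv n C y i| ≤ δ

/-- expected payoff `x M y` -/
def pay {n : ℕ} (M : Fin n → Fin n → ℝ) (x y : Fin n → ℝ) : ℝ :=
  ∑ i : Fin n, ∑ j : Fin n, x i * M i j * y j

/-- `(x, y)` is an `ε`-approximate Nash equilibrium of `(A, B)` -/
def ANash {n : ℕ} (ε : ℝ) (A B : Fin n → Fin n → ℝ) (x y : Fin n → ℝ) : Prop :=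
  x ∈ stdSimplex ℝ (Fin n) ∧ y ∈ stdSimplex ℝ (Fin n) ∧
  (∀ x' ∈ stdSimplex ℝ (Fin n), pay A x' y - ε ≤ pay A x y) ∧
  (∀ y' ∈ stdSimplex ℝ (Fin n), pay B x y' - ε ≤ pay B x y)

/-- pairwise separated on `X` -/
def Sep {α : Type*} (X : Finset α) (F : Finset (α → ℕ)) : Prop :=
  ∀ f ∈ F, ∀ g ∈ F, f ≠ g → ∃ x ∈ X, f x + 2 ≤ g x ∨ g x + 2 ≤ f x

/-- the set `P` of pairs (point, value) is strongly shattered by `F` -/
def SS {α : Type*} (F : Finset (α → ℕ)) (P : Finset (α × ℕ)) : Prop :=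
  ∀ T ⊆ P, ∃ f ∈ F, ∀ e ∈ P, (e ∈ T → e.2 + 1 ≤ f e.1) ∧ (e ∉ T → f e.1 + 1 ≤ e.2)

end Nvc
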