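import Pool.Agent.Lib.Nvc.Cand
import Pool.Agent.Lib.Nvc.Conv
import Pool.Agent.Lib.Nsh.Round

/-!
# The output is an approximate equilibrium

MP_602ccf, project Nvc (owner helper29).

PROOF of `pass_sw`: unfold; `rn n (sw g).A Y r = cn n g.B Y r` (commute the products), `cn n (sw g).B X c = rn n g.A X c`, `pn n (sw g).A X Y = pn n g.B Y X`, `pn n (sw g).B X Y = pn n g.A Y X` (exchange the sums).
PROOF of `out_pass`: if a candidate of `g` passes then `Wsm.lst_spec` gives `pass` at `fc g k E` and `out` is the first pair; if the first pair does not pass, then a candidate of `sw g` passes (otherwise the first alternative holds), `lst_spec` and `pass_sw`.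
PROOF of `round`: as `Nsh.round_good` (`Pool/Agent/Lib/Nsh/Round.lean`): with `X`, `Y` of totals `≥ 1`, `x = rl (tot X) X`, `y = rl (tot Y) Y`, divide `pass` by `N * tot X * tot Y`
(`cast_rn`, `cast_cn`, `cast_pn` of `Nsh/Cast.lean`): `rv (rm N g.A) y i ≤ bil (rm N g.A) x y + H / N`; then `A ≤ rm N g.A + 1 / N` and `rm N g.A ≤ A`.
PROOF of `main`: `E = 2 ^ q`, `N = 2 ^ (2 * q + 4) = 16 * E ^ 2`, `A i j = w.2.getD (i * n + j) 0`, `B i j = w.2.getD (n * n + (i * n + j)) 0`; `Apx (gm (2 * q + 4) w) N A B` from `Nsh.tab_spec`; `k` from `conv`; `exists_cand` for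
`g` and `A`, `B`, or for `sw g` and `fun i j => B j i`, `fun i j => A j i`; `out_pass`, `round` with `128 E / N = 8 / E`, so `θ = 8 / E + 1 / N ≤ 9 / E`.
-/

set_option autoImplicit false

namespace Nvc

open Finset Nsh

namespace FinAux

theorem rn_sw (g : Gm) (Y : ℕ → ℕ) (r : ℕ) : rn g.n (sw g).A Y r = cn g.n g.B Y r := by
  unfold rn cn sw
  exact sum_congr rfl fun j _ => mul_comm _ _

theorem cn_sw (g : Gm) (X : ℕ → ℕ) (c : ℕ) : cn g.n (sw g).B X c = rn g.n g.A X c := by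
  unfold rn cn sw
  exact sum_congr rfl fun j _ => mul_comm _ _

theorem pn_swap (n : ℕ) (M : ℕ → ℕ → ℕ) (X Y : ℕ → ℕ) :
    pn n (fun i j => M j i) X Y = pn n M Y X := by
  unfold pn rn
  simp only [mul_sum]
  rw [sum_comm]
  refine sum_congr rfl fun j _ => sum_congr rfl fun i _ => ?_
  ring

theorem rv_le {n : ℕ} {R R' : ℕ → ℕ → ℝ} {y : ℕ → ℝ} {δ : ℝ} {i : ℕ}
    (hR : ∀ j < n, R' i j ≤ R i j + δ) (hy : Mix n y) : rv n R' y i ≤ rv n R y i + δ := by
  have h1 : rv n R' y i ≤ ∑ j ∈ range n, (R i j * y j + δ * y j) := by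
    refine sum_le_sum fun j hj => ?_
    have h2 := mul_le_mul_of_nonneg_right (hR j (mem_range.1 hj)) (hy.nn j (mem_range.1 hj))
    linarith
  rw [sum_add_distrib, ← mul_sum, hy.sum, mul_one] at h1
  exact h1

theorem cv_le {n : ℕ} {R R' : ℕ → ℕ → ℝ} {x : ℕ → ℝ} {δ : ℝ} {j : ℕ}
    (hR : ∀ i < n, R' i j ≤ R i j + δ) (hx : Mix n x) : cv n R' x j ≤ cv n R x j + δ := by
  have h1 : cv n R' x j ≤ ∑ i ∈ range n, (x i * R i j + δ * x i) := by
    refine sum_le_sum fun i hi => ?_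
    have h2 := mul_le_mul_of_nonneg_left (hR i (mem_range.1 hi)) (hx.nn i (mem_range.1 hi))
    linarith
  rw [sum_add_distrib, ← mul_sum, hx.sum, mul_one] at h1
  exact h1

theorem bil_mono {n : ℕ} {R R' : ℕ → ℕ → ℝ} {x y : ℕ → ℝ}
    (hR : ∀ i < n, ∀ j < n, R i j ≤ R' i j) (hx : Mix n x) (hy : Mix n y) :
    bil n R x y ≤ bil n R' x y := by
  refine sum_le_sum fun i hi => mul_le_mul_of_nonneg_left ?_ (hx.nn i (mem_range.1 hi))
  refine sum_le_sum fun j hj => mul_le_mul_of_nonneg_right ?_ (hy.nn j (mem_range.1 hj))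
  exact hR i (mem_range.1 hi) j (mem_range.1 hj)

theorem Good.mono {n : ℕ} {R C : ℕ → ℕ → ℝ} {θ θ' : ℝ} {x y : ℕ → ℝ} (h : Good n R C θ x y)
    (hθ : θ ≤ θ') : Good n R C θ' x y :=
  ⟨fun i hi => (h.1 i hi).trans (by linarith), fun j hj => (h.2 j hj).trans (by linarith)⟩

end FinAux

open FinAux

theorem pass_sw {g : Gm} {H : ℕ} {X Y : ℕ → ℕ} (h : pass (sw g) H X Y) : pass g H Y X := by
  obtain ⟨hX, hY, hr, hc⟩ := h
  change 1 ≤ tot g.n X at hX
  change 1 ≤ tot g.n Y at hY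
  change ∀ r ∈ range g.n, tot g.n X * rn g.n (sw g).A Y r ≤
    pn g.n (fun i j => g.B j i) X Y + H * (tot g.n X * tot g.n Y) at hr
  change ∀ c ∈ range g.n, tot g.n Y * cn g.n (sw g).B X c ≤
    pn g.n (fun i j => g.A j i) X Y + H * (tot g.n X * tot g.n Y) at hc
  refine ⟨hY, hX, fun r hr' => ?_, fun c hc' => ?_⟩
  · have h1 := hc r hr'
    rw [cn_sw, pn_swap, mul_comm (tot g.n X) (tot g.n Y)] at h1
    exact h1
  · have h1 := hr c hc'
    rw [rn_sw, pn_swap, mul_comm (tot g.n X) (tot g.n Y)] at h1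
    exact h1

theorem out_pass {g : Gm} {k E : ℕ}
    (h : (∃ m < NC g.n k (16 * E ^ 2), pass g (128 * E) (cX g k E m) (cY g k E m)) ∨
      ∃ m < NC g.n k (16 * E ^ 2), pass (sw g) (128 * E) (cX (sw g) k E m) (cY (sw g) k E m)) :
    pass g (128 * E) (out g k E).1 (out g k E).2 := by
  unfold out
  by_cases hq : pass g (128 * E) (cX g k E (fc g k E)) (cY g k E (fc g k E))
  · rw [if_pos hq]
    exact hq
  · rw [if_neg hq]
    rcases h with ⟨m, hm, hp⟩ | ⟨m, hm, hp⟩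
    · exact absurd (Pool.Agent.Lib.Wsm.lst_spec
        (P := fun m => pass g (128 * E) (cX g k E m) (cY g k E m)) ⟨m, hm, hp⟩).2.1 hq
    · exact pass_sw (Pool.Agent.Lib.Wsm.lst_spec
        (P := fun m => pass (sw g) (128 * E) (cX (sw g) k E m) (cY (sw g) k E m)) ⟨m, hm, hp⟩).2.1

theorem round {g : Gm} {N H : ℕ} (hN : 1 ≤ N) {A B : ℕ → ℕ → ℝ} (h : Apx g N A B) {X Y : ℕ → ℕ}
    (hp : pass g H X Y) : Good g.n A B (H / N + 1 / N) (rl (tot g.n X) X) (rl (tot g.n Y) Y) := by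
  obtain ⟨hX, hY, hrow, hcol⟩ := hp
  have mX : Mix g.n (rl (tot g.n X) X) := mix_rl hX rfl
  have mY : Mix g.n (rl (tot g.n Y) Y) := mix_rl hY rfl
  have hN0 : (0 : ℝ) < N := Nat.cast_pos.2 hN
  have hX0 : (0 : ℝ) < tot g.n X := Nat.cast_pos.2 hX
  have hY0 : (0 : ℝ) < tot g.n Y := Nat.cast_pos.2 hY
  refine ⟨fun i hi => ?_, fun j hj => ?_⟩
  · have a1 := rv_le (n := g.n) (R := rm N g.A) (R' := A) (i := i) (δ := 1 / N)
      (fun j hj => (h.hA i hi j hj).2.2) mY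
    have a3 := bil_mono (n := g.n) (R := rm N g.A) (R' := A)
      (fun i hi j hj => (h.hA i hi j hj).2.1) mX mY
    have a2 : rv g.n (rm N g.A) (rl (tot g.n Y) Y) i ≤
        bil g.n (rm N g.A) (rl (tot g.n X) X) (rl (tot g.n Y) Y) + H / N := by
      have h1 : ((tot g.n X * rn g.n g.A Y i : ℕ) : ℝ) ≤
          ((pn g.n g.A X Y + H * (tot g.n X * tot g.n Y) : ℕ) : ℝ) :=
        Nat.cast_le.2 (hrow i (mem_range.2 hi))
      push_cast at h1
      rw [cast_rn hN hY, cast_pn hN hX hY] at h1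
      have h2 : (N : ℝ) * tot g.n X * tot g.n Y * rv g.n (rm N g.A) (rl (tot g.n Y) Y) i ≤
          N * tot g.n X * tot g.n Y *
            (bil g.n (rm N g.A) (rl (tot g.n X) X) (rl (tot g.n Y) Y) + H / N) := by
        refine le_trans (le_of_eq ?_) (h1.trans (le_of_eq ?_))
        · ring
        · field_simp
      exact le_of_mul_le_mul_left h2 (by positivity)
    linarith
  · have a1 := cv_le (n := g.n) (R := rm N g.B) (R' := B) (j := j) (δ := 1 / N)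
      (fun i hi => (h.hB i hi j hj).2.2) mX
    have a3 := bil_mono (n := g.n) (R := rm N g.B) (R' := B)
      (fun i hi j hj => (h.hB i hi j hj).2.1) mX mY
    have a2 : cv g.n (rm N g.B) (rl (tot g.n X) X) j ≤
        bil g.n (rm N g.B) (rl (tot g.n X) X) (rl (tot g.n Y) Y) + H / N := by
      have h1 : ((tot g.n Y * cn g.n g.B X j : ℕ) : ℝ) ≤
          ((pn g.n g.B X Y + H * (tot g.n X * tot g.n Y) : ℕ) : ℝ) :=
        Nat.cast_le.2 (hcol j (mem_range.2 hj))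
      push_cast at h1
      rw [cast_cn hN hX, cast_pn hN hX hY] at h1
      have h2 : (N : ℝ) * tot g.n X * tot g.n Y * cv g.n (rm N g.B) (rl (tot g.n X) X) j ≤
          N * tot g.n X * tot g.n Y *
            (bil g.n (rm N g.B) (rl (tot g.n X) X) (rl (tot g.n Y) Y) + H / N) := by
        refine le_trans (le_of_eq ?_) (h1.trans (le_of_eq ?_))
        · ring
        · field_simp
      exact le_of_mul_le_mul_left h2 (by positivity)
    linarith

theorem main (q d : ℕ) : ∃ k : ℕ, 1 ≤ k ∧ ∀ w : ℕ × List ℚ, 1 ≤ w.1 →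
    (∀ i, 0 ≤ w.2.getD i 0) → (∀ i, w.2.getD i 0 ≤ 1) → ∀ α β : ℝ, 0 ≤ α → 0 ≤ β → α + β = 1 →
      FatDim (1 / (192 * (2 ^ q) ^ 2)) (fun i j : Fin w.1 =>
        α * ((w.2.getD (i * w.1 + j) 0 : ℚ) : ℝ) +
          β * ((w.2.getD (w.1 * w.1 + (i * w.1 + j)) 0 : ℚ) : ℝ)) d →
      1 ≤ tot w.1 (out (gm (2 * q + 4) w) k (2 ^ q)).1 ∧
      1 ≤ tot w.1 (out (gm (2 * q + 4) w) k (2 ^ q)).2 ∧
      Good w.1 (fun i j => ((w.2.getD (i * w.1 + j) 0 : ℚ) : ℝ))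
        (fun i j => ((w.2.getD (w.1 * w.1 + (i * w.1 + j)) 0 : ℚ) : ℝ)) (9 / 2 ^ q)
        (rl (tot w.1 (out (gm (2 * q + 4) w) k (2 ^ q)).1) (out (gm (2 * q + 4) w) k (2 ^ q)).1)
        (rl (tot w.1 (out (gm (2 * q + 4) w) k (2 ^ q)).2) (out (gm (2 * q + 4) w) k (2 ^ q)).2) := by
  have hE : 1 ≤ 2 ^ q := Nat.one_le_two_pow
  obtain ⟨k, hk, hconv⟩ := conv (2 ^ q) d hE
  refine ⟨k, hk, ?_⟩
  intro w hw h0 h1 α β hα hβ hαβ hfat
  have hNp : (2 : ℕ) ^ (2 * q + 4) = 16 * (2 ^ q) ^ 2 := by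
    rw [pow_add, pow_mul, ← pow_mul, mul_comm 2 q, pow_mul]
    ring
  obtain ⟨A, hA⟩ : ∃ A : ℕ → ℕ → ℝ, A = fun i j => ((w.2.getD (i * w.1 + j) 0 : ℚ) : ℝ) :=
    ⟨_, rfl⟩
  obtain ⟨B, hB⟩ : ∃ B : ℕ → ℕ → ℝ,
    B = fun i j => ((w.2.getD (w.1 * w.1 + (i * w.1 + j)) 0 : ℚ) : ℝ) := ⟨_, rfl⟩
  have hA01 : ∀ i j, 0 ≤ A i j ∧ A i j ≤ 1 := by
    intro i j
    rw [hA]
    exact ⟨Rat.cast_nonneg.2 (h0 _), by
      have := h1 (i * w.1 + j)
      change ((w.2.getD (i * w.1 + j) 0 : ℚ) : ℝ) ≤ 1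
      exact_mod_cast this⟩
  have hB01 : ∀ i j, 0 ≤ B i j ∧ B i j ≤ 1 := by
    intro i j
    rw [hB]
    exact ⟨Rat.cast_nonneg.2 (h0 _), by
      have := h1 (w.1 * w.1 + (i * w.1 + j))
      change ((w.2.getD (w.1 * w.1 + (i * w.1 + j)) 0 : ℚ) : ℝ) ≤ 1
      exact_mod_cast this⟩
  obtain ⟨g, hg⟩ : ∃ g, g = gm (2 * q + 4) w := ⟨_, rfl⟩
  have hgn : g.n = w.1 := by rw [hg]; rfl
  have hApx : Apx g (16 * (2 ^ q) ^ 2) A B := by
    rw [← hNp, hg]
    refine ⟨hw, fun i _ j _ => ?_, fun i _ j _ => ?_⟩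
    · have := tab_spec (2 * q + 4) w.2 (i * w.1 + j) (h0 _) (h1 _)
      rw [hA]
      refine ⟨this.1, ?_, ?_⟩
      · rw [Nat.cast_pow, Nat.cast_ofNat]
        exact this.2.1
      · rw [Nat.cast_pow, Nat.cast_ofNat]
        exact this.2.2
    · have := tab_spec (2 * q + 4) w.2 (w.1 * w.1 + (i * w.1 + j)) (h0 _) (h1 _)
      rw [hB]
      refine ⟨this.1, ?_, ?_⟩
      · rw [Nat.cast_pow, Nat.cast_ofNat]
        exact this.2.1
      · rw [Nat.cast_pow, Nat.cast_ofNat]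
        exact this.2.2
  have hApx' : Apx (sw g) (16 * (2 ^ q) ^ 2) (fun i j => B j i) (fun i j => A j i) :=
    ⟨hApx.hn, fun i hi j hj => hApx.hB j hj i hi, fun i hi j hj => hApx.hA j hj i hi⟩
  have hfat' : FatDim (1 / (192 * ((2 ^ q : ℕ) : ℝ) ^ 2))
      (fun i j : Fin w.1 => α * A i j + β * B i j) d := by
    have e : (((2 ^ q : ℕ) : ℝ)) = 2 ^ q := by push_cast; rfl
    rw [e, hA, hB]
    exact hfat
  obtain ⟨t, ht, ht1, hsm⟩ := hconv w.1 A B hA01 hB01 α β hα hβ hαβ hfat'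
  have hcand : (∃ m < NC g.n k (16 * (2 ^ q) ^ 2), pass g (128 * 2 ^ q) (cX g k (2 ^ q) m) (cY g k (2 ^ q) m)) ∨
      ∃ m < NC g.n k (16 * (2 ^ q) ^ 2), pass (sw g) (128 * 2 ^ q) (cX (sw g) k (2 ^ q) m)
        (cY (sw g) k (2 ^ q) m) := by
    rcases hsm with hs | hs
    · left
      exact exists_cand hE hk hApx ht ht1 (by rw [hgn]; exact hs)
    · right
      refine exists_cand (g := sw g) hE hk hApx' ht ht1 ?_
      change Smp g.n k _ _
      rw [hgn]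
      exact hs
  have hpass := out_pass hcand
  have hN1 : 1 ≤ 16 * (2 ^ q) ^ 2 := by
    have := Nat.one_le_pow 2 (2 ^ q) hE
    omega
  have hgood := round hN1 hApx hpass
  rw [← hg]
  rw [hgn] at hgood
  refine ⟨?_, ?_, ?_⟩
  · rw [← hgn]
    exact hpass.1
  · rw [← hgn]
    exact hpass.2.1
  · rw [← hA, ← hB]
    refine FinAux.Good.mono hgood ?_
    push_cast
    have hE0 : (1 : ℝ) ≤ 2 ^ q := one_le_pow₀ (by norm_num)
    have hE1 : (0 : ℝ) < 2 ^ q := by positivity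
    generalize (2 : ℝ) ^ q = E at *
    have e : 128 * E / (16 * E ^ 2) + 1 / (16 * E ^ 2) = (8 + 1 / (16 * E)) / E := by
      field_simp
      try ring
    rw [e]
    refine div_le_div_of_nonneg_right ?_ hE1.le
    have : 1 / (16 * E) ≤ 1 := by
      rw [div_le_one (by positivity)]
      linarith
    linarith

end Nvc
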