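import Pool.Agent.Lib.Nvc.NDefs

/-!
# Approximate solution of a system of linear inequalities (approachability)

MP_602ccf, project Nvc (owner helper29).
-/

set_option autoImplicit false

namespace Nvc

open Finset Nsh

namespace LpAux

theorem argm_spec {n : ℕ} (hn : 1 ≤ n) (F G : ℕ → ℕ) :
    argm n F G < n ∧ ∀ k' < n, F (argm n F G) + G k' ≤ F k' + G (argm n F G) := by
  have hex : ∃ z < n, ∀ k' ∈ range n, F z + G k' ≤ F k' + G z := by
    obtain ⟨z, hz, hmin⟩ := Finset.exists_min_image (range n) (fun k => (F k : ℤ) - G k)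
      ⟨0, mem_range.2 (by omega)⟩
    refine ⟨z, mem_range.1 hz, fun k' hk' => ?_⟩
    have h1 := hmin k' hk'
    omega
  have h := Pool.Agent.Lib.Wsm.lst_spec hex
  exact ⟨h.1, fun k' hk' => h.2.1 k' (mem_range.2 hk')⟩

theorem lp_succ {R n : ℕ} (P Q : ℕ → ℕ → ℕ) (T : ℕ) :
    lp R n P Q (T + 1) = lstp R n P Q (lp R n P Q T) := by
  unfold lp
  rw [Function.iterate_succ_apply']

theorem sum_ite {n i : ℕ} (hi : i < n) (f : ℕ → ℕ) :
    ∑ j ∈ range n, f j * (if j = i then 1 else 0) = f i := by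
  rw [Finset.sum_eq_single i]
  · simp
  · intro j _ hj
    simp [hj]
  · intro h
    exact absurd (mem_range.2 hi) h

theorem rn_lstp {R n : ℕ} (hn : 1 ≤ n) (P Q M : ℕ → ℕ → ℕ) (c : ℕ → ℕ) (r : ℕ) :
    rn n M (lstp R n P Q c) r = rn n M c r + M r (ix R n P Q c) := by
  have hi : ix R n P Q c < n := (argm_spec hn _ _).1
  unfold rn lstp
  simp only [mul_add]
  rw [sum_add_distrib, sum_ite hi]

/-- real excess -/
noncomputable def qr (n : ℕ) (P Q : ℕ → ℕ → ℕ) (c : ℕ → ℕ) (r : ℕ) : ℝ := (qq n P Q c r : ℝ)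

theorem qr_eq (n : ℕ) (P Q : ℕ → ℕ → ℕ) (c : ℕ → ℕ) (r : ℕ) :
    qr n P Q c r = max ((rn n Q c r : ℝ) - rn n P c r) 0 := by
  unfold qr qq
  rcases le_total (rn n P c r) (rn n Q c r) with h | h
  · rw [Nat.cast_sub h, max_eq_left]
    have : (rn n P c r : ℝ) ≤ rn n Q c r := by exact_mod_cast h
    linarith
  · rw [Nat.sub_eq_zero_of_le h, max_eq_right]
    · simp
    · have : (rn n Q c r : ℝ) ≤ rn n P c r := by exact_mod_cast h
      linarith

theorem dot_nonpos {R n : ℕ} (hn : 1 ≤ n) {P Q : ℕ → ℕ → ℕ} {y : ℕ → ℝ} (hy : Mix n y)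
    (hf : ∀ r < R, ∑ l ∈ range n, (Q r l : ℝ) * y l ≤ ∑ l ∈ range n, (P r l : ℝ) * y l)
    (c : ℕ → ℕ) :
    ∑ r ∈ range R, qr n P Q c r * ((Q r (ix R n P Q c) : ℝ) - P r (ix R n P Q c)) ≤ 0 := by
  set i := ix R n P Q c with hi
  set D : ℕ → ℝ := fun l => ∑ r ∈ range R, qr n P Q c r * ((Q r l : ℝ) - P r l) with hD
  have hs := argm_spec hn (fun l => ∑ r ∈ range R, qq n P Q c r * Q r l)
    (fun l => ∑ r ∈ range R, qq n P Q c r * P r l)
  have h1 : ∀ l < n, D i ≤ D l := by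
    intro l hl
    have h2 := hs.2 l hl
    have h3 : ((∑ r ∈ range R, qq n P Q c r * Q r i : ℕ) : ℝ) +
        ((∑ r ∈ range R, qq n P Q c r * P r l : ℕ) : ℝ) ≤
        ((∑ r ∈ range R, qq n P Q c r * Q r l : ℕ) : ℝ) +
        ((∑ r ∈ range R, qq n P Q c r * P r i : ℕ) : ℝ) := by
      exact_mod_cast h2
    have h4 : ∀ m, D m = ((∑ r ∈ range R, qq n P Q c r * Q r m : ℕ) : ℝ) -
        ((∑ r ∈ range R, qq n P Q c r * P r m : ℕ) : ℝ) := by
      intro m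
      push_cast
      rw [← sum_sub_distrib]
      exact sum_congr rfl fun r _ => by unfold qr; ring
    rw [h4 i, h4 l]
    linarith
  have h5 : D i = ∑ l ∈ range n, y l * D i := by
    rw [← sum_mul, hy.2, one_mul]
  have h6 : ∑ l ∈ range n, y l * D i ≤ ∑ l ∈ range n, y l * D l :=
    sum_le_sum fun l hl => mul_le_mul_of_nonneg_left (h1 l (mem_range.1 hl))
      (hy.1 l (mem_range.1 hl))
  have h7 : ∑ l ∈ range n, y l * D l = ∑ r ∈ range R, qr n P Q c r *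
      (∑ l ∈ range n, (Q r l : ℝ) * y l - ∑ l ∈ range n, (P r l : ℝ) * y l) := by
    simp only [hD, mul_sum]
    rw [sum_comm]
    refine sum_congr rfl fun r _ => ?_
    rw [← sum_sub_distrib, mul_sum]
    exact sum_congr rfl fun l _ => by ring
  have h8 : ∑ r ∈ range R, qr n P Q c r *
      (∑ l ∈ range n, (Q r l : ℝ) * y l - ∑ l ∈ range n, (P r l : ℝ) * y l) ≤ 0 := by
    refine sum_nonpos fun r hr => ?_
    have h9 := hf r (mem_range.1 hr)
    have h10 : 0 ≤ qr n P Q c r := Nat.cast_nonneg _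
    nlinarith
  linarith

theorem step {R n W : ℕ} (hn : 1 ≤ n) {P Q : ℕ → ℕ → ℕ}
    (hW : ∀ r < R, ∀ l < n, P r l ≤ Q r l + W ∧ Q r l ≤ P r l + W)
    {y : ℕ → ℝ} (hy : Mix n y)
    (hf : ∀ r < R, ∑ l ∈ range n, (Q r l : ℝ) * y l ≤ ∑ l ∈ range n, (P r l : ℝ) * y l)
    (c : ℕ → ℕ) :
    ∑ r ∈ range R, qr n P Q (lstp R n P Q c) r ^ 2 ≤
      ∑ r ∈ range R, qr n P Q c r ^ 2 + R * W ^ 2 := by
  set i := ix R n P Q c with hi
  have hin : i < n := (argm_spec hn _ _).1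
  have h1 : ∀ r ∈ range R, qr n P Q (lstp R n P Q c) r ^ 2 ≤ qr n P Q c r ^ 2 +
      2 * (qr n P Q c r * ((Q r i : ℝ) - P r i)) + W ^ 2 := by
    intro r hr
    have h2 := hW r (mem_range.1 hr) i hin
    have h3 : (P r i : ℝ) ≤ Q r i + W := by exact_mod_cast h2.1
    have h4 : (Q r i : ℝ) ≤ P r i + W := by exact_mod_cast h2.2
    have h5 : ((Q r i : ℝ) - P r i) ^ 2 ≤ W ^ 2 := by
      apply sq_le_sq'
      · linarith
      · linarith
    have e1 := qr_eq n P Q (lstp R n P Q c) r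
    have e2 := qr_eq n P Q c r
    rw [rn_lstp hn, rn_lstp hn] at e1
    push_cast at e1
    set z : ℝ := (rn n Q c r : ℝ) - rn n P c r with hz
    set a : ℝ := (Q r i : ℝ) - P r i with ha
    have e3 : (rn n Q c r : ℝ) + (Q r (ix R n P Q c) : ℝ) - ((rn n P c r : ℝ) +
        (P r (ix R n P Q c) : ℝ)) = z + a := by
      rw [hz, ha, hi]; ring
    rw [e3] at e1
    rw [e1]
    have h6 : z ≤ qr n P Q c r := by rw [e2]; exact le_max_left _ _
    have h7 : 0 ≤ qr n P Q c r := by rw [e2]; exact le_max_right _ _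
    rcases le_total 0 (z + a) with h | h
    · rw [max_eq_left h]
      nlinarith
    · rw [max_eq_right h]
      nlinarith [sq_nonneg (qr n P Q c r + a)]
  have h2 := dot_nonpos hn hy hf c
  calc ∑ r ∈ range R, qr n P Q (lstp R n P Q c) r ^ 2
      ≤ ∑ r ∈ range R, (qr n P Q c r ^ 2 + 2 * (qr n P Q c r * ((Q r i : ℝ) - P r i)) + W ^ 2) :=
        sum_le_sum h1
    _ = ∑ r ∈ range R, qr n P Q c r ^ 2 +
          2 * ∑ r ∈ range R, qr n P Q c r * ((Q r i : ℝ) - P r i) + R * W ^ 2 := by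
        rw [sum_add_distrib, sum_add_distrib, ← mul_sum, sum_const, card_range, nsmul_eq_mul]
    _ ≤ _ := by linarith

theorem total {R n W : ℕ} (hn : 1 ≤ n) {P Q : ℕ → ℕ → ℕ}
    (hW : ∀ r < R, ∀ l < n, P r l ≤ Q r l + W ∧ Q r l ≤ P r l + W)
    {y : ℕ → ℝ} (hy : Mix n y)
    (hf : ∀ r < R, ∑ l ∈ range n, (Q r l : ℝ) * y l ≤ ∑ l ∈ range n, (P r l : ℝ) * y l)
    (T : ℕ) :
    ∑ r ∈ range R, qr n P Q (lp R n P Q T) r ^ 2 ≤ T * (R * W ^ 2) := by
  induction T with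
  | zero =>
    have h : ∀ r, qr n P Q (lp R n P Q 0) r = 0 := by
      intro r
      unfold qr qq lp rn
      simp
    simp [h]
  | succ T ih =>
    rw [lp_succ]
    refine (step hn hW hy hf _).trans ?_
    push_cast
    linarith

end LpAux

open LpAux

theorem ix_lt {R n : ℕ} (hn : 1 ≤ n) (P Q : ℕ → ℕ → ℕ) (c : ℕ → ℕ) : ix R n P Q c < n :=
  (argm_spec hn _ _).1

theorem tot_lp {R n : ℕ} (hn : 1 ≤ n) (P Q : ℕ → ℕ → ℕ) (T : ℕ) : tot n (lp R n P Q T) = T := by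
  induction T with
  | zero => simp [tot, lp]
  | succ T ih =>
    rw [lp_succ]
    unfold tot at ih ⊢
    unfold lstp
    rw [sum_add_distrib, ih]
    have h := sum_ite (ix_lt (R := R) hn P Q (lp R n P Q T)) (fun _ => 1)
    simp only [one_mul] at h
    rw [h]

theorem lp_spec {R n W : ℕ} (hn : 1 ≤ n) {P Q : ℕ → ℕ → ℕ}
    (hW : ∀ r < R, ∀ l < n, P r l ≤ Q r l + W ∧ Q r l ≤ P r l + W)
    {y : ℕ → ℝ} (hy : Mix n y)
    (hf : ∀ r < R, ∑ l ∈ range n, (Q r l : ℝ) * y l ≤ ∑ l ∈ range n, (P r l : ℝ) * y l) :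
    ∀ r < R, rn n Q (lp R n P Q (R * W ^ 2)) r ≤ rn n P (lp R n P Q (R * W ^ 2)) r + R * W ^ 2 := by
  intro r hr
  have h1 := total hn hW hy hf (R * W ^ 2)
  have h2 : qr n P Q (lp R n P Q (R * W ^ 2)) r ^ 2 ≤
      ∑ r ∈ range R, qr n P Q (lp R n P Q (R * W ^ 2)) r ^ 2 :=
    single_le_sum (f := fun r => qr n P Q (lp R n P Q (R * W ^ 2)) r ^ 2)
      (fun _ _ => sq_nonneg _) (mem_range.2 hr)
  have h3 : qr n P Q (lp R n P Q (R * W ^ 2)) r ^ 2 ≤ ((R : ℝ) * W ^ 2) ^ 2 := by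
    refine (h2.trans h1).trans (le_of_eq ?_)
    push_cast
    ring
  have h4 : qr n P Q (lp R n P Q (R * W ^ 2)) r ≤ (R : ℝ) * W ^ 2 :=
    (sq_le_sq₀ (Nat.cast_nonneg _) (by positivity)).1 h3
  have h5 : qq n P Q (lp R n P Q (R * W ^ 2)) r ≤ R * W ^ 2 := by
    unfold qr at h4
    exact_mod_cast h4
  unfold qq at h5
  omega

end Nvc
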