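import Pool.Agent.Lib.Nvc.Defs

/-!
# The algorithm, with natural numbers

MP_602ccf, project Nvc (owner helper29). A game `g : Nsh.Gm` has payoff matrices of natural numbers at most `N = 16 * E ^ 2`
(payoffs multiplied by `N`); `k` is the size of the sample. All systems have `2 n` rows and `n` unknowns.
-/

set_option autoImplicit false

namespace Nvc

open Finset Nsh

/-! ### Systems of linear inequalities -/

section lp

variable (R n : ℕ) (P Q : ℕ → ℕ → ℕ)

/-- excess of the row `r` of the system `∑ l, Q r l * c l ≤ ∑ l, P r l * c l` -/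
def qq (c : ℕ → ℕ) (r : ℕ) : ℕ := rn n Q c r - rn n P c r

/-- the index added to the counters `c` -/
noncomputable def ix (c : ℕ → ℕ) : ℕ :=
  argm n (fun l => ∑ r ∈ range R, qq n P Q c r * Q r l)
    (fun l => ∑ r ∈ range R, qq n P Q c r * P r l)

/-- one step -/
noncomputable def lstp (c : ℕ → ℕ) : ℕ → ℕ := fun l => c l + if l = ix R n P Q c then 1 else 0

/-- `T` steps -/
noncomputable def lp (T : ℕ) : ℕ → ℕ := (lstp R n P Q)^[T] (fun _ => 0)

end lp

/-! ### Samples -/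

/-- the element number `t` of the sample number `s` -/
def jt (n s t : ℕ) : ℕ := s / n ^ t % n

/-- sum of the entries of the row `i` over the sample -/
def sm (n k s : ℕ) (M : ℕ → ℕ → ℕ) (i : ℕ) : ℕ := ∑ t ∈ range k, M i (jt n s t)

/-- the sample as weights -/
def ys (n k s : ℕ) : ℕ → ℕ := fun l => ∑ t ∈ range k, if jt n s t = l then 1 else 0

/-- `N A + a B` -/
def mc (N a : ℕ) (g : Gm) : ℕ → ℕ → ℕ := fun i j => N * g.A i j + a * g.B i j

/-! ### The three systems -/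

/-- system for `y`: `A y ≤ u`, and `C y` not much smaller than at the sample -/
def yP (g : Gm) (k N a u : ℕ) : ℕ → ℕ → ℕ := fun r l =>
  if r < g.n then u else k * mc N a g (r - g.n) l + 16 * k * N

def yQ (g : Gm) (k N a s : ℕ) : ℕ → ℕ → ℕ := fun r l =>
  if r < g.n then g.A r l else sm g.n k s (mc N a g) (r - g.n)

/-- first system for `x`: `x B ≤ v`, and the payoff `x C` against the sample is large -/
def xP (g : Gm) (k N a v s : ℕ) : ℕ → ℕ → ℕ := fun r l =>
  if r < g.n then v else sm g.n k s (mc N a g) l + 18 * k * N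

def xQ (g : Gm) (k N a u v : ℕ) : ℕ → ℕ → ℕ := fun r l =>
  if r < g.n then g.B l r else k * (N * u + a * v)

/-- second system for `x`: `x` is a good answer to the sample, and the sample is an answer to `x` -/
def zP (g : Gm) (k E s : ℕ) : ℕ → ℕ → ℕ := fun r l =>
  if r < g.n then sm g.n k s g.A l + (32 * k * E + 32 * k) else sm g.n k s g.B l

def zQ (g : Gm) (k s : ℕ) : ℕ → ℕ → ℕ := fun r l =>
  if r < g.n then sm g.n k s g.A r else k * g.B l (r - g.n)

/-- number of steps -/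
def TT (n k N : ℕ) : ℕ := 2 * n * (8 * k * N ^ 2) ^ 2

/-! ### The candidates -/

/-- the components of the number `m` of a candidate: type, weight `a`, values `u`, `v`, sample -/
def dT (m : ℕ) : ℕ := m % 2
def dA (N m : ℕ) : ℕ := m / 2 % (N + 1)
def dU (N m : ℕ) : ℕ := m / 2 / (N + 1) % (N + 1)
def dV (N m : ℕ) : ℕ := m / 2 / (N + 1) / (N + 1) % (N + 1)
def dS (N m : ℕ) : ℕ := m / 2 / (N + 1) / (N + 1) / (N + 1)

/-- number of candidates -/
def NC (n k N : ℕ) : ℕ := 2 * ((N + 1) * ((N + 1) * ((N + 1) * n ^ k)))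

/-- rows of the candidate number `m` -/
noncomputable def cX (g : Gm) (k E m : ℕ) : ℕ → ℕ :=
  if dT m = 0 then
    lp (2 * g.n) g.n
      (xP g k (16 * E ^ 2) (dA (16 * E ^ 2) m) (dV (16 * E ^ 2) m) (dS (16 * E ^ 2) m))
      (xQ g k (16 * E ^ 2) (dA (16 * E ^ 2) m) (dU (16 * E ^ 2) m) (dV (16 * E ^ 2) m))
      (TT g.n k (16 * E ^ 2))
  else
    lp (2 * g.n) g.n (zP g k E (dS (16 * E ^ 2) m)) (zQ g k (dS (16 * E ^ 2) m))
      (TT g.n k (16 * E ^ 2))

/-- columns of the candidate number `m` -/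
noncomputable def cY (g : Gm) (k E m : ℕ) : ℕ → ℕ :=
  if dT m = 0 then
    lp (2 * g.n) g.n (yP g k (16 * E ^ 2) (dA (16 * E ^ 2) m) (dU (16 * E ^ 2) m))
      (yQ g k (16 * E ^ 2) (dA (16 * E ^ 2) m) (dS (16 * E ^ 2) m))
      (TT g.n k (16 * E ^ 2))
  else ys g.n k (dS (16 * E ^ 2) m)

/-- the test: both regrets are at most `H` (payoffs multiplied by `N`) -/
def pass (g : Gm) (H : ℕ) (X Y : ℕ → ℕ) : Prop :=
  1 ≤ tot g.n X ∧ 1 ≤ tot g.n Y ∧
  (∀ r ∈ range g.n, tot g.n X * rn g.n g.A Y r ≤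
    pn g.n g.A X Y + H * (tot g.n X * tot g.n Y)) ∧
  (∀ c ∈ range g.n, tot g.n Y * cn g.n g.B X c ≤
    pn g.n g.B X Y + H * (tot g.n X * tot g.n Y))

/-- the first candidate that passes the test -/
noncomputable def fc (g : Gm) (k E : ℕ) : ℕ :=
  Pool.Agent.Lib.Wsm.lst (NC g.n k (16 * E ^ 2)) (fun m => pass g (128 * E) (cX g k E m) (cY g k E m))

/-- the players exchanged -/
def sw (g : Gm) : Gm := ⟨g.n, fun i j => g.B j i, fun i j => g.A j i⟩

open Classical in
/-- the result -/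
noncomputable def out (g : Gm) (k E : ℕ) : (ℕ → ℕ) × (ℕ → ℕ) :=
  if pass g (128 * E) (cX g k E (fc g k E)) (cY g k E (fc g k E)) then
    (cX g k E (fc g k E), cY g k E (fc g k E))
  else (cY (sw g) k E (fc (sw g) k E), cX (sw g) k E (fc (sw g) k E))

/-- the algorithm; `E = 2 ^ q`, `N = 2 ^ (2 * q + 4)` -/
noncomputable def sol (q k : ℕ) (w : ℕ × List ℚ) : List (ℕ × ℕ) × List (ℕ × ℕ) :=
  ((List.range w.1).map fun i => ((out (gm (2 * q + 4) w) k (2 ^ q)).1 i,
      tot w.1 (out (gm (2 * q + 4) w) k (2 ^ q)).1),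
   (List.range w.1).map fun i => ((out (gm (2 * q + 4) w) k (2 ^ q)).2 i,
      tot w.1 (out (gm (2 * q + 4) w) k (2 ^ q)).2))

/-- the game `g` approximates the matrices `A`, `B` -/
structure Apx (g : Gm) (N : ℕ) (A B : ℕ → ℕ → ℝ) : Prop where
  hn : 1 ≤ g.n
  hA : ∀ i < g.n, ∀ j < g.n, g.A i j ≤ N ∧ (g.A i j : ℝ) / N ≤ A i j ∧
    A i j ≤ (g.A i j : ℝ) / N + 1 / N
  hB : ∀ i < g.n, ∀ j < g.n, g.B i j ≤ N ∧ (g.B i j : ℝ) / N ≤ B i j ∧
    B i j ≤ (g.B i j : ℝ) / N + 1 / N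

/-- `(x, y)` is an equilibrium with the values `u`, `v` -/
structure Eqm (n : ℕ) (A B : ℕ → ℕ → ℝ) (x y : ℕ → ℝ) (u v : ℝ) : Prop where
  hx : Mix n x
  hy : Mix n y
  hu : ∀ i < n, rv n A y i ≤ u
  hu' : ∀ i < n, 0 < x i → rv n A y i = u
  hv : ∀ j < n, cv n B x j ≤ v
  hv' : ∀ j < n, 0 < y j → cv n B x j = v

end Nvc
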