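import Mathlib

/-!
# The size of the sample

MP_602ccf, project Nvc (owner helper29).

PROOF. Fix `b` with `1 / g < b`. For `k ≥ 1` let `r = Nat.log 2 ((2 * k * b + 1) ^ d) + 1`, so `(2 * k * b + 1) ^ d < 2 ^ r` (`Nat.lt_pow_succ_log_self`) and
`r ≤ d * logb 2 (2 * k * b + 1) + 1`. Then `log (8 * (4 * k * b ^ 2) ^ r) = log 8 + r * log (4 * k * b ^ 2) ≤ c * (log k + c) ^ 2` for a constant `c`, which is `≤ 8 * k * g ^ 2` for all large `k`
(`Real.isLittleO_pow_log_id_atTop`, or the elementary `log x ≤ 4 * x ^ (1/4)`).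
-/

set_option autoImplicit false

namespace Nvc

theorem exists_size (d : ℕ) {g : ℝ} (hg : 0 < g) : ∃ k b r : ℕ, 1 ≤ k ∧ 1 / g < b ∧
    2 ≤ k * (8 * g) ^ 2 ∧ (2 * k * b + 1) ^ d < 2 ^ r ∧
    8 * (4 * k * b ^ 2 : ℝ) ^ r * Real.exp (-(8 * k * g ^ 2)) ≤ 1 := by
  obtain ⟨s, hs⟩ := pow_unbounded_of_one_lt (1 / g) (one_lt_two : (1 : ℝ) < 2)
  set C : ℕ := 3 + (2 * s + 3) * ((s + 3) * d + 1) with hC
  have hg2 : 0 < g ^ 2 := by positivity
  have t1 : Filter.Tendsto (fun m : ℕ => (C : ℝ) * ((m : ℝ) ^ 2 / (2 : ℝ) ^ m)) Filter.atTop (nhds 0) := by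
    have := (tendsto_pow_const_div_const_pow_of_one_lt 2 (one_lt_two : (1 : ℝ) < 2)).const_mul (C : ℝ)
    simpa using this
  have e1 : ∀ᶠ m : ℕ in Filter.atTop, (C : ℝ) * ((m : ℝ) ^ 2 / (2 : ℝ) ^ m) < 8 * g ^ 2 :=
    t1.eventually_lt_const (by positivity)
  have e2 : ∀ᶠ m : ℕ in Filter.atTop, 2 / (8 * g) ^ 2 ≤ (2 : ℝ) ^ m :=
    (tendsto_pow_atTop_atTop_of_one_lt (one_lt_two : (1 : ℝ) < 2)).eventually_ge_atTop _
  obtain ⟨m, h1, h2, hm⟩ := (e1.and (e2.and (Filter.eventually_ge_atTop 1))).exists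
  refine ⟨2 ^ m, 2 ^ s, (m + s + 2) * d + 1, Nat.one_le_two_pow, by push_cast; exact hs, ?_, ?_, ?_⟩
  · push_cast
    rw [div_le_iff₀ (by positivity)] at h2
    exact h2
  · have : 2 * 2 ^ m * 2 ^ s + 1 ≤ 2 ^ (m + s + 2) := by
      have e : 2 ^ (m + s + 2) = 2 * (2 * 2 ^ m * 2 ^ s) := by ring
      have : 1 ≤ 2 * 2 ^ m * 2 ^ s := by
        have a := Nat.one_le_two_pow (n := m)
        have b := Nat.one_le_two_pow (n := s)
        nlinarith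
      omega
    calc (2 * 2 ^ m * 2 ^ s + 1) ^ d ≤ (2 ^ (m + s + 2)) ^ d := Nat.pow_le_pow_left this d
      _ = 2 ^ ((m + s + 2) * d) := by rw [pow_mul]
      _ < 2 ^ ((m + s + 2) * d + 1) := Nat.pow_lt_pow_right (by norm_num) (by omega)
  · push_cast
    set N : ℕ := 3 + (m + 2 * s + 2) * ((m + s + 2) * d + 1) with hN
    have e : (8 : ℝ) * (4 * 2 ^ m * (2 ^ s) ^ 2) ^ ((m + s + 2) * d + 1) = 2 ^ N := by
      have : (4 * 2 ^ m * (2 ^ s) ^ 2 : ℝ) = 2 ^ (m + 2 * s + 2) := by ring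
      rw [this, ← pow_mul, hN, pow_add]
      norm_num
    rw [e]
    have b1 : N ≤ C * m ^ 2 := by
      have x1 : m + 2 * s + 2 ≤ (2 * s + 3) * m := by nlinarith
      have x2 : (m + s + 2) * d + 1 ≤ ((s + 3) * d + 1) * m := by
        have : m + s + 2 ≤ (s + 3) * m := by nlinarith
        have := Nat.mul_le_mul_right d this
        nlinarith
      have x3 := Nat.mul_le_mul x1 x2
      have x4 : 1 ≤ m ^ 2 := Nat.one_le_pow _ _ hm
      have x5 : C * m ^ 2 = 3 * m ^ 2 + (2 * s + 3) * m * (((s + 3) * d + 1) * m) := by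
        rw [hC]; ring
      rw [x5]
      omega
    have b2 : (N : ℝ) ≤ 8 * 2 ^ m * g ^ 2 := by
      have y1 : (N : ℝ) ≤ (C : ℝ) * (m : ℝ) ^ 2 := by exact_mod_cast b1
      have y2 : (C : ℝ) * (m : ℝ) ^ 2 ≤ 8 * g ^ 2 * 2 ^ m := by
        rw [← mul_div_assoc, div_lt_iff₀ (by positivity)] at h1
        exact h1.le
      linarith
    have b3 : (2 : ℝ) ^ N ≤ Real.exp N := by
      have := Real.add_one_le_exp (1 : ℝ)
      have z : (2 : ℝ) ≤ Real.exp 1 := by linarith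
      calc (2 : ℝ) ^ N ≤ (Real.exp 1) ^ N := pow_le_pow_left₀ (by norm_num) z N
        _ = Real.exp N := by rw [← Real.exp_nat_mul, mul_one]
    have b4 : (2 : ℝ) ^ N ≤ Real.exp (8 * 2 ^ m * g ^ 2) := b3.trans (Real.exp_le_exp.mpr b2)
    rw [Real.exp_neg, ← div_eq_mul_inv, div_le_one (Real.exp_pos _)]
    exact b4

end Nvc
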