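import Pool.Agent.Lib.Nvc.PSys

/-!
# Poly side: candidates, test and result in polynomial time

MP_602ccf, project Nvc (owner helper29). Model: `Nsh/PCand.lean`, `Nsh/POut.lean`. `k`, `E`, `H` are constants.

PROOF. The components of `m`: `P2ba8ab.nDiv'`, `nMod'`. `TT`, `NC`: products (`n ^ k` by induction on `k`). `v_cX`, `v_cY`: `cX`, `cY` are `if dT m = 0 ..` of functions: show the entry `(if .. then f else g) i = if .. then f i else g i`
(`ite_apply`) and use `PV.mk`, `n_ite`, `PV.entry` of `v_lp` (with the systems of `PSys`) and `v_ys`. `p_pass`: as `Nsh.p_pass`. `p_fc`: `Wsm.poly_lst`. `pg_sw`: `PM.mk` with `PM.get`. `v_out`: as `Nsh.v_out`, `n_ite` on `p_pass`.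
-/

set_option autoImplicit false

namespace Nvc

open Finset Nsh Pool.Agent.Lib.PolyTime Pool.Agent.Lib.Pa7c826 Pool.Agent.Lib.P8e91ed.PT
open Pool.Agent.Lib.Pa7c826t Pool.Agent.Lib

variable {α : Type} {D : α → Prop} {ctx : List (α → List Bool)}

namespace PCandAux

theorem p_dT {m : α → ℕ} (hm : PolyN D ctx m) : PolyN D ctx (fun a => dT (m a)) :=
  P2ba8ab.nMod' hm (PolyN.const 2)

theorem p_h2 {m : α → ℕ} (hm : PolyN D ctx m) : PolyN D ctx (fun a => m a / 2) :=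
  P2ba8ab.nDiv' hm (PolyN.const 2)

theorem p_dA (N : ℕ) {m : α → ℕ} (hm : PolyN D ctx m) : PolyN D ctx (fun a => dA N (m a)) :=
  P2ba8ab.nMod' (p_h2 hm) (PolyN.const (N + 1))

theorem p_dU (N : ℕ) {m : α → ℕ} (hm : PolyN D ctx m) : PolyN D ctx (fun a => dU N (m a)) :=
  P2ba8ab.nMod' (P2ba8ab.nDiv' (p_h2 hm) (PolyN.const (N + 1))) (PolyN.const (N + 1))

theorem p_dV (N : ℕ) {m : α → ℕ} (hm : PolyN D ctx m) : PolyN D ctx (fun a => dV N (m a)) :=
  P2ba8ab.nMod' (P2ba8ab.nDiv' (P2ba8ab.nDiv' (p_h2 hm) (PolyN.const (N + 1)))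
    (PolyN.const (N + 1))) (PolyN.const (N + 1))

theorem p_dS (N : ℕ) {m : α → ℕ} (hm : PolyN D ctx m) : PolyN D ctx (fun a => dS N (m a)) :=
  P2ba8ab.nDiv' (P2ba8ab.nDiv' (P2ba8ab.nDiv' (p_h2 hm) (PolyN.const (N + 1)))
    (PolyN.const (N + 1))) (PolyN.const (N + 1))

theorem p_TT (k N : ℕ) {n : α → ℕ} (hn : PolyN D ctx n) : PolyN D ctx (fun a => TT (n a) k N) :=
  ((PolyN.const 2).mul hn).mul (PolyN.const ((8 * k * N ^ 2) ^ 2))

theorem p_pow (k : ℕ) {n : α → ℕ} (hn : PolyN D ctx n) : PolyN D ctx (fun a => n a ^ k) := by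
  induction k with
  | zero => exact (PolyN.const 1).congr (fun a _ => (pow_zero (n a)).symm)
  | succ k ih => exact (ih.mul hn).congr (fun a _ => (pow_succ (n a) k).symm)

theorem p_NC (k N : ℕ) {n : α → ℕ} (hn : PolyN D ctx n) : PolyN D ctx (fun a => NC (n a) k N) :=
  (PolyN.const 2).mul ((PolyN.const (N + 1)).mul ((PolyN.const (N + 1)).mul
    ((PolyN.const (N + 1)).mul (p_pow k hn))))

theorem n_ite' {β : Type*} {D : β → Prop} {ctx : List (β → List Bool)} {P : β → Prop}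
    {_ : ∀ a, Decidable (P a)} {f g : β → ℕ} (hP : PolyP D ctx P)
    (hf : PolyN D ctx f) (hg : PolyN D ctx g) : PolyN D ctx (fun a => if P a then f a else g a) :=
  n_ite hP (PolyC.mono hf fun _ h => h.1) (PolyC.mono hg fun _ h => h.1)

theorem v_ite {P : α → Prop} {_ : ∀ a, Decidable (P a)} {n : α → ℕ} {f g : α → ℕ → ℕ}
    (hn : PolyN D ctx n) (hP : PolyP D ctx P) (hf : PV D ctx n f) (hg : PV D ctx n g) :
    PV D ctx n (fun a => if P a then f a else g a) := by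
  have h : PV D ctx n (fun a i => if P a then f a i else g a i) :=
    PV.mk hn (n_ite' hP.up (hf.entry (fun _ _ => le_rfl)) (hg.entry (fun _ _ => le_rfl)))
  refine h.congr (fun a _ i _ => ?_)
  split_ifs <;> rfl

end PCandAux

open PCandAux

theorem v_cX {g : α → Gm} (hg : PG D ctx g) (k E : ℕ) {m : α → ℕ} (hm : PolyN D ctx m) :
    PV D ctx (fun a => (g a).n) (fun a => cX (g a) k E (m a)) := by
  unfold cX
  refine v_ite hg.n (PolyP.eq (p_dT hm) (PolyN.const 0)) ?_ ?_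
  · exact v_lp hg.n (m_xP hg k (16 * E ^ 2) (p_dA _ hm) (p_dV _ hm) (p_dS _ hm))
      (m_xQ hg k (16 * E ^ 2) (p_dA _ hm) (p_dU _ hm) (p_dV _ hm)) (p_TT k (16 * E ^ 2) hg.n)
  · exact v_lp hg.n (m_zP hg k E (p_dS _ hm)) (m_zQ hg k (p_dS _ hm)) (p_TT k (16 * E ^ 2) hg.n)

theorem v_cY {g : α → Gm} (hg : PG D ctx g) (k E : ℕ) {m : α → ℕ} (hm : PolyN D ctx m) :
    PV D ctx (fun a => (g a).n) (fun a => cY (g a) k E (m a)) := by
  unfold cY
  refine v_ite hg.n (PolyP.eq (p_dT hm) (PolyN.const 0)) ?_ ?_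
  · exact v_lp hg.n (m_yP hg k (16 * E ^ 2) (p_dA _ hm) (p_dU _ hm))
      (m_yQ hg k (16 * E ^ 2) (p_dA _ hm) (p_dS _ hm)) (p_TT k (16 * E ^ 2) hg.n)
  · exact v_ys hg.n (p_dS _ hm) k

theorem p_pass {g : α → Gm} (hg : PG D ctx g) (H : ℕ) {X Y : α → ℕ → ℕ}
    (hX : PV D ctx (fun a => (g a).n) X) (hY : PV D ctx (fun a => (g a).n) Y) :
    PolyP D ctx (fun a => pass (g a) H (X a) (Y a)) := by
  unfold pass
  have hTX := p_tot hg.n hX
  have hTY := p_tot hg.n hY
  have hTT : PolyN D ctx (fun a => H * (tot (g a).n (X a) * tot (g a).n (Y a))) :=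
    (PolyN.const H).mul (hTX.mul hTY)
  refine PolyP.and (PolyP.le (PolyN.const 1) hTX) (PolyP.and (PolyP.le (PolyN.const 1) hTY)
    (PolyP.and ?_ ?_))
  · refine PolyP.forall_range hg.n (PolyP.le ?_ ?_)
    · exact (nU hTX).mul ((v_rn hg.n hg.A hY).entry (fun _ _ => le_rfl))
    · exact nU ((p_pn hg.n hg.A hX hY).add hTT)
  · refine PolyP.forall_range hg.n (PolyP.le ?_ ?_)
    · exact (nU hTY).mul ((v_cn hg.n hg.B hX).entry (fun _ _ => le_rfl))
    · exact nU ((p_pn hg.n hg.B hX hY).add hTT)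

theorem p_fc {g : α → Gm} (hg : PG D ctx g) (k E : ℕ) :
    PolyN D ctx (fun a => fc (g a) k E) :=
  Wsm.poly_lst (P := fun a m => pass (g a) (128 * E) (cX (g a) k E m) (cY (g a) k E m))
    (p_NC k (16 * E ^ 2) hg.n) (p_pass hg.up (128 * E) (v_cX hg.up k E nL) (v_cY hg.up k E nL))

namespace PCandAux

/-- the transposed matrix -/
theorem pm_tr {n : α → ℕ} {M : α → ℕ → ℕ → ℕ} (hn : PolyN D ctx n) (hM : PM D ctx n M) :
    PM D ctx n (fun a i j => M a j i) := by
  refine PM.mk hn ?_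
  refine hM.up.get (nU hn) (P2ba8ab.nMod' nL (nU hn)) (P2ba8ab.nDiv' nL (nU hn)) ?_ ?_
  · intro p hp
    have h2 : p.2 < n p.1 * n p.1 := hp.2
    refine Nat.mod_lt _ (Nat.pos_of_ne_zero fun h => ?_)
    rw [h] at h2
    simp at h2
  · intro p hp
    exact Nat.div_lt_of_lt_mul hp.2

end PCandAux

theorem pg_sw {g : α → Gm} (hg : PG D ctx g) : PG D ctx (fun a => sw (g a)) where
  n := hg.n
  pos := hg.pos
  A := pm_tr hg.n hg.B
  B := pm_tr hg.n hg.A

theorem v_out {g : α → Gm} (hg : PG D ctx g) (k E : ℕ) :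
    PV D ctx (fun a => (g a).n) (fun a => (out (g a) k E).1) ∧
      PV D ctx (fun a => (g a).n) (fun a => (out (g a) k E).2) := by
  classical
  have hs : PG D ctx (fun a => sw (g a)) := pg_sw hg
  have hX := v_cX hg k E (p_fc hg k E)
  have hY := v_cY hg k E (p_fc hg k E)
  have hX' : PV D ctx (fun a => (g a).n)
      (fun a => cX (sw (g a)) k E (fc (sw (g a)) k E)) := v_cX hs k E (p_fc hs k E)
  have hY' : PV D ctx (fun a => (g a).n)
      (fun a => cY (sw (g a)) k E (fc (sw (g a)) k E)) := v_cY hs k E (p_fc hs k E)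
  have hP := p_pass hg (128 * E) hX hY
  have key : ∀ {u v : α → ℕ → ℕ}, PV D ctx (fun a => (g a).n) u →
      PV D ctx (fun a => (g a).n) v →
      PV D ctx (fun a => (g a).n) (fun a =>
        if pass (g a) (128 * E) (cX (g a) k E (fc (g a) k E)) (cY (g a) k E (fc (g a) k E)) then
          u a else v a) := fun hu hv => v_ite hg.n hP hu hv
  constructor
  · refine (key hX hY').congr ?_
    intro a _ i _
    unfold out
    split_ifs <;> rfl
  · refine (key hY hX').congr ?_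
    intro a _ i _
    unfold out
    split_ifs <;> rfl

end Nvc
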