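import Pool.Agent.Lib.Nvc.PCand
import Pool.Agent.Lib.Nsh.PFin

/-!
# Poly side: the algorithm in polynomial time

MP_602ccf, project Nvc (owner helper29).

PROOF. Exactly as `Nsh.p_sol`, `Nsh.poly_sol` (`Pool/Agent/Lib/Nsh/PFin.lean`), with `pg_gm hD (2 * q + 4)` and `v_out hg k (2 ^ q)`.
-/

set_option autoImplicit false

namespace Nvc

open Finset Nsh Pool.Agent.Lib.PolyTime Pool.Agent.Lib.Pa7c826 Pool.Agent.Lib.P8e91ed.PT
open Pool.Agent.Lib.Pa7c826t Pool.Agent.Lib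

theorem PFinAux.p_sol {D : ℕ × List ℚ → Prop} (hD : ∀ w, D w → 1 ≤ w.1) (q k : ℕ) :
    PolyC D [encG] (fun w => encO (sol q k w)) := by
  have hg := pg_gm (D := D) hD (2 * q + 4)
  have hn : PolyN D [encG] (fun w : ℕ × List ℚ => w.1) := hg.n
  have ho := v_out hg k (2 ^ q)
  have key : ∀ {x : ℕ × List ℚ → ℕ → ℕ}, PV D [encG] (fun w => w.1) x →
      PolyC D [encG] (fun w => ((List.range w.1).map fun i => (x w i, tot w.1 (x w))).flatMap
        Pool.Agent.Lib.P8e91ed.encOut) := by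
    intro x hx
    have h1 : PolyN (Dx D (fun w : ℕ × List ℚ => w.1)) (cx [encG]) (fun q => x q.1 q.2) :=
      hx.entry (fun _ _ => le_rfl)
    have h2 : PolyN D [encG] (fun w => tot w.1 (x w)) := p_tot hn hx
    have h3 : PolyN (Dx D (fun w : ℕ × List ℚ => w.1)) (cx [encG])
        (fun q => tot q.1.1 (x q.1)) := upN (n := fun w : ℕ × List ℚ => w.1) h2
    have h4 : PolyC (Dx D (fun w : ℕ × List ℚ => w.1)) (cx [encG])
        (fun q => Pool.Agent.Lib.P8e91ed.encOut (x q.1 q.2, tot q.1.1 (x q.1))) :=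
      PolyC.append (cDbl (bin_bits (bin_ofN h1))) (cDbl (bin_bits (bin_ofN h3)))
    refine (PolyC.flatMap_range (n := fun w : ℕ × List ℚ => w.1) (t := fun q =>
      Pool.Agent.Lib.P8e91ed.encOut (x q.1 q.2, tot q.1.1 (x q.1))) hn h4).congr ?_
    intro w _
    rw [List.flatMap_map]
  exact PolyC.append (key ho.1) (key ho.2)

theorem poly_sol (D : ℕ × List ℚ → Prop) (hD : ∀ w, D w → 1 ≤ w.1) (q k : ℕ) :
    Nonempty (Turing.TM2ComputableInPolyTime (α := {w : ℕ × List ℚ // D w})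
      (αΓ := Bool) (βΓ := Bool) (fun w => encG w.1) encO (fun w => sol q k w.1)) :=
  PolyC.toTM2 encG (fun w => sol q k w) encO (PFinAux.p_sol hD q k)

end Nvc
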