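import Pool.Agent.Lib.Nvc.NDefs
import Pool.Agent.Lib.Nsh.PSum

/-!
# Poly side: the counters of a system in polynomial time

MP_602ccf, project Nvc (owner helper29). Read `Nsh/PVec.lean` (`PV`, `PM`: `mk`, `get`, `entry`, `up`, `weak`), `Nsh/PSum.lean` (`p_argm`, `p_rn` as models) and `Nsh/PRun.lean` (model for `v_lp`).

PROOF. `PM2.get`: as `PM.get` (`i < 2 n`, `j < n`: index `i * n + j < 2 * n * n`). `PM2.mk`, `PM2.weak`, `PM2.up`: as for `PM`.
`p_rn2`: `nSum` of the products. `v_qq`: `PV.mk` (length `2 n`) of the truncated difference. `p_ix`: `p_argm` with `F`, `G` from `PV.mk` and `nSum` over `range (2 n)`. `v_lstp`: `PV.mk`, `n_ite`, `PolyP.eq`. `lp_le`: `lp .. T i ≤ T` by induction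
(`Function.iterate_succ_apply'`). `v_lp`: `PolyArr.iterate` exactly as in `Nsh/PRun.lean` with the bound `T a`.
-/

set_option autoImplicit false

namespace Nvc

open Finset Nsh Pool.Agent.Lib.PolyTime Pool.Agent.Lib.Pa7c826 Pool.Agent.Lib.P8e91ed.PT
open Pool.Agent.Lib.Pa7c826t Pool.Agent.Lib

variable {α : Type*} {D : α → Prop} {ctx : List (α → List Bool)}

/-- `2 n a × n a` matrix of numbers computable in polynomial time -/
def PM2 (D : α → Prop) (ctx : List (α → List Bool)) (n : α → ℕ) (M : α → ℕ → ℕ → ℕ) : Prop :=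
  PV D ctx (fun a => 2 * n a * n a) (fun a m => M a (m / n a) (m % n a))

theorem PM2.weak {n : α → ℕ} {M : α → ℕ → ℕ → ℕ} (h : PM2 D ctx n M) {E : α × ℕ → Prop}
    (hE : ∀ p, E p → D p.1) (l : List (α × ℕ → List Bool)) :
    PM2 E (PolyTime.lift ctx ++ l) (fun p => n p.1) (fun p => M p.1) := PV.weak h hE l

theorem PM2.up {n k : α → ℕ} {M : α → ℕ → ℕ → ℕ} (h : PM2 D ctx n M) :
    PM2 (Dx D k) (cx ctx) (fun p => n p.1) (fun p => M p.1) := h.weak (fun _ hp => hp.1) _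

theorem PM2.get {n i j : α → ℕ} {M : α → ℕ → ℕ → ℕ} (h : PM2 D ctx n M) (hn : PolyN D ctx n)
    (hi : PolyN D ctx i) (hj : PolyN D ctx j) (hin : ∀ a, D a → i a < 2 * n a)
    (hjn : ∀ a, D a → j a < n a) : PolyN D ctx (fun a => M a (i a) (j a)) := by
  refine (PV.get h (i := fun a => i a * n a + j a) ((hi.mul hn).add hj) ?_).congr ?_
  · intro a ha
    calc i a * n a + j a < i a * n a + n a := by have := hjn a ha; omega
      _ = (i a + 1) * n a := by ring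
      _ ≤ 2 * n a * n a := Nat.mul_le_mul_right _ (hin a ha)
  · intro a ha
    have h1 := hjn a ha
    have h2 : 0 < n a := by omega
    have e1 : (i a * n a + j a) / n a = i a := by
      rw [mul_comm, Nat.mul_add_div h2, Nat.div_eq_of_lt h1, add_zero]
    have e2 : (i a * n a + j a) % n a = j a := by
      rw [mul_comm, Nat.mul_add_mod, Nat.mod_eq_of_lt h1]
    rw [e1, e2]

/-- writing a matrix -/
theorem PM2.mk {n : α → ℕ} {M : α → ℕ → ℕ → ℕ} (hn : PolyN D ctx n)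
    (hf : PolyN (Dx D (fun a => 2 * n a * n a)) (cx ctx)
      (fun p => M p.1 (p.2 / n p.1) (p.2 % n p.1))) : PM2 D ctx n M :=
  PV.mk (((PolyN.const 2).mul hn).mul hn) hf

namespace PLpAux

theorem p_rn2 {n i : α → ℕ} {M : α → ℕ → ℕ → ℕ} {y : α → ℕ → ℕ} (hn : PolyN D ctx n)
    (hM : PM2 D ctx n M) (hy : PV D ctx n y) (hi : PolyN D ctx i)
    (hin : ∀ a, D a → i a < 2 * n a) :
    PolyN D ctx (fun a => rn (n a) (M a) (y a) (i a)) := by
  exact nSum (f := fun a j => M a (i a) j * y a j) hn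
    ((hM.up.get (nU hn) (nU hi) nL (fun p hp => hin p.1 hp.1) (fun p hp => hp.2)).mul
      (hy.entry (fun _ _ => le_rfl)))

theorem v_qq {n : α → ℕ} {P Q : α → ℕ → ℕ → ℕ} {c : α → ℕ → ℕ} (hn : PolyN D ctx n)
    (hP : PM2 D ctx n P) (hQ : PM2 D ctx n Q) (hc : PV D ctx n c) :
    PV D ctx (fun a => 2 * n a) (fun a => qq (n a) (P a) (Q a) (c a)) := by
  have h2 : PolyN D ctx (fun a => 2 * n a) := (PolyN.const 2).mul hn
  refine PV.mk h2 (PolyN.sub (f := fun p : α × ℕ => rn (n p.1) (Q p.1) (c p.1) p.2)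
    (g := fun p : α × ℕ => rn (n p.1) (P p.1) (c p.1) p.2) ?_ ?_)
  · exact p_rn2 (nU hn) hQ.up hc.up nL (fun p hp => hp.2)
  · exact p_rn2 (nU hn) hP.up hc.up nL (fun p hp => hp.2)

theorem v_sum {n : α → ℕ} {M : α → ℕ → ℕ → ℕ} {z : α → ℕ → ℕ} (hn : PolyN D ctx n)
    (hM : PM2 D ctx n M) (hz : PV D ctx (fun a => 2 * n a) z) :
    PV D ctx n (fun a l => ∑ r ∈ range (2 * n a), z a r * M a r l) := by
  have h2 : PolyN D ctx (fun a => 2 * n a) := (PolyN.const 2).mul hn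
  refine PV.mk hn (nSum (f := fun (p : α × ℕ) r => z p.1 r * M p.1 r p.2) (nU h2) ?_)
  refine PolyN.mul (hz.up.entry (fun _ _ => le_rfl)) ?_
  exact hM.up.up.get (nU (nU hn)) nL (nU nL) (fun p hp => hp.2) (fun p hp => hp.1.2)

theorem p_ix {n : α → ℕ} {P Q : α → ℕ → ℕ → ℕ} {c : α → ℕ → ℕ} (hn : PolyN D ctx n)
    (hP : PM2 D ctx n P) (hQ : PM2 D ctx n Q) (hc : PV D ctx n c) :
    PolyN D ctx (fun a => ix (2 * n a) (n a) (P a) (Q a) (c a)) :=
  p_argm hn (v_sum hn hQ (v_qq hn hP hQ hc)) (v_sum hn hP (v_qq hn hP hQ hc))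

theorem v_lstp {n : α → ℕ} {P Q : α → ℕ → ℕ → ℕ} {c : α → ℕ → ℕ} (hn : PolyN D ctx n)
    (hP : PM2 D ctx n P) (hQ : PM2 D ctx n Q) (hc : PV D ctx n c) :
    PV D ctx n (fun a => lstp (2 * n a) (n a) (P a) (Q a) (c a)) := by
  refine PV.mk hn ((hc.entry (fun _ _ => le_rfl)).add ?_)
  exact n_ite (PolyP.eq nL (nU (p_ix hn hP hQ hc))) (PolyN.const 1) (PolyN.const 0)

theorem lp_succ (R n : ℕ) (P Q : ℕ → ℕ → ℕ) (T : ℕ) :
    lp R n P Q (T + 1) = lstp R n P Q (lp R n P Q T) := by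
  unfold lp
  rw [Function.iterate_succ_apply']

end PLpAux

theorem lp_le (R n : ℕ) (P Q : ℕ → ℕ → ℕ) (T i : ℕ) : lp R n P Q T i ≤ T := by
  induction T generalizing i with
  | zero => simp [lp]
  | succ T ih =>
    have h := ih i
    rw [PLpAux.lp_succ]
    unfold lstp
    split_ifs <;> omega

theorem v_lp {n T : α → ℕ} {P Q : α → ℕ → ℕ → ℕ} (hn : PolyN D ctx n)
    (hP : PM2 D ctx n P) (hQ : PM2 D ctx n Q) (hT : PolyN D ctx T) :
    PV D ctx n (fun a => lp (2 * n a) (n a) (P a) (Q a) (T a)) := by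
  refine ⟨T, hT, ?_⟩
  refine PolyArr.iterate (f := fun _ _ => 0)
    (step := fun a => lstp (2 * n a) (n a) (P a) (Q a)) hT hn hT
    (PolyArr.mk hT hn (PolyN.const 0) (fun _ _ _ _ => Nat.zero_le _)) ?_
  have hD : ∀ p : α × ℕ, (D p.1 ∧ p.2 < T p.1) → D p.1 := fun p hp => hp.1
  have hcur : PV (fun p : α × ℕ => D p.1 ∧ p.2 < T p.1)
      (PolyTime.lift ctx ++ [fun p => un p.2,
        fun p => arr (T p.1) (n p.1)
          ((lstp (2 * n p.1) (n p.1) (P p.1) (Q p.1))^[p.2] (fun _ => 0))])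
      (fun p => n p.1)
      (fun p => lp (2 * n p.1) (n p.1) (P p.1) (Q p.1) p.2) := by
    refine ⟨fun p => T p.1, nWeak hT hD _, PolyC.var (by simp [lp]), ?_⟩
    intro p hp i _
    exact (lp_le _ _ _ _ _ _).trans hp.2.le
  have hnew := PLpAux.v_lstp (nWeak hn hD _) (hP.weak hD _) (hQ.weak hD _) hcur
  refine PolyArr.mk (nWeak hT hD _) (nWeak hn hD _)
    (PV.entry hnew (fun _ _ => le_rfl)) ?_
  intro p hp i _
  have h1 := lp_le (2 * n p.1) (n p.1) (P p.1) (Q p.1) (p.2 + 1) i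
  have e : lp (2 * n p.1) (n p.1) (P p.1) (Q p.1) (p.2 + 1) i =
      lstp (2 * n p.1) (n p.1) (P p.1) (Q p.1)
        ((lstp (2 * n p.1) (n p.1) (P p.1) (Q p.1))^[p.2] (fun _ => 0)) i := by
    rw [PLpAux.lp_succ]
    rfl
  rw [e] at h1
  exact h1.trans hp.2

end Nvc
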