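import Pool.Agent.Lib.Nvc.PLp

/-!
# Poly side: the systems in polynomial time

MP_602ccf, project Nvc (owner helper29). Read `Nsh/PVec.lean`, `Nsh/PSum.lean`; `PM2` of `Nvc/PLp.lean` is a black box. `k` and `N`, `E` are constants; `s`, `i`, `a`, `u`, `v` are functions of the input.

PROOF. `p_jt`: `n ^ t` by induction on the constant `t` (`PolyN.mul`, `pow_succ`), `P2ba8ab.nDiv'`, `P2ba8ab.nMod'`. `p_sm`, `v_ys`: induction on the constant `k` (`Finset.sum_range_succ`), `PM.get` (`jt < n` by `Nat.mod_lt`), `n_ite`, `PolyP.eq`.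
`m_mc`: `PM.mk` with entries of `hg.A`, `hg.B` (`PV.entry`-like: `PM.get` at `p.2 / n`, `p.2 % n`, both `< n` for `p.2 < n * n`). The systems: `PM2.mk` with `n_ite` on `p.2 / n < n` (`PolyP.lt`); in the branch `≥` the row is
`p.2 / n - n < n` since `p.2 < 2 n * n`; `PM.get` needs the bounds only on the branch (`PolyC.mono` / `n_ite` gives the condition in the domain), or use `min`/`%`: e.g. read the row `(p.2 / n) % n`, which equals `p.2 / n` or `p.2 / n - n`.
-/

set_option autoImplicit false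

namespace Nvc

open Finset Nsh Pool.Agent.Lib.PolyTime Pool.Agent.Lib.Pa7c826 Pool.Agent.Lib.P8e91ed.PT
open Pool.Agent.Lib.Pa7c826t Pool.Agent.Lib

variable {α : Type*} {D : α → Prop} {ctx : List (α → List Bool)}

namespace PSysAux

theorem nDv0 {f g : α → ℕ} (hf : PolyN D ctx f) (hg : PolyN D ctx g)
    (hpos : ∀ a, D a → 0 < g a) : PolyN D ctx (fun a => f a / g a) := by
  have F := upN (n := f) hf
  have G := upN (n := f) hg
  have L := last (D := D) (ctx := ctx) (n := f)
  have h := PolyN.count (φ := fun p : α × ℕ => decide ((p.2 + 1) * g p.1 ≤ f p.1)) hf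
    (PolyB.le (L.succ.mul G) F)
  refine h.congr (fun a ha => ?_)
  have e : (Finset.range (f a)).filter (fun i => decide ((i + 1) * g a ≤ f a) = true) =
      Finset.range (f a / g a) := by
    ext i
    simp only [Finset.mem_filter, Finset.mem_range, decide_eq_true_eq]
    rw [← Nat.le_div_iff_mul_le (hpos a ha)]
    constructor
    · rintro ⟨_, h⟩; omega
    · intro h
      have := Nat.div_le_self (f a) (g a)
      exact ⟨by omega, by omega⟩
  rw [e, Finset.card_range]

/-- quotients without a condition on the divisor, in every universe -/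
theorem nDv {f g : α → ℕ} (hf : PolyN D ctx f) (hg : PolyN D ctx g) :
    PolyN D ctx (fun a => f a / g a) := by
  have h1 : PolyB D ctx (fun a => decide (0 < g a)) := PolyB.lt (PolyN.const 0) hg
  refine PolyC.congr (PolyC.ite h1 (t := fun a => un (f a / g a)) (u := fun _ => un 0) ?_ ?_) ?_
  · exact nDv0 (PolyC.mono hf fun _ h => h.1) (PolyC.mono hg fun _ h => h.1)
      (fun a h => by simpa using h.2)
  · exact PolyN.const 0
  · intro a _
    split_ifs with h
    · rfl
    · have : g a = 0 := by simpa using h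
      change un 0 = un (f a / g a)
      rw [this, Nat.div_zero]

theorem nMd {f g : α → ℕ} (hf : PolyN D ctx f) (hg : PolyN D ctx g) :
    PolyN D ctx (fun a => f a % g a) :=
  (PolyN.sub hf (hg.mul (nDv hf hg))).congr (fun a _ => by
    have := Nat.div_add_mod (f a) (g a)
    omega)

theorem p_pow {n : α → ℕ} (hn : PolyN D ctx n) (t : ℕ) : PolyN D ctx (fun a => n a ^ t) := by
  induction t with
  | zero => exact (PolyN.const 1).congr (fun a _ => by simp)
  | succ t ih => exact (ih.mul hn).congr (fun a _ => by simp [pow_succ])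

theorem jt_lt {n : ℕ} (h : 1 ≤ n) (s t : ℕ) : jt n s t < n := Nat.mod_lt _ (by omega)

/-- entries of `mc` -/
theorem p_mc {g : α → Gm} (hg : PG D ctx g) (N : ℕ) {a i j : α → ℕ} (ha : PolyN D ctx a)
    (hi : PolyN D ctx i) (hj : PolyN D ctx j) (hin : ∀ z, D z → i z < (g z).n)
    (hjn : ∀ z, D z → j z < (g z).n) :
    PolyN D ctx (fun z => mc N (a z) (g z) (i z) (j z)) := by
  have h1 : PolyN D ctx (fun z => (g z).A (i z) (j z)) := hg.A.get hg.n hi hj hin hjn
  have h2 : PolyN D ctx (fun z => (g z).B (i z) (j z)) := hg.B.get hg.n hi hj hin hjn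
  exact ((PolyN.const N).mul h1).add (ha.mul h2)

/-- the row and the column of a position in a matrix of `2 n` rows -/
theorem row_lt {n m : ℕ} (h : m < 2 * n * n) : m / n < 2 * n := by
  rcases Nat.eq_zero_or_pos n with h0 | h0
  · subst h0; simp at h
  · exact (Nat.div_lt_iff_lt_mul h0).2 h

theorem pos_of_lt {n m : ℕ} (h : m < 2 * n * n) : 0 < n := by
  rcases Nat.eq_zero_or_pos n with h0 | h0
  · subst h0; simp at h
  · exact h0

theorem p_row {n : α → ℕ} (hn : PolyN D ctx n) {k : α → ℕ} :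
    PolyN (Dx D k) (cx ctx) (fun p => p.2 / n p.1) := nDv nL (nU hn)

theorem p_col {n : α → ℕ} (hn : PolyN D ctx n) {k : α → ℕ} :
    PolyN (Dx D k) (cx ctx) (fun p => p.2 % n p.1) := nMd nL (nU hn)

/-- a system given by its two halves -/
theorem m_ite {n : α → ℕ} {F G : α → ℕ → ℕ → ℕ} (hn : PolyN D ctx n)
    (hF : PolyN (fun p => Dx D (fun a => 2 * n a * n a) p ∧ p.2 / n p.1 < n p.1) (cx ctx)
      (fun p => F p.1 (p.2 / n p.1) (p.2 % n p.1)))
    (hG : PolyN (fun p => Dx D (fun a => 2 * n a * n a) p ∧ ¬ p.2 / n p.1 < n p.1) (cx ctx)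
      (fun p => G p.1 (p.2 / n p.1) (p.2 % n p.1))) :
    PM2 D ctx n (fun a r l => if r < n a then F a r l else G a r l) := by
  refine PM2.mk hn ?_
  exact n_ite (P := fun p : α × ℕ => p.2 / n p.1 < n p.1) (PolyP.lt (p_row hn) (nU hn)) hF hG

end PSysAux

open PSysAux

theorem p_jt {n s : α → ℕ} (hn : PolyN D ctx n) (hs : PolyN D ctx s) (t : ℕ) :
    PolyN D ctx (fun a => jt (n a) (s a) t) :=
  nMd (nDv hs (p_pow hn t)) hn

theorem p_sm {n s i : α → ℕ} {M : α → ℕ → ℕ → ℕ} (hn : PolyN D ctx n)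
    (hpos : ∀ a, D a → 1 ≤ n a) (hM : PM D ctx n M) (hs : PolyN D ctx s) (hi : PolyN D ctx i)
    (hin : ∀ a, D a → i a < n a) (k : ℕ) :
    PolyN D ctx (fun a => sm (n a) k (s a) (M a) (i a)) := by
  induction k with
  | zero => exact (PolyN.const 0).congr (fun a _ => by simp [sm])
  | succ k ih =>
    have h1 : PolyN D ctx (fun a => M a (i a) (jt (n a) (s a) k)) :=
      hM.get hn hi (p_jt hn hs k) hin (fun a ha => jt_lt (hpos a ha) _ _)
    exact (ih.add h1).congr (fun a _ => by simp [sm, Finset.sum_range_succ])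

theorem v_ys {n s : α → ℕ} (hn : PolyN D ctx n) (hs : PolyN D ctx s) (k : ℕ) :
    PV D ctx n (fun a => ys (n a) k (s a)) := by
  refine PV.mk hn ?_
  induction k with
  | zero => exact (PolyN.const 0).congr (fun a _ => by simp [ys])
  | succ k ih =>
    have h1 : PolyN (Dx D n) (cx ctx)
        (fun p => if jt (n p.1) (s p.1) k = p.2 then 1 else 0) :=
      n_ite (P := fun p : α × ℕ => jt (n p.1) (s p.1) k = p.2)
        (PolyP.eq (nU (p_jt hn hs k)) nL) (PolyN.const 1) (PolyN.const 0)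
    exact (ih.add h1).congr (fun a _ => by unfold ys; rw [Finset.sum_range_succ])

theorem m_mc {g : α → Gm} (hg : PG D ctx g) (N : ℕ) {a : α → ℕ} (ha : PolyN D ctx a) :
    PM D ctx (fun z => (g z).n) (fun z => mc N (a z) (g z)) := by
  refine PM.mk hg.n ?_
  refine p_mc hg.up N (nU ha) (p_row hg.n) (p_col hg.n) ?_ ?_
  · intro p hp
    exact Nat.div_lt_of_lt_mul hp.2
  · intro p hp
    exact Nat.mod_lt _ (hg.pos p.1 hp.1)

variable {g : α → Gm} {a u v s : α → ℕ}

theorem m_yP (hg : PG D ctx g) (k N : ℕ) (ha : PolyN D ctx a) (hu : PolyN D ctx u) :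
    PM2 D ctx (fun z => (g z).n) (fun z => yP (g z) k N (a z) (u z)) := by
  refine m_ite (F := fun z _ _ => u z)
    (G := fun z r l => k * mc N (a z) (g z) (r - (g z).n) l + 16 * k * N) hg.n
    (PolyC.mono (nU hu) fun _ h => h.1) ?_
  refine PolyN.add (PolyN.mul (PolyN.const k) ?_) (PolyN.const (16 * k * N))
  refine p_mc (g := fun p : α × ℕ => g p.1) (hg.up.mono fun _ h => h.1) N
    (i := fun p : α × ℕ => p.2 / (g p.1).n - (g p.1).n) (j := fun p => p.2 % (g p.1).n)
    (PolyC.mono (nU ha) fun _ h => h.1)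
    (PolyC.mono (PolyN.sub (p_row hg.n) (nU hg.n)) fun _ h => h.1)
    (PolyC.mono (p_col hg.n) fun _ h => h.1) ?_ ?_
  · intro p hp
    have h1 := row_lt hp.1.2
    have h2 := hg.pos p.1 hp.1.1
    omega
  · intro p hp
    exact Nat.mod_lt _ (hg.pos p.1 hp.1.1)

theorem m_yQ (hg : PG D ctx g) (k N : ℕ) (ha : PolyN D ctx a) (hs : PolyN D ctx s) :
    PM2 D ctx (fun z => (g z).n) (fun z => yQ (g z) k N (a z) (s z)) := by
  refine m_ite (F := fun z r l => (g z).A r l)
    (G := fun z r _ => sm (g z).n k (s z) (mc N (a z) (g z)) (r - (g z).n)) hg.n ?_ ?_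
  · refine PM.get (n := fun p : α × ℕ => (g p.1).n) (M := fun p : α × ℕ => (g p.1).A)
      (hg.up.mono fun _ h => h.1).A (hg.up.mono fun _ h => h.1).n
      (PolyC.mono (p_row hg.n) fun _ h => h.1) (PolyC.mono (p_col hg.n) fun _ h => h.1)
      (fun p hp => hp.2) ?_
    intro p hp
    exact Nat.mod_lt _ (hg.pos p.1 hp.1.1)
  · refine p_sm (n := fun p : α × ℕ => (g p.1).n) (s := fun p : α × ℕ => s p.1)
      (M := fun p : α × ℕ => mc N (a p.1) (g p.1))
      (i := fun p : α × ℕ => p.2 / (g p.1).n - (g p.1).n)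
      (hg.up.mono fun _ h => h.1).n (fun p hp => hg.pos p.1 hp.1.1)
      ((m_mc hg N ha).up.mono fun _ h => h.1) (PolyC.mono (nU hs) fun _ h => h.1)
      (PolyC.mono (PolyN.sub (p_row hg.n) (nU hg.n)) fun _ h => h.1) ?_ k
    intro p hp
    have h1 := row_lt hp.1.2
    have h2 := hg.pos p.1 hp.1.1
    omega

theorem m_xP (hg : PG D ctx g) (k N : ℕ) (ha : PolyN D ctx a) (hv : PolyN D ctx v)
    (hs : PolyN D ctx s) :
    PM2 D ctx (fun z => (g z).n) (fun z => xP (g z) k N (a z) (v z) (s z)) := by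
  refine m_ite (F := fun z _ _ => v z)
    (G := fun z _ l => sm (g z).n k (s z) (mc N (a z) (g z)) l + 18 * k * N) hg.n
    (PolyC.mono (nU hv) fun _ h => h.1) ?_
  refine PolyN.add ?_ (PolyN.const (18 * k * N))
  refine p_sm (n := fun p : α × ℕ => (g p.1).n) (s := fun p : α × ℕ => s p.1)
    (M := fun p : α × ℕ => mc N (a p.1) (g p.1)) (i := fun p : α × ℕ => p.2 % (g p.1).n)
    (hg.up.mono fun _ h => h.1).n (fun p hp => hg.pos p.1 hp.1.1)
    ((m_mc hg N ha).up.mono fun _ h => h.1) (PolyC.mono (nU hs) fun _ h => h.1)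
    (PolyC.mono (p_col hg.n) fun _ h => h.1) ?_ k
  intro p hp
  exact Nat.mod_lt _ (hg.pos p.1 hp.1.1)

theorem m_xQ (hg : PG D ctx g) (k N : ℕ) (ha : PolyN D ctx a) (hu : PolyN D ctx u)
    (hv : PolyN D ctx v) :
    PM2 D ctx (fun z => (g z).n) (fun z => xQ (g z) k N (a z) (u z) (v z)) := by
  refine m_ite (F := fun z r l => (g z).B l r)
    (G := fun z _ _ => k * (N * u z + a z * v z)) hg.n ?_ ?_
  · refine PM.get (n := fun p : α × ℕ => (g p.1).n) (M := fun p : α × ℕ => (g p.1).B)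
      (hg.up.mono fun _ h => h.1).B (hg.up.mono fun _ h => h.1).n
      (PolyC.mono (p_col hg.n) fun _ h => h.1) (PolyC.mono (p_row hg.n) fun _ h => h.1)
      ?_ (fun p hp => hp.2)
    intro p hp
    exact Nat.mod_lt _ (hg.pos p.1 hp.1.1)
  · exact PolyC.mono (nU ((PolyN.const k).mul (((PolyN.const N).mul hu).add (ha.mul hv))))
      fun _ h => h.1

theorem m_zP (hg : PG D ctx g) (k E : ℕ) (hs : PolyN D ctx s) :
    PM2 D ctx (fun z => (g z).n) (fun z => zP (g z) k E (s z)) := by
  refine m_ite (F := fun z _ l => sm (g z).n k (s z) (g z).A l + (32 * k * E + 32 * k))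
    (G := fun z _ l => sm (g z).n k (s z) (g z).B l) hg.n ?_ ?_
  · refine PolyN.add ?_ (PolyN.const (32 * k * E + 32 * k))
    refine p_sm (n := fun p : α × ℕ => (g p.1).n) (s := fun p : α × ℕ => s p.1)
      (M := fun p : α × ℕ => (g p.1).A) (i := fun p : α × ℕ => p.2 % (g p.1).n)
      (hg.up.mono fun _ h => h.1).n (fun p hp => hg.pos p.1 hp.1.1)
      (hg.up.mono fun _ h => h.1).A (PolyC.mono (nU hs) fun _ h => h.1)
      (PolyC.mono (p_col hg.n) fun _ h => h.1) ?_ k
    intro p hp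
    exact Nat.mod_lt _ (hg.pos p.1 hp.1.1)
  · refine p_sm (n := fun p : α × ℕ => (g p.1).n) (s := fun p : α × ℕ => s p.1)
      (M := fun p : α × ℕ => (g p.1).B) (i := fun p : α × ℕ => p.2 % (g p.1).n)
      (hg.up.mono fun _ h => h.1).n (fun p hp => hg.pos p.1 hp.1.1)
      (hg.up.mono fun _ h => h.1).B (PolyC.mono (nU hs) fun _ h => h.1)
      (PolyC.mono (p_col hg.n) fun _ h => h.1) ?_ k
    intro p hp
    exact Nat.mod_lt _ (hg.pos p.1 hp.1.1)

theorem m_zQ (hg : PG D ctx g) (k : ℕ) (hs : PolyN D ctx s) :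
    PM2 D ctx (fun z => (g z).n) (fun z => zQ (g z) k (s z)) := by
  refine m_ite (F := fun z r _ => sm (g z).n k (s z) (g z).A r)
    (G := fun z r l => k * (g z).B l (r - (g z).n)) hg.n ?_ ?_
  · exact p_sm (n := fun p : α × ℕ => (g p.1).n) (s := fun p : α × ℕ => s p.1)
      (M := fun p : α × ℕ => (g p.1).A) (i := fun p : α × ℕ => p.2 / (g p.1).n)
      (hg.up.mono fun _ h => h.1).n (fun p hp => hg.pos p.1 hp.1.1)
      (hg.up.mono fun _ h => h.1).A (PolyC.mono (nU hs) fun _ h => h.1)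
      (PolyC.mono (p_row hg.n) fun _ h => h.1) (fun p hp => hp.2) k
  · refine PolyN.mul (PolyN.const k) ?_
    refine PM.get (n := fun p : α × ℕ => (g p.1).n) (M := fun p : α × ℕ => (g p.1).B)
      (hg.up.mono fun _ h => h.1).B (hg.up.mono fun _ h => h.1).n
      (PolyC.mono (p_col hg.n) fun _ h => h.1)
      (PolyC.mono (PolyN.sub (p_row hg.n) (nU hg.n)) fun _ h => h.1) ?_ ?_
    · intro p hp
      exact Nat.mod_lt _ (hg.pos p.1 hp.1.1)
    · intro p hp
      have h1 := row_lt hp.1.2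
      have h2 := hg.pos p.1 hp.1.1
      omega

end Nvc
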