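import Pool.Agent.Lib.Nvc.Defs

/-!
# The packing lemma of Alon, Ben-David, Cesa-Bianchi and Haussler

MP_602ccf, project Nvc (owner helper29).

PROOF of `pack`. Induction on `r`, with `X` and `F` arbitrary. `r = 0`: `F` is nonempty, so `∅` is strongly shattered and the count is `≥ 1`.
Step: let `N = 2 * (2 * m * b ^ 2) ^ r` and `h = m * b ^ 2 * N`, so `2 * h ≤ F.card`. Take an injection `φ` of `Fin (2 * h)` into `F`
(`Finset.exists_subset_card_eq`, `Finset.equivFin`; or two disjoint subsets of `F` of size `h` and a bijection between them). For `i < h` the functions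
`φ i` and `φ (h + i)` differ, so there are `x i ∈ X` with `|φ i (x i) - φ (h + i) (x i)| ≥ 2`; let `lo i` be the one with the smaller value `a i` at `x i` and `hi i` the other, with
value `a' i ≥ a i + 2`. By the pigeonhole principle for `i ↦ (x i, a i, a' i) ∈ X ×ˢ range b ×ˢ range b` (`Finset.exists_lt_card_fiber_of_mul_lt_card_of_maps_to` or
`Finset.exists_le_card_fiber_of_mul_le_card_of_maps_to`) some triple `(x, a, a')` has at least `N` indices `i`. `F1` = image of `lo`, `F2` = image of `hi` on this class (both injective: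
the pairs are disjoint), so both have at least `N` elements; the functions of `F1` agree at `x`, so `Sep (X.erase x) F1`; the same for `F2`. Induction for `X.erase x`: `A1`, `A2` =
strongly shattered subsets of `(X.erase x) ×ˢ range b` for `F1`, `F2`, with at least `2 ^ r` elements each. All elements of `A1 ∪ A2` are strongly shattered by `F`
(monotone in `F`), and for `P ∈ A1 ∩ A2` the set `insert (x, a + 1) P` is strongly shattered by `F`: for `T` with `(x, a + 1) ∈ T` use `F2` and `T.erase (x, a + 1)`
(value `a' ≥ a + 2` at `x`), otherwise `F1` (value `a` at `x`). These sets are different from all elements of `A1 ∪ A2` and the map is injective. So the count is at least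
`(A1 ∪ A2).card + (A1 ∩ A2).card = A1.card + A2.card ≥ 2 ^ (r + 1)` (`Finset.card_union_add_card_inter`).

PROOF of `card_small`. Every `P ⊆ S` with at most `d` elements is the image (of the `some` values) of a function `Fin d → Option S`: `Finset.card_le_card_of_surjOn`;
the number of functions is `(S.card + 1) ^ d`. (Or induction on `d`.)

PROOF of `pack_lt`. Otherwise `pack` gives `2 ^ r` strongly shattered sets, all with at most `d` elements; `card_small` with `S = X ×ˢ range b`, `S.card ≤ m * b`.
-/

set_option autoImplicit false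

namespace Nvc

open Finset

namespace PackAux

/-- adding the point `(x0, a + 1)` to a set that is strongly shattered both by functions with the
value `a` at `x0` and by functions with a value at least `a + 2` at `x0` -/
theorem ss_insert {α : Type*} [DecidableEq α] {F F1 F2 : Finset (α → ℕ)} {x0 : α} {a : ℕ}
    (h1 : F1 ⊆ F) (h2 : F2 ⊆ F) (hv1 : ∀ f ∈ F1, f x0 = a) (hv2 : ∀ f ∈ F2, a + 2 ≤ f x0)
    {P : Finset (α × ℕ)} (hP : ∀ e ∈ P, e.1 ≠ x0) (hs1 : SS F1 P) (hs2 : SS F2 P) :
    SS F (insert (x0, a + 1) P) := by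
  intro T hT
  by_cases h0 : (x0, a + 1) ∈ T
  · obtain ⟨f, hf, hf'⟩ := hs2 (T.erase (x0, a + 1)) (by
      intro e he
      have h3 := Finset.mem_erase.1 he
      rcases Finset.mem_insert.1 (hT h3.2) with h4 | h4
      · exact absurd h4 h3.1
      · exact h4)
    refine ⟨f, h2 hf, ?_⟩
    intro e he
    rcases Finset.mem_insert.1 he with h4 | h4
    · subst h4
      refine ⟨fun _ => ?_, fun h5 => absurd h0 h5⟩
      exact hv2 f hf
    · have hne : e ≠ (x0, a + 1) := by
        intro h5
        exact hP e h4 (by rw [h5])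
      refine ⟨fun h5 => (hf' e h4).1 (Finset.mem_erase.2 ⟨hne, h5⟩), fun h5 => (hf' e h4).2 ?_⟩
      intro h6
      exact h5 (Finset.mem_of_mem_erase h6)
  · obtain ⟨f, hf, hf'⟩ := hs1 T (by
      intro e he
      rcases Finset.mem_insert.1 (hT he) with h4 | h4
      · exact absurd (h4 ▸ he) h0
      · exact h4)
    refine ⟨f, h1 hf, ?_⟩
    intro e he
    rcases Finset.mem_insert.1 he with h4 | h4
    · subst h4
      refine ⟨fun h5 => absurd h5 h0, fun _ => ?_⟩
      exact le_of_eq (by rw [hv1 f hf])
    · exact hf' e h4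

theorem ss_mono {α : Type*} {F F1 : Finset (α → ℕ)} (h1 : F1 ⊆ F) {P : Finset (α × ℕ)}
    (hs1 : SS F1 P) : SS F P := by
  intro T hT
  obtain ⟨f, hf, hf'⟩ := hs1 T hT
  exact ⟨f, h1 hf, hf'⟩

end PackAux

open Classical in
theorem pack {α : Type*} {m b : ℕ} (hm : 1 ≤ m) (hb : 1 ≤ b) (r : ℕ) (X : Finset α)
    (F : Finset (α → ℕ)) (hX : X.card ≤ m) (hF : ∀ f ∈ F, ∀ x ∈ X, f x < b) (hs : Sep X F)
    (hc : 2 * (2 * m * b ^ 2) ^ r ≤ F.card) :
    2 ^ r ≤ ((X ×ˢ range b).powerset.filter (SS F)).card := by
  induction r generalizing X F with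
  | zero =>
    have hne : F.Nonempty := by
      rw [← Finset.card_pos]
      simp only [pow_zero] at hc
      omega
    obtain ⟨f, hf⟩ := hne
    rw [pow_zero]
    refine Finset.card_pos.2 ?_
    refine ⟨∅, Finset.mem_filter.2 ⟨Finset.empty_mem_powerset _, ?_⟩⟩
    intro T _
    exact ⟨f, hf, fun e he => absurd he (Finset.notMem_empty e)⟩
  | succ r ih =>
    obtain ⟨N, hN⟩ : ∃ N, N = 2 * (2 * m * b ^ 2) ^ r := ⟨_, rfl⟩
    obtain ⟨h, hh⟩ : ∃ h, h = m * b ^ 2 * N := ⟨_, rfl⟩
    have hb2 : 0 < b ^ 2 := by positivity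
    have hNpos : 0 < N := by
      rw [hN]; positivity
    have hhpos : 0 < h := by
      rw [hh]; positivity
    have h2h : 2 * h ≤ F.card := by
      refine le_trans (le_of_eq ?_) hc
      rw [hh, hN, pow_succ]; ring
    -- an embedding of two copies of `Fin h` into `F`
    have hcard : Fintype.card (Fin h ⊕ Fin h) ≤ Fintype.card {f // f ∈ F} := by
      rw [Fintype.card_sum, Fintype.card_fin, Fintype.card_coe]; omega
    obtain ⟨ψ⟩ := Function.Embedding.nonempty_of_card_le hcard
    have hex : ∀ i : Fin h, ∃ x ∈ X, ∃ s t : Fin h ⊕ Fin h,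
        (s = Sum.inl i ∨ s = Sum.inr i) ∧ (t = Sum.inl i ∨ t = Sum.inr i) ∧
        (ψ s).1 x + 2 ≤ (ψ t).1 x := by
      intro i
      have hne : (ψ (Sum.inl i)).1 ≠ (ψ (Sum.inr i)).1 := by
        intro h1
        have h2 := ψ.injective (Subtype.ext h1)
        exact absurd h2 (by simp)
      obtain ⟨x, hx, h1 | h1⟩ := hs _ (ψ (Sum.inl i)).2 _ (ψ (Sum.inr i)).2 hne
      · exact ⟨x, hx, Sum.inl i, Sum.inr i, Or.inl rfl, Or.inr rfl, h1⟩
      · exact ⟨x, hx, Sum.inr i, Sum.inl i, Or.inr rfl, Or.inl rfl, h1⟩
    choose x hx s t hsi hti hle using hex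
    have hsinj : Function.Injective s := by
      intro i j hij
      rcases hsi i with h1 | h1 <;> rcases hsi j with h2 | h2 <;>
        · rw [h1, h2] at hij
          first
            | exact Sum.inl.inj hij
            | exact Sum.inr.inj hij
            | exact absurd hij (by simp)
    have htinj : Function.Injective t := by
      intro i j hij
      rcases hti i with h1 | h1 <;> rcases hti j with h2 | h2 <;>
        · rw [h1, h2] at hij
          first
            | exact Sum.inl.inj hij
            | exact Sum.inr.inj hij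
            | exact absurd hij (by simp)
    have hinj1 : Function.Injective (fun i => (ψ (s i)).1) := by
      intro i j hij
      exact hsinj (ψ.injective (Subtype.ext hij))
    have hinj2 : Function.Injective (fun i => (ψ (t i)).1) := by
      intro i j hij
      exact htinj (ψ.injective (Subtype.ext hij))
    -- pigeonhole
    have hmap : ∀ i ∈ (Finset.univ : Finset (Fin h)),
        (x i, (ψ (s i)).1 (x i), (ψ (t i)).1 (x i)) ∈ X ×ˢ (range b ×ˢ range b) := by
      intro i _
      rw [Finset.mem_product, Finset.mem_product]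
      exact ⟨hx i, Finset.mem_range.2 (hF _ (ψ (s i)).2 _ (hx i)),
        Finset.mem_range.2 (hF _ (ψ (t i)).2 _ (hx i))⟩
    have htn : (X ×ˢ (range b ×ˢ range b)).Nonempty :=
      ⟨_, hmap ⟨0, hhpos⟩ (Finset.mem_univ _)⟩
    have hcnt : (X ×ˢ (range b ×ˢ range b)).card * N ≤ (Finset.univ : Finset (Fin h)).card := by
      rw [Finset.card_product, Finset.card_product, Finset.card_range, Finset.card_univ,
        Fintype.card_fin, hh]
      calc X.card * (b * b) * N ≤ m * (b * b) * N := by gcongr
        _ = m * b ^ 2 * N := by ring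
    obtain ⟨⟨x0, a, a'⟩, hy, hI⟩ :=
      Finset.exists_le_card_fiber_of_mul_le_card_of_maps_to hmap htn hcnt
    rw [Finset.mem_product, Finset.mem_product, Finset.mem_range, Finset.mem_range] at hy
    obtain ⟨hx0, _, ha'⟩ := hy
    simp only at hx0 ha'
    set I := Finset.univ.filter (fun i : Fin h =>
      (x i, (ψ (s i)).1 (x i), (ψ (t i)).1 (x i)) = (x0, a, a')) with hIdef
    have hImem : ∀ i ∈ I, x i = x0 ∧ (ψ (s i)).1 x0 = a ∧ (ψ (t i)).1 x0 = a' := by
      intro i hi
      have h1 := (Finset.mem_filter.1 hi).2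
      simp only [Prod.mk.injEq] at h1
      obtain ⟨h2, h3, h4⟩ := h1
      rw [h2] at h3 h4
      exact ⟨h2, h3, h4⟩
    have hIne : I.Nonempty := by
      rw [← Finset.card_pos]; omega
    have haa : a + 2 ≤ a' := by
      obtain ⟨i, hi⟩ := hIne
      obtain ⟨h1, h2, h3⟩ := hImem i hi
      have h4 := hle i
      rw [h1, h2, h3] at h4
      exact h4
    set F1 := I.image (fun i => (ψ (s i)).1) with hF1
    set F2 := I.image (fun i => (ψ (t i)).1) with hF2
    have hF1s : F1 ⊆ F := by
      intro f hf
      obtain ⟨i, _, rfl⟩ := Finset.mem_image.1 hf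
      exact (ψ (s i)).2
    have hF2s : F2 ⊆ F := by
      intro f hf
      obtain ⟨i, _, rfl⟩ := Finset.mem_image.1 hf
      exact (ψ (t i)).2
    have hF1v : ∀ f ∈ F1, f x0 = a := by
      intro f hf
      obtain ⟨i, hi, rfl⟩ := Finset.mem_image.1 hf
      exact (hImem i hi).2.1
    have hF2v : ∀ f ∈ F2, f x0 = a' := by
      intro f hf
      obtain ⟨i, hi, rfl⟩ := Finset.mem_image.1 hf
      exact (hImem i hi).2.2
    have hF1c : N ≤ F1.card := by
      rw [hF1, Finset.card_image_of_injective _ hinj1]; exact hI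
    have hF2c : N ≤ F2.card := by
      rw [hF2, Finset.card_image_of_injective _ hinj2]; exact hI
    have hsep : ∀ (G : Finset (α → ℕ)) (c : ℕ), G ⊆ F → (∀ f ∈ G, f x0 = c) →
        Sep (X.erase x0) G := by
      intro G c hG hGv f hf g hg hfg
      obtain ⟨z, hz, hz'⟩ := hs f (hG hf) g (hG hg) hfg
      refine ⟨z, Finset.mem_erase.2 ⟨?_, hz⟩, hz'⟩
      rintro rfl
      rw [hGv f hf, hGv g hg] at hz'
      omega
    have hXe : (X.erase x0).card ≤ m := le_trans (Finset.card_le_card (Finset.erase_subset _ _)) hX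
    have hA1 := ih (X.erase x0) F1 hXe
      (fun f hf z hz => hF f (hF1s hf) z (Finset.mem_of_mem_erase hz))
      (hsep F1 a hF1s hF1v) (by rw [← hN]; exact hF1c)
    have hA2 := ih (X.erase x0) F2 hXe
      (fun f hf z hz => hF f (hF2s hf) z (Finset.mem_of_mem_erase hz))
      (hsep F2 a' hF2s hF2v) (by rw [← hN]; exact hF2c)
    set A1 := (((X.erase x0) ×ˢ range b).powerset.filter (SS F1)) with hA1d
    set A2 := (((X.erase x0) ×ˢ range b).powerset.filter (SS F2)) with hA2d
    have hfst : ∀ P ⊆ (X.erase x0) ×ˢ range b, ∀ e ∈ P, e.1 ≠ x0 := by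
      intro P hP e he
      exact (Finset.mem_erase.1 (Finset.mem_product.1 (hP he)).1).1
    have hsub : (X.erase x0) ×ˢ range b ⊆ X ×ˢ range b :=
      Finset.product_subset_product (Finset.erase_subset _ _) (Finset.Subset.refl _)
    have hnot : ∀ P ⊆ (X.erase x0) ×ˢ range b, (x0, a + 1) ∉ P :=
      fun P hP h1 => hfst P hP _ h1 rfl
    have hAU : A1 ∪ A2 ⊆ (X ×ˢ range b).powerset.filter (SS F) := by
      intro P hP
      rcases Finset.mem_union.1 hP with h1 | h1
      · have h2 := Finset.mem_filter.1 h1
        exact Finset.mem_filter.2 ⟨Finset.mem_powerset.2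
          (Finset.Subset.trans (Finset.mem_powerset.1 h2.1) hsub), PackAux.ss_mono hF1s h2.2⟩
      · have h2 := Finset.mem_filter.1 h1
        exact Finset.mem_filter.2 ⟨Finset.mem_powerset.2
          (Finset.Subset.trans (Finset.mem_powerset.1 h2.1) hsub), PackAux.ss_mono hF2s h2.2⟩
    have hAI : (A1 ∩ A2).image (insert (x0, a + 1)) ⊆ (X ×ˢ range b).powerset.filter (SS F) := by
      intro Q hQ
      obtain ⟨P, hP, rfl⟩ := Finset.mem_image.1 hQ
      have h1 := Finset.mem_filter.1 (Finset.mem_inter.1 hP).1
      have h2 := Finset.mem_filter.1 (Finset.mem_inter.1 hP).2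
      have h3 := Finset.mem_powerset.1 h1.1
      refine Finset.mem_filter.2 ⟨Finset.mem_powerset.2 ?_, ?_⟩
      · intro e he
        rcases Finset.mem_insert.1 he with h4 | h4
        · rw [h4]
          exact Finset.mem_product.2 ⟨hx0, Finset.mem_range.2 (by simp only; omega)⟩
        · exact hsub (h3 h4)
      · exact PackAux.ss_insert hF1s hF2s hF1v (fun f hf => by rw [hF2v f hf]; exact haa)
          (hfst P h3) h1.2 h2.2
    have hdisj : Disjoint (A1 ∪ A2) ((A1 ∩ A2).image (insert (x0, a + 1))) := by
      rw [Finset.disjoint_left]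
      intro Q hQ hQ'
      obtain ⟨P, hP, rfl⟩ := Finset.mem_image.1 hQ'
      have h1 : insert (x0, a + 1) P ⊆ (X.erase x0) ×ˢ range b := by
        rcases Finset.mem_union.1 hQ with h1 | h1
        · exact Finset.mem_powerset.1 (Finset.mem_filter.1 h1).1
        · exact Finset.mem_powerset.1 (Finset.mem_filter.1 h1).1
      exact hnot _ h1 (Finset.mem_insert_self _ _)
    have himg : ((A1 ∩ A2).image (insert (x0, a + 1))).card = (A1 ∩ A2).card := by
      apply Finset.card_image_of_injOn
      intro P hP Q hQ hPQ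
      have h1 := hnot P (Finset.mem_powerset.1 (Finset.mem_filter.1
        (Finset.mem_inter.1 (Finset.mem_coe.1 hP)).1).1)
      have h2 := hnot Q (Finset.mem_powerset.1 (Finset.mem_filter.1
        (Finset.mem_inter.1 (Finset.mem_coe.1 hQ)).1).1)
      rw [← Finset.erase_insert h1, ← Finset.erase_insert h2]
      exact congrArg (fun R => Finset.erase R (x0, a + 1)) hPQ
    calc 2 ^ (r + 1) = 2 ^ r + 2 ^ r := by ring
      _ ≤ A1.card + A2.card := by omega
      _ = (A1 ∪ A2).card + (A1 ∩ A2).card := (Finset.card_union_add_card_inter _ _).symm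
      _ = (A1 ∪ A2).card + ((A1 ∩ A2).image (insert (x0, a + 1))).card := by rw [himg]
      _ = ((A1 ∪ A2) ∪ (A1 ∩ A2).image (insert (x0, a + 1))).card :=
          (Finset.card_union_of_disjoint hdisj).symm
      _ ≤ _ := Finset.card_le_card (Finset.union_subset hAU hAI)

open Classical in
theorem card_small {α : Type*} (S : Finset α) (d : ℕ) :
    (S.powerset.filter (fun P => P.card ≤ d)).card ≤ (S.card + 1) ^ d := by
  induction d with
  | zero =>
    have h1 : S.powerset.filter (fun P => P.card ≤ 0) ⊆ {∅} := by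
      intro P hP
      have h2 := (Finset.mem_filter.1 hP).2
      rw [Finset.mem_singleton, ← Finset.card_eq_zero]
      omega
    calc (S.powerset.filter (fun P => P.card ≤ 0)).card ≤ ({∅} : Finset (Finset α)).card :=
          Finset.card_le_card h1
      _ = (S.card + 1) ^ 0 := by simp
  | succ d ih =>
    have h1 : S.powerset.filter (fun P => P.card ≤ d + 1) ⊆
        ((S.powerset.filter (fun P => P.card ≤ d)) ×ˢ (Finset.insertNone S)).image
          (fun p => p.2.elim p.1 (fun x => insert x p.1)) := by
      intro P hP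
      have h2 := Finset.mem_filter.1 hP
      rw [Finset.mem_image]
      by_cases h3 : P.card ≤ d
      · refine ⟨(P, none), Finset.mem_product.2 ⟨Finset.mem_filter.2 ⟨h2.1, h3⟩, ?_⟩, rfl⟩
        simp
      · have h4 : P.Nonempty := by
          rw [← Finset.card_pos]; omega
        obtain ⟨x, hx⟩ := h4
        have hPS := Finset.mem_powerset.1 h2.1
        refine ⟨(P.erase x, some x), Finset.mem_product.2 ⟨Finset.mem_filter.2 ⟨?_, ?_⟩, ?_⟩, ?_⟩
        · exact Finset.mem_powerset.2 (Finset.Subset.trans (Finset.erase_subset _ _) hPS)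
        · simp only
          rw [Finset.card_erase_of_mem hx]; have := h2.2; omega
        · simpa using hPS hx
        · simp only [Option.elim_some]
          exact Finset.insert_erase hx
    calc (S.powerset.filter (fun P => P.card ≤ d + 1)).card
        ≤ (((S.powerset.filter (fun P => P.card ≤ d)) ×ˢ (Finset.insertNone S)).image
          (fun p => p.2.elim p.1 (fun x => insert x p.1))).card := Finset.card_le_card h1
      _ ≤ ((S.powerset.filter (fun P => P.card ≤ d)) ×ˢ (Finset.insertNone S)).card :=
          Finset.card_image_le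
      _ = (S.powerset.filter (fun P => P.card ≤ d)).card * (S.card + 1) := by
          rw [Finset.card_product, Finset.card_insertNone]
      _ ≤ (S.card + 1) ^ d * (S.card + 1) := Nat.mul_le_mul_right _ ih
      _ = (S.card + 1) ^ (d + 1) := (pow_succ _ _).symm

theorem pack_lt {α : Type*} {m b d r : ℕ} (hm : 1 ≤ m) (hb : 1 ≤ b) (X : Finset α)
    (F : Finset (α → ℕ)) (hX : X.card ≤ m) (hF : ∀ f ∈ F, ∀ x ∈ X, f x < b) (hs : Sep X F)
    (hd : ∀ P ⊆ X ×ˢ range b, SS F P → P.card ≤ d) (hr : (m * b + 1) ^ d < 2 ^ r) :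
    F.card < 2 * (2 * m * b ^ 2) ^ r := by
  classical
  by_contra hcon
  rw [not_lt] at hcon
  have h1 := pack hm hb r X F hX hF hs hcon
  have h2 : (X ×ˢ range b).powerset.filter (SS F) ⊆
      (X ×ˢ range b).powerset.filter (fun P => P.card ≤ d) := by
    intro P hP
    have h3 := Finset.mem_filter.1 hP
    exact Finset.mem_filter.2 ⟨h3.1, hd P (Finset.mem_powerset.1 h3.1) h3.2⟩
  have h3 : (X ×ˢ range b).card ≤ m * b := by
    rw [Finset.card_product, Finset.card_range]
    exact Nat.mul_le_mul_right _ hX
  have h4 : ((X ×ˢ range b).powerset.filter (SS F)).card ≤ (m * b + 1) ^ d := by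
    calc ((X ×ˢ range b).powerset.filter (SS F)).card
        ≤ ((X ×ˢ range b).powerset.filter (fun P => P.card ≤ d)).card := Finset.card_le_card h2
      _ ≤ ((X ×ˢ range b).card + 1) ^ d := by
          have h5 := card_small (X ×ˢ range b) d
          convert h5
      _ ≤ (m * b + 1) ^ d := Nat.pow_le_pow_left (by omega) d
  exact absurd (lt_of_le_of_lt (le_trans h1 h4) hr) (lt_irrefl _)

end Nvc
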