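import Mathlib

/-!
# Random signs

MP_602ccf, project Nvc (owner helper29).

PROOF. Exponential moments: for real `u`, `∑ σ, exp (u * ∑ s, ± a s) = ∏ s, (exp (u * a s) + exp (- u * a s))`
(`Fintype.piFinset`/`Finset.prod_univ_sum`, `Fintype.sum_pow`-like expansion of a product of sums over `Bool`) and
`exp z + exp (- z) = 2 * cosh z ≤ 2 * exp (z ^ 2 / 2)` (`Real.cosh_le_exp_half_sq`), so the sum is at most `2 ^ k * exp (2 * k * u ^ 2)` (as `|a s| ≤ 2`). Markov's inequality with `u = τ / 4`:
the number of `σ` with `k * τ < ∑ s, ± a s` is at most `2 ^ k * exp (2 * k * u ^ 2 - u * k * τ) = 2 ^ k * exp (- k * τ ^ 2 / 8)`. The same for `- a`.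
-/

set_option autoImplicit false

namespace Nvc

open Finset

namespace SignAux

theorem sum_exp {k : ℕ} (a : Fin k → ℝ) (u : ℝ) :
    ∑ σ : Fin k → Bool, Real.exp (u * ∑ s, if σ s = true then a s else - a s) =
      ∏ s, (Real.exp (u * a s) + Real.exp (-(u * a s))) := by
  have h := Finset.prod_univ_sum (fun _ : Fin k => (univ : Finset Bool))
    (fun s b => Real.exp (u * (if b = true then a s else - a s)))
  rw [Fintype.piFinset_univ] at h
  have h1 : ∀ σ : Fin k → Bool,
      Real.exp (u * ∑ s, if σ s = true then a s else - a s) =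
        ∏ s, Real.exp (u * (if σ s = true then a s else - a s)) := by
    intro σ
    rw [Finset.mul_sum, Real.exp_sum]
  rw [Finset.sum_congr rfl (fun σ _ => h1 σ), ← h]
  refine Finset.prod_congr rfl (fun s _ => ?_)
  simp [mul_neg]

theorem sum_exp_le {k : ℕ} (a : Fin k → ℝ) (ha : ∀ s, |a s| ≤ 2) (u : ℝ) :
    ∑ σ : Fin k → Bool, Real.exp (u * ∑ s, if σ s = true then a s else - a s) ≤
      2 ^ k * Real.exp (2 * k * u ^ 2) := by
  rw [sum_exp]
  have h1 : ∀ s, Real.exp (u * a s) + Real.exp (-(u * a s)) ≤ 2 * Real.exp (2 * u ^ 2) := by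
    intro s
    have h2 : Real.exp (u * a s) + Real.exp (-(u * a s)) = 2 * Real.cosh (u * a s) := by
      rw [Real.cosh_eq]; ring
    rw [h2]
    have h3 := Real.cosh_le_exp_half_sq (u * a s)
    have h4 : (u * a s) ^ 2 / 2 ≤ 2 * u ^ 2 := by
      have h5 : (a s) ^ 2 ≤ 4 := by
        have := sq_le_sq' (a := a s) (b := 2) (by linarith [(abs_le.mp (ha s)).1]) (abs_le.mp (ha s)).2
        linarith
      nlinarith [sq_nonneg u]
    have h6 := Real.exp_le_exp.mpr h4
    linarith
  calc ∏ s, (Real.exp (u * a s) + Real.exp (-(u * a s)))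
      ≤ ∏ _s : Fin k, (2 * Real.exp (2 * u ^ 2)) :=
        Finset.prod_le_prod (fun s _ => by positivity) (fun s _ => h1 s)
    _ = 2 ^ k * Real.exp (2 * k * u ^ 2) := by
        rw [Finset.prod_const, Finset.card_univ, Fintype.card_fin, mul_pow, ← Real.exp_nat_mul]
        congr 2
        ring

theorem one_side {k : ℕ} (a : Fin k → ℝ) (ha : ∀ s, |a s| ≤ 2) {τ : ℝ} (hτ : 0 ≤ τ) :
    ((univ.filter (fun σ : Fin k → Bool =>
      k * τ < ∑ s, if σ s = true then a s else - a s)).card : ℝ) ≤
      2 ^ k * Real.exp (-(k * τ ^ 2 / 8)) := by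
  set u : ℝ := τ / 4 with hu
  have hu0 : 0 ≤ u := by positivity
  have h1 := sum_exp_le a ha u
  have h2 : ((univ.filter (fun σ : Fin k → Bool =>
      k * τ < ∑ s, if σ s = true then a s else - a s)).card : ℝ) * Real.exp (u * (k * τ)) ≤
      ∑ σ : Fin k → Bool, Real.exp (u * ∑ s, if σ s = true then a s else - a s) := by
    calc ((univ.filter (fun σ : Fin k → Bool =>
          k * τ < ∑ s, if σ s = true then a s else - a s)).card : ℝ) * Real.exp (u * (k * τ))
        = ∑ σ ∈ univ.filter (fun σ : Fin k → Bool =>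
          k * τ < ∑ s, if σ s = true then a s else - a s), Real.exp (u * (k * τ)) := by
          rw [Finset.sum_const, nsmul_eq_mul]
      _ ≤ ∑ σ ∈ univ.filter (fun σ : Fin k → Bool =>
          k * τ < ∑ s, if σ s = true then a s else - a s),
            Real.exp (u * ∑ s, if σ s = true then a s else - a s) := by
          refine Finset.sum_le_sum (fun σ hσ => ?_)
          rw [Real.exp_le_exp]
          exact mul_le_mul_of_nonneg_left (Finset.mem_filter.mp hσ).2.le hu0
      _ ≤ _ := Finset.sum_le_sum_of_subset_of_nonneg (Finset.filter_subset _ _)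
          (fun _ _ _ => (Real.exp_pos _).le)
  have h3 := h2.trans h1
  have h4 : Real.exp (2 * k * u ^ 2) = Real.exp (-(k * τ ^ 2 / 8)) * Real.exp (u * (k * τ)) := by
    rw [← Real.exp_add]
    congr 1
    rw [hu]; ring
  rw [h4] at h3
  refine le_of_mul_le_mul_right (a := Real.exp (u * (k * τ))) ?_ (Real.exp_pos _)
  calc _ ≤ _ := h3
    _ = _ := by ring

end SignAux

theorem sign_bound {k : ℕ} (a : Fin k → ℝ) (ha : ∀ s, |a s| ≤ 2) {τ : ℝ} (hτ : 0 ≤ τ) :
    ((univ.filter (fun σ : Fin k → Bool =>
      k * τ < |∑ s, if σ s = true then a s else - a s|)).card : ℝ) ≤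
      2 ^ k * (2 * Real.exp (-(k * τ ^ 2 / 8))) := by
  have h1 := SignAux.one_side a ha hτ
  have h2 := SignAux.one_side (fun s => - a s) (fun s => by rw [abs_neg]; exact ha s) hτ
  have h3 : univ.filter (fun σ : Fin k → Bool =>
      k * τ < |∑ s, if σ s = true then a s else - a s|) ⊆
      univ.filter (fun σ : Fin k → Bool =>
        k * τ < ∑ s, if σ s = true then a s else - a s) ∪
      univ.filter (fun σ : Fin k → Bool =>
        k * τ < ∑ s, if σ s = true then - a s else - (- a s)) := by
    intro σ hσ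
    rw [Finset.mem_union, Finset.mem_filter, Finset.mem_filter]
    have h4 := (Finset.mem_filter.mp hσ).2
    rcases lt_abs.mp h4 with h | h
    · exact Or.inl ⟨Finset.mem_univ _, h⟩
    · refine Or.inr ⟨Finset.mem_univ _, ?_⟩
      have h5 : (∑ s, if σ s = true then - a s else - (- a s)) =
          -(∑ s, if σ s = true then a s else - a s) := by
        rw [← Finset.sum_neg_distrib]
        refine Finset.sum_congr rfl (fun s _ => ?_)
        split_ifs <;> ring
      rw [h5]
      exact h
  have h6 := (Finset.card_le_card h3).trans (Finset.card_union_le _ _)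
  have h7 : ((univ.filter (fun σ : Fin k → Bool =>
      k * τ < |∑ s, if σ s = true then a s else - a s|)).card : ℝ) ≤
      ((univ.filter (fun σ : Fin k → Bool =>
        k * τ < ∑ s, if σ s = true then a s else - a s)).card : ℝ) +
      ((univ.filter (fun σ : Fin k → Bool =>
        k * τ < ∑ s, if σ s = true then - a s else - (- a s))).card : ℝ) := by
    exact_mod_cast h6
  calc _ ≤ _ := h7
    _ ≤ 2 ^ k * Real.exp (-(k * τ ^ 2 / 8)) + 2 ^ k * Real.exp (-(k * τ ^ 2 / 8)) :=
        add_le_add h1 h2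
    _ = _ := by ring

end Nvc
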