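import Mathlib

/-!
# Symmetrisation

MP_602ccf, project Nvc (owner helper29).

PROOF. Weights `w t = ∏ s, y (t s)` on `Fin k → Fin n`, with sum `1` (`Finset.prod_univ_sum`, `Fintype.piFinset_univ`).
Chebyshev (`cheb`): for a row `c` with values in `[0, 2]` and mean `μ = ∑ j, c j * y j`: `∑ t, w t * (∑ s, c (t s) - k * μ) ^ 2 ≤ k` (expand the square: the terms `s ≠ s'` are `0`, the terms `s = s'` are the
variance `≤ 1`, as `(c - μ) ^ 2` has mean `mean (c ^ 2) - μ ^ 2 ≤ 2 μ - μ ^ 2 ≤ 1`), so the weight of the `t` with `k * τ < |∑ s, c (t s) - k * μ|` is at most `1 / (k * τ ^ 2) ≤ 1 / 2`.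
`symm`: for every `t` with `0 < w t` choose the bad row `i t`. The weight of the pairs `(t, t')` with `Z`: `∃ i, 2 * k * τ < |∑ s, (C i (t s) - C i (t' s))|` is at least `1 / 2` (for fixed `t` of positive weight,
all `t'` with `|∑ s, C (i t) (t' s) - k μ| ≤ k τ`, of weight `≥ 1 / 2`; `3 - 1 = 2`). For every sign vector `σ` the map `(t, t') ↦ (t_σ, t'_σ)` (swap the coordinates `s` with `σ s = false`) is a bijection
that preserves `w t * w t'` and turns `C i (t s) - C i (t' s)` into `±` itself. Hence `∑ (t, t'), w t * w t' * #{σ : ∃ i, 2 k τ < |∑ s, ± (C i (t s) - C i (t' s))|} ≥ 2 ^ k / 2`, and since the weights have sum `1`, some pair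
`(t, t')` has at least `2 ^ k / 2` such `σ`.
-/

set_option autoImplicit false

namespace Nvc

open Finset

namespace SymmAux

theorem prodSum {n k : ℕ} (y : Fin n → ℝ) (g : Fin k → Fin n → ℝ) :
    ∑ t : Fin k → Fin n, (∏ s, y (t s)) * ∏ s, g s (t s) = ∏ s, ∑ j, y j * g s j := by
  rw [Finset.prod_univ_sum, Fintype.piFinset_univ]
  refine Finset.sum_congr rfl fun t _ => ?_
  rw [← Finset.prod_mul_distrib]

theorem sumW {n k : ℕ} {y : Fin n → ℝ} (hy1 : ∑ j, y j = 1) :
    ∑ t : Fin k → Fin n, ∏ s, y (t s) = 1 := by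
  have h := prodSum (k := k) y (fun _ _ => 1)
  simp only [Finset.prod_const_one, mul_one] at h
  rw [h]
  simp [hy1]

theorem pairMean {n k : ℕ} {y : Fin n → ℝ} (hy1 : ∑ j, y j = 1) (a : Fin n → ℝ)
    (ha : ∑ j, y j * a j = 0) (s s' : Fin k) :
    ∑ t : Fin k → Fin n, (∏ r, y (t r)) * (a (t s) * a (t s'))
      = if s = s' then ∑ j, y j * a j ^ 2 else 0 := by
  have h := prodSum (k := k) y
    (fun r j => (if r = s then a j else 1) * (if r = s' then a j else 1))
  have h1 : ∀ t : Fin k → Fin n, ∏ r, ((if r = s then a (t r) else 1) *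
      (if r = s' then a (t r) else 1)) = a (t s) * a (t s') := by
    intro t
    rw [Finset.prod_mul_distrib, Finset.prod_ite_eq' univ s (fun r => a (t r)),
      Finset.prod_ite_eq' univ s' (fun r => a (t r))]
    simp
  simp only [h1] at h
  rw [h]
  by_cases hs : s = s'
  · subst hs
    rw [if_pos rfl]
    rw [← Finset.mul_prod_erase univ _ (Finset.mem_univ s)]
    have h2 : ∏ r ∈ univ.erase s, ∑ j, y j * ((if r = s then a j else 1) *
        (if r = s then a j else 1)) = 1 := by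
      refine Finset.prod_eq_one fun r hr => ?_
      have hrs : r ≠ s := (Finset.mem_erase.1 hr).1
      simp [hrs, hy1]
    rw [h2, mul_one]
    refine Finset.sum_congr rfl fun j _ => ?_
    simp [pow_two]
  · rw [if_neg hs]
    refine Finset.prod_eq_zero (Finset.mem_univ s) ?_
    simp [hs, ha]

theorem secMoment {n k : ℕ} {y : Fin n → ℝ} (hy1 : ∑ j, y j = 1) (a : Fin n → ℝ)
    (ha : ∑ j, y j * a j = 0) :
    ∑ t : Fin k → Fin n, (∏ r, y (t r)) * (∑ s, a (t s)) ^ 2
      = k * ∑ j, y j * a j ^ 2 := by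
  have h : ∀ t : Fin k → Fin n, (∏ r, y (t r)) * (∑ s, a (t s)) ^ 2
      = ∑ s, ∑ s', (∏ r, y (t r)) * (a (t s) * a (t s')) := by
    intro t
    rw [pow_two, Finset.sum_mul_sum, Finset.mul_sum]
    refine Finset.sum_congr rfl fun s _ => ?_
    rw [Finset.mul_sum]
  simp only [h]
  rw [Finset.sum_comm]
  have h2 : ∀ s : Fin k, ∑ t : Fin k → Fin n, ∑ s', (∏ r, y (t r)) * (a (t s) * a (t s'))
      = ∑ j, y j * a j ^ 2 := by
    intro s
    rw [Finset.sum_comm]
    simp only [pairMean hy1 a ha]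
    simp
  simp only [h2]
  simp

theorem varLe {n : ℕ} {y : Fin n → ℝ} (hy : ∀ j, 0 ≤ y j) (hy1 : ∑ j, y j = 1)
    {c : Fin n → ℝ} (hc : ∀ j, 0 ≤ c j ∧ c j ≤ 2) :
    ∑ j, y j * (c j - ∑ j, c j * y j) ^ 2 ≤ 1 := by
  set μ := ∑ j, c j * y j with hμ
  have h1 : ∑ j, y j * (c j - μ) ^ 2 = ∑ j, y j * c j ^ 2 - μ ^ 2 := by
    have : ∀ j, y j * (c j - μ) ^ 2 = y j * c j ^ 2 - 2 * μ * (c j * y j) + μ ^ 2 * y j := by
      intro j; ring
    simp only [this]
    rw [Finset.sum_add_distrib, Finset.sum_sub_distrib, ← Finset.mul_sum, ← Finset.mul_sum, hy1,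
      ← hμ]
    ring
  have h2 : ∑ j, y j * c j ^ 2 ≤ 2 * μ := by
    rw [hμ, Finset.mul_sum]
    refine Finset.sum_le_sum fun j _ => ?_
    nlinarith [mul_nonneg (hy j) (mul_nonneg (hc j).1 (sub_nonneg.2 (hc j).2))]
  rw [h1]
  nlinarith [sq_nonneg (μ - 1)]

end SymmAux

open SymmAux

theorem cheb {n k : ℕ} (hk : 1 ≤ k) {y : Fin n → ℝ} (hy : ∀ j, 0 ≤ y j) (hy1 : ∑ j, y j = 1)
    {c : Fin n → ℝ} (hc : ∀ j, 0 ≤ c j ∧ c j ≤ 2) {τ : ℝ} (hτ : 0 < τ) (hkτ : 2 ≤ k * τ ^ 2) :
    ∑ t ∈ univ.filter (fun t : Fin k → Fin n => k * τ < |∑ s, c (t s) - k * ∑ j, c j * y j|),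
      ∏ s, y (t s) ≤ 1 / 2 := by
  set μ := ∑ j, c j * y j with hμ
  have hkpos : (0 : ℝ) < k := by exact_mod_cast hk
  have ha : ∑ j, y j * (c j - μ) = 0 := by
    have : ∀ j, y j * (c j - μ) = c j * y j - μ * y j := by intro j; ring
    simp only [this]
    rw [Finset.sum_sub_distrib, ← Finset.mul_sum, hy1, ← hμ]
    ring
  have hsm := secMoment (k := k) hy1 (fun j => c j - μ) ha
  have hv := varLe hy hy1 hc
  rw [← hμ] at hv
  have hw : ∀ t : Fin k → Fin n, 0 ≤ ∏ s, y (t s) := fun t => Finset.prod_nonneg fun s _ => hy _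
  have hsum : ∀ t : Fin k → Fin n, ∑ s, (c (t s) - μ) = ∑ s, c (t s) - k * μ := by
    intro t
    rw [Finset.sum_sub_distrib]
    simp
  have h1 : (∑ t ∈ univ.filter (fun t : Fin k → Fin n => k * τ < |∑ s, c (t s) - k * μ|),
      ∏ s, y (t s)) * (k * τ) ^ 2 ≤ k := by
    calc (∑ t ∈ univ.filter (fun t : Fin k → Fin n => k * τ < |∑ s, c (t s) - k * μ|),
          ∏ s, y (t s)) * (k * τ) ^ 2
        = ∑ t ∈ univ.filter (fun t : Fin k → Fin n => k * τ < |∑ s, c (t s) - k * μ|),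
          (∏ s, y (t s)) * (k * τ) ^ 2 := by rw [Finset.sum_mul]
      _ ≤ ∑ t ∈ univ.filter (fun t : Fin k → Fin n => k * τ < |∑ s, c (t s) - k * μ|),
          (∏ s, y (t s)) * (∑ s, (c (t s) - μ)) ^ 2 := by
          refine Finset.sum_le_sum fun t ht => ?_
          refine mul_le_mul_of_nonneg_left ?_ (hw t)
          rw [hsum t, ← sq_abs (∑ s, c (t s) - k * μ)]
          have h2 := (Finset.mem_filter.1 ht).2
          have h3 : 0 ≤ (k : ℝ) * τ := by positivity
          exact pow_le_pow_left₀ h3 h2.le 2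
      _ ≤ ∑ t : Fin k → Fin n, (∏ s, y (t s)) * (∑ s, (c (t s) - μ)) ^ 2 := by
          refine Finset.sum_le_sum_of_subset_of_nonneg (Finset.filter_subset _ _) ?_
          intro t _ _
          exact mul_nonneg (hw t) (sq_nonneg _)
      _ = k * ∑ j, y j * (c j - μ) ^ 2 := hsm
      _ ≤ k := by nlinarith
  have h2 : (2 : ℝ) * k ≤ (k * τ) ^ 2 := by nlinarith
  set W := ∑ t ∈ univ.filter (fun t : Fin k → Fin n => k * τ < |∑ s, c (t s) - k * μ|),
      ∏ s, y (t s) with hW
  have hW0 : 0 ≤ W := Finset.sum_nonneg fun t _ => hw t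
  by_contra hcon
  push_neg at hcon
  have h3 : W * (2 * k) ≤ W * (k * τ) ^ 2 := mul_le_mul_of_nonneg_left h2 hW0
  nlinarith

namespace SymmAux

/-- swap the coordinates where `σ` is false -/
def sw {n k : ℕ} (σ : Fin k → Bool) (p : (Fin k → Fin n) × (Fin k → Fin n)) :
    (Fin k → Fin n) × (Fin k → Fin n) :=
  (fun s => if σ s = true then p.1 s else p.2 s, fun s => if σ s = true then p.2 s else p.1 s)

theorem sw_sw {n k : ℕ} (σ : Fin k → Bool) : Function.Involutive (sw (n := n) σ) := by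
  intro p
  refine Prod.ext ?_ ?_
  · funext s
    by_cases h : σ s = true
    · simp [sw, h]
    · simp [sw, h]
  · funext s
    by_cases h : σ s = true
    · simp [sw, h]
    · simp [sw, h]

theorem sw_w {n k : ℕ} (y : Fin n → ℝ) (σ : Fin k → Bool)
    (p : (Fin k → Fin n) × (Fin k → Fin n)) :
    (∏ s, y ((sw σ p).1 s)) * ∏ s, y ((sw σ p).2 s) = (∏ s, y (p.1 s)) * ∏ s, y (p.2 s) := by
  rw [← Finset.prod_mul_distrib, ← Finset.prod_mul_distrib]
  refine Finset.prod_congr rfl fun s _ => ?_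
  by_cases h : σ s = true
  · simp [sw, h]
  · simp [sw, h, mul_comm]

theorem sw_sum {n k : ℕ} (c : Fin n → ℝ) (σ : Fin k → Bool)
    (p : (Fin k → Fin n) × (Fin k → Fin n)) :
    ∑ s, (c ((sw σ p).1 s) - c ((sw σ p).2 s)) =
      ∑ s, if σ s = true then c (p.1 s) - c (p.2 s) else -(c (p.1 s) - c (p.2 s)) := by
  refine Finset.sum_congr rfl fun s _ => ?_
  by_cases h : σ s = true
  · simp [sw, h]
  · simp [sw, h]

end SymmAux

theorem symm {m n k : ℕ} (hk : 1 ≤ k) {y : Fin n → ℝ} (hy : ∀ j, 0 ≤ y j) (hy1 : ∑ j, y j = 1)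
    {C : Fin m → Fin n → ℝ} (hC : ∀ i j, 0 ≤ C i j ∧ C i j ≤ 2) {τ : ℝ} (hτ : 0 < τ)
    (hkτ : 2 ≤ k * τ ^ 2)
    (hbad : ∀ t : Fin k → Fin n, (∀ s, 0 < y (t s)) →
      ∃ i, 3 * k * τ < |∑ s, C i (t s) - k * ∑ j, C i j * y j|) :
    ∃ t t' : Fin k → Fin n, (2 : ℝ) ^ k / 2 ≤ ((univ.filter (fun σ : Fin k → Bool =>
      ∃ i, 2 * k * τ < |∑ s, if σ s = true then C i (t s) - C i (t' s)
        else -(C i (t s) - C i (t' s))|)).card : ℝ) := by
  classical
  set w : (Fin k → Fin n) → ℝ := fun t => ∏ s, y (t s) with hwdef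
  have hw : ∀ t, 0 ≤ w t := fun t => Finset.prod_nonneg fun s _ => hy _
  have hw1 : ∑ t, w t = 1 := sumW hy1
  -- the indicator function
  set Z : (Fin k → Fin n) × (Fin k → Fin n) → Prop := fun p =>
    ∃ i, 2 * k * τ < |∑ s, (C i (p.1 s) - C i (p.2 s))| with hZ
  set Zs : (Fin k → Bool) → (Fin k → Fin n) × (Fin k → Fin n) → Prop := fun σ p =>
    ∃ i, 2 * k * τ < |∑ s, if σ s = true then C i (p.1 s) - C i (p.2 s)
        else -(C i (p.1 s) - C i (p.2 s))| with hZs
  have hZZ : ∀ σ p, Zs σ p ↔ Z (sw σ p) := by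
    intro σ p
    simp only [hZs, hZ]
    refine exists_congr fun i => ?_
    rw [sw_sum (C i) σ p]
  -- claim A
  have hA1 : ∀ t, w t * (1 / 2) ≤ ∑ t', if Z (t, t') then w t * w t' else 0 := by
    intro t
    by_cases ht : ∀ s, 0 < y (t s)
    · obtain ⟨i, hi⟩ := hbad t ht
      have hch := cheb hk hy hy1 (hC i) hτ hkτ
      have hsplit : ∑ t' ∈ univ.filter (fun t' : Fin k → Fin n =>
          k * τ < |∑ s, C i (t' s) - k * ∑ j, C i j * y j|), w t' +
          ∑ t' ∈ univ.filter (fun t' : Fin k → Fin n =>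
          ¬ (k * τ < |∑ s, C i (t' s) - k * ∑ j, C i j * y j|)), w t' = 1 := by
        rw [Finset.sum_filter_add_sum_filter_not]
        exact hw1
      have hge : 1 / 2 ≤ ∑ t' ∈ univ.filter (fun t' : Fin k → Fin n =>
          ¬ (k * τ < |∑ s, C i (t' s) - k * ∑ j, C i j * y j|)), w t' := by
        have : ∑ t' ∈ univ.filter (fun t' : Fin k → Fin n =>
          k * τ < |∑ s, C i (t' s) - k * ∑ j, C i j * y j|), w t' ≤ 1 / 2 := hch
        linarith
      have hle : ∑ t' ∈ univ.filter (fun t' : Fin k → Fin n =>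
          ¬ (k * τ < |∑ s, C i (t' s) - k * ∑ j, C i j * y j|)), w t * w t' ≤
          ∑ t', if Z (t, t') then w t * w t' else 0 := by
        rw [Finset.sum_filter]
        refine Finset.sum_le_sum fun t' _ => ?_
        by_cases h1 : ¬ (k * τ < |∑ s, C i (t' s) - k * ∑ j, C i j * y j|)
        · rw [if_pos h1]
          have hz : Z (t, t') := by
            refine ⟨i, ?_⟩
            have h2 : |∑ s, C i (t' s) - k * ∑ j, C i j * y j| ≤ k * τ := not_lt.1 h1
            have h3 : ∑ s, (C i (t s) - C i (t' s)) =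
                (∑ s, C i (t s) - k * ∑ j, C i j * y j) -
                (∑ s, C i (t' s) - k * ∑ j, C i j * y j) := by
              rw [Finset.sum_sub_distrib]; ring
            have h4 := abs_sub_abs_le_abs_sub (∑ s, C i (t s) - k * ∑ j, C i j * y j)
              (∑ s, C i (t' s) - k * ∑ j, C i j * y j)
            simp only
            rw [h3]
            linarith
          rw [if_pos hz]
        · rw [if_neg h1]
          split_ifs
          · exact mul_nonneg (hw t) (hw t')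
          · exact le_refl _
      rw [← Finset.mul_sum] at hle
      refine le_trans (mul_le_mul_of_nonneg_left hge (hw t)) hle
    · push_neg at ht
      obtain ⟨s, hs⟩ := ht
      have h0 : w t = 0 := Finset.prod_eq_zero (Finset.mem_univ s) (le_antisymm hs (hy _))
      simp [h0]
  have hA : 1 / 2 ≤ ∑ p : (Fin k → Fin n) × (Fin k → Fin n),
      if Z p then w p.1 * w p.2 else 0 := by
    rw [Fintype.sum_prod_type]
    calc (1 : ℝ) / 2 = ∑ t, w t * (1 / 2) := by rw [← Finset.sum_mul, hw1, one_mul]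
      _ ≤ _ := Finset.sum_le_sum fun t _ => hA1 t
  -- claim B
  have hB : ∀ σ : Fin k → Bool, ∑ p : (Fin k → Fin n) × (Fin k → Fin n),
      (if Zs σ p then w p.1 * w p.2 else 0) = ∑ p : (Fin k → Fin n) × (Fin k → Fin n),
      if Z p then w p.1 * w p.2 else 0 := by
    intro σ
    rw [← Equiv.sum_comp (Function.Involutive.toPerm (sw (n := n) σ) (sw_sw σ))
      (fun p => if Z p then w p.1 * w p.2 else 0)]
    refine Finset.sum_congr rfl fun p _ => ?_
    have hww : w (sw σ p).1 * w (sw σ p).2 = w p.1 * w p.2 := sw_w y σ p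
    have hcoe : (Function.Involutive.toPerm (sw (n := n) σ) (sw_sw σ)) p = sw σ p := rfl
    simp only [hcoe, hww]
    exact if_congr (hZZ σ p) rfl rfl
  -- double counting
  by_contra hcon
  push_neg at hcon
  have hsum1 : ∑ p : (Fin k → Fin n) × (Fin k → Fin n), w p.1 * w p.2 = 1 := by
    rw [Fintype.sum_prod_type]
    simp only [← Finset.mul_sum, hw1, mul_one]
  have hcard : ∀ p : (Fin k → Fin n) × (Fin k → Fin n),
      ∑ σ : Fin k → Bool, (if Zs σ p then w p.1 * w p.2 else 0) =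
      w p.1 * w p.2 * ((univ.filter (fun σ : Fin k → Bool => Zs σ p)).card : ℝ) := by
    intro p
    rw [← Finset.sum_filter, Finset.sum_const, nsmul_eq_mul, mul_comm]
  have htot : (2 : ℝ) ^ k / 2 ≤ ∑ p : (Fin k → Fin n) × (Fin k → Fin n),
      w p.1 * w p.2 * ((univ.filter (fun σ : Fin k → Bool => Zs σ p)).card : ℝ) := by
    simp only [← hcard]
    rw [Finset.sum_comm]
    simp only [hB]
    rw [Finset.sum_const, Finset.card_univ, nsmul_eq_mul]
    have : (Fintype.card (Fin k → Bool) : ℝ) = 2 ^ k := by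
      simp
    rw [this]
    have h2k : (0 : ℝ) ≤ 2 ^ k := by positivity
    nlinarith
  have hlt : ∑ p : (Fin k → Fin n) × (Fin k → Fin n),
      w p.1 * w p.2 * ((univ.filter (fun σ : Fin k → Bool => Zs σ p)).card : ℝ) <
      ∑ p : (Fin k → Fin n) × (Fin k → Fin n), w p.1 * w p.2 * ((2 : ℝ) ^ k / 2) := by
    obtain ⟨p, hp⟩ : ∃ p : (Fin k → Fin n) × (Fin k → Fin n), 0 < w p.1 * w p.2 := by
      by_contra hno
      push_neg at hno
      have : ∑ p : (Fin k → Fin n) × (Fin k → Fin n), w p.1 * w p.2 ≤ 0 :=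
        Finset.sum_nonpos fun p _ => hno p
      linarith
    refine Finset.sum_lt_sum (fun q _ => ?_) ⟨p, Finset.mem_univ p, ?_⟩
    · exact mul_le_mul_of_nonneg_left (hcon q.1 q.2).le (mul_nonneg (hw _) (hw _))
    · exact mul_lt_mul_of_pos_left (hcon p.1 p.2) hp
  rw [← Finset.sum_mul, hsum1, one_mul] at hlt
  linarith

end Nvc
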