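import Pool.Agent.Lib.Nvc.Cover
import Pool.Agent.Lib.Nvc.Sign
import Pool.Agent.Lib.Nvc.Symm
import Pool.Agent.Lib.Nvc.Num

/-!
# Small samples

MP_602ccf, project Nvc (owner helper29).

PROOF of `samp_core`. Suppose not: then `symm` applies with `τ = 8 * g` and gives `t`, `t'`. `cover` for `M = 2 * k` and the `2 * k` columns of `t` and `t'`
(e.g. `fun p : Fin (2 * k) => if h : p < k then t ⟨p, h⟩ else t' ⟨p - k, _⟩`; `(2 * k) * b + 1`) gives `I` with `I.card < 2 * (4 * k * b ^ 2) ^ r`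
(`2 * (2 * k) = 4 * k`). If `2 * k * τ < |∑ ± (C i (t s) - C i (t' s))|` and `i'` is as in `cover`, the difference to the sum for `i'` is at most `k * 8 * g = k * τ`, so
`k * τ < |∑ ± (C i' (t s) - C i' (t' s))|`. So the set of signs in `symm` is covered by the sets of `sign_bound` for `i' ∈ I` (`|C i' (t s) - C i' (t' s)| ≤ 2`):
`2 ^ k / 2 ≤ I.card * 2 ^ k * 2 * exp (- k * 8 * g ^ 2) < 2 ^ k / 2` by `hn` (`k * (8 g) ^ 2 / 8 = 8 k g ^ 2`; strict because `I.card < ..` and `exp > 0`). Contradiction.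
`hbad` of `symm` is the negation of the conclusion: `|(∑ s, C i (t s)) / k - μ| > 24 g` iff `3 k (8 g) < |∑ s, C i (t s) - k μ|`.

PROOF of `sampling`: `exists_size`, `samp_core`; for `ℕ`-indexed matrices use `Fin n` (`Finset.sum_range`) and the extension of `t : Fin k → Fin n` to `ℕ` (`fun s => if h : s < k then t ⟨s, h⟩ else 0`).
-/

set_option autoImplicit false

namespace Nvc

open Finset

theorem samp_core {m n k d b r : ℕ} {g : ℝ} (hg : 0 < g) (hk : 1 ≤ k) (hb : 1 / g < b)
    (hkg : 2 ≤ k * (8 * g) ^ 2) (hr : (2 * k * b + 1) ^ d < 2 ^ r)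
    (hn : 8 * (4 * k * b ^ 2 : ℝ) ^ r * Real.exp (-(8 * k * g ^ 2)) ≤ 1)
    {C : Fin m → Fin n → ℝ} (hC : ∀ i j, 0 ≤ C i j ∧ C i j ≤ 2) (hF : FatDim g C d)
    {y : Fin n → ℝ} (hy : ∀ j, 0 ≤ y j) (hy1 : ∑ j, y j = 1) :
    ∃ t : Fin k → Fin n, (∀ s, 0 < y (t s)) ∧
      ∀ i, |(∑ s, C i (t s)) / k - ∑ j, C i j * y j| ≤ 24 * g := by
  by_contra hneg
  push Not at hneg
  have hk0 : (0 : ℝ) < k := by exact_mod_cast hk
  have hbad : ∀ t : Fin k → Fin n, (∀ s, 0 < y (t s)) →
      ∃ i, 3 * k * (8 * g) < |∑ s, C i (t s) - k * ∑ j, C i j * y j| := by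
    intro t ht
    obtain ⟨i, hi⟩ := hneg t ht
    refine ⟨i, ?_⟩
    have h1 : ∑ s, C i (t s) - k * ∑ j, C i j * y j =
        k * ((∑ s, C i (t s)) / k - ∑ j, C i j * y j) := by
      field_simp
    rw [h1, abs_mul, abs_of_pos hk0]
    have := mul_lt_mul_of_pos_left hi hk0
    linarith
  obtain ⟨t, t', ht⟩ := symm hk hy hy1 hC (τ := 8 * g) (by positivity) hkg hbad
  obtain ⟨I, hI, hcov⟩ := cover (M := 2 * k) hg (by omega) hb hr hC hF
    (fun p : Fin (2 * k) => if h : p.1 < k then t ⟨p.1, h⟩ else t' ⟨p.1 - k, by omega⟩)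
  have hset : (univ.filter (fun σ : Fin k → Bool =>
      ∃ i, 2 * k * (8 * g) < |∑ s, if σ s = true then C i (t s) - C i (t' s)
        else -(C i (t s) - C i (t' s))|)) ⊆
      I.biUnion (fun i' => univ.filter (fun σ : Fin k → Bool =>
        k * (8 * g) < |∑ s, if σ s = true then (fun s => C i' (t s) - C i' (t' s)) s
          else -(fun s => C i' (t s) - C i' (t' s)) s|)) := by
    intro σ hσ
    simp only [mem_filter, mem_univ, true_and] at hσ
    obtain ⟨i, hi⟩ := hσ
    obtain ⟨i', hi', hcl⟩ := hcov i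
    simp only [mem_biUnion, mem_filter, mem_univ, true_and]
    refine ⟨i', hi', ?_⟩
    have hc1 : ∀ s : Fin k, |C i (t s) - C i' (t s)| ≤ 4 * g := by
      intro s
      have := hcl ⟨s.1, by omega⟩
      simpa using this
    have hc2 : ∀ s : Fin k, |C i (t' s) - C i' (t' s)| ≤ 4 * g := by
      intro s
      have := hcl ⟨s.1 + k, by omega⟩
      simpa using this
    have hdiff : |(∑ s, if σ s = true then C i (t s) - C i (t' s)
        else -(C i (t s) - C i (t' s))) - (∑ s, if σ s = true then C i' (t s) - C i' (t' s)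
        else -(C i' (t s) - C i' (t' s)))| ≤ k * (8 * g) := by
      rw [← Finset.sum_sub_distrib]
      refine (Finset.abs_sum_le_sum_abs _ _).trans ?_
      have h8 : ∀ s ∈ (univ : Finset (Fin k)), |(if σ s = true then C i (t s) - C i (t' s)
          else -(C i (t s) - C i (t' s))) - (if σ s = true then C i' (t s) - C i' (t' s)
          else -(C i' (t s) - C i' (t' s)))| ≤ 8 * g := by
        intro s _
        have a1 := abs_le.1 (hc1 s)
        have a2 := abs_le.1 (hc2 s)
        rw [abs_le]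
        split_ifs <;> constructor <;> linarith
      refine (Finset.sum_le_sum h8).trans ?_
      simp
    have h3 := abs_sub_abs_le_abs_sub (∑ s, if σ s = true then C i (t s) - C i (t' s)
        else -(C i (t s) - C i (t' s))) (∑ s, if σ s = true then C i' (t s) - C i' (t' s)
        else -(C i' (t s) - C i' (t' s)))
    linarith
  have hcard : ((univ.filter (fun σ : Fin k → Bool =>
      ∃ i, 2 * k * (8 * g) < |∑ s, if σ s = true then C i (t s) - C i (t' s)
        else -(C i (t s) - C i (t' s))|)).card : ℝ) ≤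
      I.card * (2 ^ k * (2 * Real.exp (-(k * (8 * g) ^ 2 / 8)))) := by
    have h1 := (Finset.card_le_card hset).trans Finset.card_biUnion_le
    have h2 : ((univ.filter (fun σ : Fin k → Bool =>
      ∃ i, 2 * k * (8 * g) < |∑ s, if σ s = true then C i (t s) - C i (t' s)
        else -(C i (t s) - C i (t' s))|)).card : ℝ) ≤
        ∑ i' ∈ I, ((univ.filter (fun σ : Fin k → Bool =>
        k * (8 * g) < |∑ s, if σ s = true then (fun s => C i' (t s) - C i' (t' s)) s
          else -(fun s => C i' (t s) - C i' (t' s)) s|)).card : ℝ) := by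
      exact_mod_cast h1
    refine h2.trans ?_
    have h3 : ∀ i' ∈ I, ((univ.filter (fun σ : Fin k → Bool =>
        k * (8 * g) < |∑ s, if σ s = true then (fun s => C i' (t s) - C i' (t' s)) s
          else -(fun s => C i' (t s) - C i' (t' s)) s|)).card : ℝ) ≤
        2 ^ k * (2 * Real.exp (-(k * (8 * g) ^ 2 / 8))) := by
      intro i' _
      refine sign_bound (fun s => C i' (t s) - C i' (t' s)) ?_ (by positivity)
      intro s
      have a1 := hC i' (t s)
      have a2 := hC i' (t' s)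
      rw [abs_le]
      constructor <;> linarith [a1.1, a1.2, a2.1, a2.2]
    refine (Finset.sum_le_sum h3).trans ?_
    rw [Finset.sum_const, nsmul_eq_mul]
  have hexp : Real.exp (-(k * (8 * g) ^ 2 / 8)) = Real.exp (-(8 * k * g ^ 2)) := by
    congr 1
    ring
  rw [hexp] at hcard
  have hE : 0 < Real.exp (-(8 * k * g ^ 2)) := Real.exp_pos _
  have hIR : (I.card : ℝ) < 2 * (4 * k * b ^ 2 : ℝ) ^ r := by
    have h1 : (I.card : ℝ) < ((2 * (2 * (2 * k) * b ^ 2) ^ r : ℕ) : ℝ) := by exact_mod_cast hI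
    have h2 : ((2 * (2 * (2 * k) * b ^ 2) ^ r : ℕ) : ℝ) = 2 * (4 * k * b ^ 2 : ℝ) ^ r := by
      push_cast
      congr 2
      ring
    rwa [h2] at h1
  have h2k : (0 : ℝ) < 2 ^ k := by positivity
  have hpos : (0 : ℝ) < 2 ^ k * (2 * Real.exp (-(8 * k * g ^ 2))) := by positivity
  have hlt := mul_lt_mul_of_pos_right hIR hpos
  have hfin : 2 * (4 * k * b ^ 2 : ℝ) ^ r * (2 ^ k * (2 * Real.exp (-(8 * k * g ^ 2)))) ≤
      2 ^ k / 2 := by
    have := mul_le_mul_of_nonneg_left hn (le_of_lt (half_pos h2k))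
    nlinarith [this]
  linarith

theorem sampling (d : ℕ) {g : ℝ} (hg : 0 < g) : ∃ k : ℕ, 1 ≤ k ∧
    ∀ (n : ℕ) (C : ℕ → ℕ → ℝ), (∀ i j, 0 ≤ C i j ∧ C i j ≤ 2) →
      FatDim g (fun i j : Fin n => C i j) d → Smp n k (24 * g) C := by
  obtain ⟨k, b, r, hk, hb, hkg, hr, hn⟩ := exists_size d hg
  refine ⟨k, hk, ?_⟩
  intro n C hC hF y hy
  obtain ⟨t, ht, hts⟩ := samp_core (C := fun i j : Fin n => C i j) hg hk hb hkg hr hn
    (fun i j => hC i j) hF (y := fun j : Fin n => y j) (fun j => hy.1 j j.2) (by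
      have := hy.2
      rw [Finset.sum_range] at this
      exact this)
  refine ⟨fun s => if h : s < k then (t ⟨s, h⟩ : ℕ) else 0, ?_, ?_⟩
  · intro s hs
    simp only [hs, dif_pos]
    exact ⟨(t ⟨s, hs⟩).2, ht _⟩
  · intro i hi
    have h1 := hts ⟨i, hi⟩
    have h2 : ∑ s ∈ range k, C i (if h : s < k then (t ⟨s, h⟩ : ℕ) else 0) =
        ∑ s : Fin k, C i (t s) := by
      rw [Finset.sum_range]
      refine Finset.sum_congr rfl ?_
      intro s _
      simp
    rw [h2]
    have h3 : Nsh.rv n C y i = ∑ j : Fin n, C i j * y j := by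
      unfold Nsh.rv
      rw [Finset.sum_range]
    rw [h3]
    exact h1

end Nvc
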