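import Pool.Agent.Lib.Nvc.Samp
import Pool.Agent.Lib.Nvc.Nash

/-!
# Equilibria with small support of one player

MP_602ccf, project Nvc (owner helper29).
-/

set_option autoImplicit false

namespace Nvc

open Finset

namespace StructAux

/-- extension of a matrix -/
noncomputable def ext {n : ℕ} (A : Fin n → Fin n → ℝ) : ℕ → ℕ → ℝ :=
  fun i j => if h : i < n ∧ j < n then A ⟨i, h.1⟩ ⟨j, h.2⟩ else 0

theorem ext_eq {n : ℕ} (A : Fin n → Fin n → ℝ) (i j : Fin n) : ext A i j = A i j := by
  unfold ext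
  rw [dif_pos ⟨i.2, j.2⟩]

theorem ext_bd {n : ℕ} {A : Fin n → Fin n → ℝ} (h : ∀ i j, 0 ≤ A i j ∧ A i j ≤ 1) (i j : ℕ) :
    0 ≤ ext A i j ∧ ext A i j ≤ 1 := by
  unfold ext
  split_ifs with h1
  · exact h _ _
  · exact ⟨le_refl _, zero_le_one⟩

/-- the strategy of a sample -/
noncomputable def ysm (n k : ℕ) (t : ℕ → ℕ) : Fin n → ℝ :=
  fun j => (∑ s ∈ range k, if t s = j then (1 : ℝ) else 0) / k

theorem sum_ysm {n k : ℕ} {t : ℕ → ℕ} (ht : ∀ s < k, t s < n) (f : ℕ → ℝ) :
    ∑ j : Fin n, f j * ysm n k t j = (∑ s ∈ range k, f (t s)) / k := by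
  unfold ysm
  have h1 : ∀ j : Fin n, f j * ((∑ s ∈ range k, if t s = j then (1 : ℝ) else 0) / k) =
      (∑ s ∈ range k, if t s = j then f j else 0) / k := by
    intro j
    rw [mul_div_assoc', mul_sum]
    congr 1
    refine sum_congr rfl fun s _ => ?_
    split_ifs <;> simp
  rw [sum_congr rfl (fun j _ => h1 j), ← sum_div, sum_comm]
  congr 1
  refine sum_congr rfl fun s hs => ?_
  rw [sum_eq_single (⟨t s, ht s (mem_range.1 hs)⟩ : Fin n)]
  · simp
  · intro j _ hj
    rw [if_neg]
    intro h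
    exact hj (Fin.ext h.symm)
  · intro h
    exact absurd (mem_univ _) h

theorem ysm_mem {n k : ℕ} (hk : 1 ≤ k) {t : ℕ → ℕ} (ht : ∀ s < k, t s < n) :
    ysm n k t ∈ stdSimplex ℝ (Fin n) := by
  refine ⟨fun j => ?_, ?_⟩
  · unfold ysm
    refine div_nonneg (sum_nonneg fun s _ => ?_) (Nat.cast_nonneg _)
    split_ifs <;> norm_num
  · have h := sum_ysm ht (fun _ => (1 : ℝ))
    simp only [one_mul] at h
    rw [h, sum_const, card_range, nsmul_eq_mul, mul_one]
    have : (k : ℝ) ≠ 0 := by
      have : (0 : ℝ) < k := by exact_mod_cast hk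
      exact this.ne'
    exact div_self this

theorem ysm_card {n k : ℕ} {t : ℕ → ℕ} :
    (univ.filter (fun j => ysm n k t j ≠ 0)).card ≤ k := by
  classical
  have h1 : (univ.filter (fun j => ysm n k t j ≠ 0)).image (fun j : Fin n => (j : ℕ)) ⊆
      (range k).image t := by
    intro j hj
    rw [mem_image] at hj
    obtain ⟨i, hi, rfl⟩ := hj
    rw [mem_filter] at hi
    by_contra hc
    apply hi.2
    unfold ysm
    rw [sum_eq_zero, zero_div]
    intro s hs
    rw [if_neg]
    intro h
    exact hc (mem_image.2 ⟨s, hs, h⟩)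
  have h2 := card_le_card h1
  rw [card_image_of_injective _ Fin.val_injective] at h2
  refine h2.trans (card_image_le.trans ?_)
  rw [card_range]

theorem pay_row {n : ℕ} (M : Fin n → Fin n → ℝ) (x y : Fin n → ℝ) :
    pay M x y = ∑ i, x i * ∑ j, M i j * y j := by
  unfold pay
  refine sum_congr rfl fun i _ => ?_
  rw [mul_sum]
  exact sum_congr rfl fun j _ => by ring

theorem pay_col {n : ℕ} (M : Fin n → Fin n → ℝ) (x y : Fin n → ℝ) :
    pay M x y = ∑ j, (∑ i, x i * M i j) * y j := by
  unfold pay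
  rw [sum_comm]
  refine sum_congr rfl fun j _ => ?_
  rw [sum_mul]

end StructAux

open StructAux

theorem struct (d : ℕ) {g : ℝ} (hg : 0 < g) : ∃ k : ℕ, 1 ≤ k ∧
    ∀ (n : ℕ), 1 ≤ n → ∀ A B : Fin n → Fin n → ℝ, (∀ i j, 0 ≤ A i j ∧ A i j ≤ 1) →
      (∀ i j, 0 ≤ B i j ∧ B i j ≤ 1) → FatDim g A d →
      ∃ x y, ANash (48 * g) A B x y ∧ (univ.filter (fun j => y j ≠ 0)).card ≤ k := by
  obtain ⟨k, hk, H⟩ := sampling d hg
  refine ⟨k, hk, ?_⟩
  intro n hn A B hA hB hF
  have hA' := ext_bd hA
  have hB' := ext_bd hB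
  have hS := H n (ext A) (fun i j => ⟨(hA' i j).1, (hA' i j).2.trans (by norm_num)⟩) (by
    have : (fun i j : Fin n => ext A i j) = A := by
      funext i j
      exact ext_eq A i j
    rw [this]
    exact hF)
  obtain ⟨x, y, u, v, hx, hy, hu, hu', hv, hv'⟩ := nash hn
    (A := ext A) (B := ext B) (fun i _ j _ => hA' i j) (fun i _ j _ => hB' i j)
  obtain ⟨t, ht, ht'⟩ := hS y hy
  have htn : ∀ s < k, t s < n := fun s hs => (ht s hs).1
  have hk0 : (0 : ℝ) < k := by exact_mod_cast hk
  have hx1 : (fun i : Fin n => x i) ∈ stdSimplex ℝ (Fin n) := by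
    refine ⟨fun i => hx.nn i i.2, ?_⟩
    rw [Fin.sum_univ_eq_sum_range]
    exact hx.sum
  -- rows
  have hrow : ∀ i : Fin n, ∑ j, A i j * ysm n k t j = (∑ s ∈ range k, ext A i (t s)) / k := by
    intro i
    rw [← sum_ysm htn (fun j => ext A i j)]
    exact sum_congr rfl fun j _ => by rw [ext_eq]
  have hr1 : ∀ i : Fin n, (∑ s ∈ range k, ext A i (t s)) / k ≤ Nsh.rv n (ext A) y i + 24 * g := by
    intro i
    have := (abs_le.1 (ht' i i.2)).2
    linarith
  have hr2 : ∀ i : Fin n, Nsh.rv n (ext A) y i - 24 * g ≤ (∑ s ∈ range k, ext A i (t s)) / k := by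
    intro i
    have := (abs_le.1 (ht' i i.2)).1
    linarith
  -- columns
  have hcol : ∀ j : Fin n, ∑ i : Fin n, x i * B i j = Nsh.cv n (ext B) x j := by
    intro j
    unfold Nsh.cv
    rw [← Fin.sum_univ_eq_sum_range]
    exact sum_congr rfl fun i _ => by rw [ext_eq]
  refine ⟨fun i => x i, ysm n k t, ⟨hx1, ysm_mem hk htn, ?_, ?_⟩, ysm_card⟩
  · intro z hz
    rw [pay_row, pay_row]
    have h1 : ∑ i, z i * ∑ j, A i j * ysm n k t j ≤ u + 24 * g := by
      calc ∑ i, z i * ∑ j, A i j * ysm n k t j ≤ ∑ i, z i * (u + 24 * g) := by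
            refine sum_le_sum fun i _ => mul_le_mul_of_nonneg_left ?_ (hz.1 i)
            rw [hrow]
            exact (hr1 i).trans (by linarith [hu i i.2])
        _ = u + 24 * g := by rw [← sum_mul, hz.2, one_mul]
    have h2 : u - 24 * g ≤ ∑ i : Fin n, x i * ∑ j, A i j * ysm n k t j := by
      calc u - 24 * g = ∑ i : Fin n, x i * (u - 24 * g) := by
            have := hx1.2
            simp only at this
            rw [← sum_mul, this, one_mul]
        _ ≤ _ := by
            refine sum_le_sum fun i _ => ?_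
            rcases eq_or_lt_of_le (hx.nn i i.2) with h | h
            · rw [← h]; simp
            · refine mul_le_mul_of_nonneg_left ?_ h.le
              rw [hrow]
              have := hu' i i.2 h
              linarith [hr2 i]
    linarith
  · intro w hw
    rw [pay_col, pay_col]
    simp only [hcol]
    have h1 : ∑ j : Fin n, Nsh.cv n (ext B) x j * w j ≤ v := by
      calc ∑ j : Fin n, Nsh.cv n (ext B) x j * w j ≤ ∑ j : Fin n, v * w j :=
            sum_le_sum fun j _ => mul_le_mul_of_nonneg_right (hv j j.2) (hw.1 j)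
        _ = v := by rw [← mul_sum, hw.2, mul_one]
    have h2 : ∑ j : Fin n, Nsh.cv n (ext B) x j * ysm n k t j = v := by
      rw [sum_ysm htn (fun j => Nsh.cv n (ext B) x j)]
      rw [sum_congr rfl (fun s hs => hv' (t s) (htn s (mem_range.1 hs)) (ht s (mem_range.1 hs)).2)]
      rw [sum_const, card_range, nsmul_eq_mul]
      field_simp
    linarith

namespace StructAux

/-- the digits of `i` -/
def dig (m i : ℕ) : Finset ℕ := (range m).filter (fun b => Nat.testBit i b = true)

/-- the matrix of the example -/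
noncomputable def mA (k : ℕ) : Fin (2 ^ (2 * k + 2)) → Fin (2 ^ (2 * k + 2)) → ℝ := fun i j =>
  if (dig (2 * k + 2) i).card = k + 1 ∧ (j : ℕ) % (2 * k + 2) ∈ dig (2 * k + 2) i then 1 else 0

theorem exists_dig {m : ℕ} {T : Finset ℕ} (hT : T ⊆ range m) :
    ∃ i < 2 ^ m, dig m i = T := by
  classical
  refine ⟨Nat.ofBits (fun b : Fin m => decide ((b : ℕ) ∈ T)), Nat.ofBits_lt_two_pow _, ?_⟩
  ext b
  unfold dig
  rw [mem_filter, mem_range]
  constructor
  · rintro ⟨hb, h⟩
    rw [Nat.testBit_ofBits_lt _ b hb, decide_eq_true_eq] at h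
    exact h
  · intro h
    have hb := mem_range.1 (hT h)
    refine ⟨hb, ?_⟩
    rw [Nat.testBit_ofBits_lt _ b hb, decide_eq_true_eq]
    exact h

end StructAux

theorem lower (k : ℕ) : ∃ (n : ℕ) (A B : Fin n → Fin n → ℝ), 1 ≤ n ∧
    (∀ i j, A i j = 0 ∨ A i j = 1) ∧ (∀ i j, B i j = 0 ∨ B i j = 1) ∧
    ∀ x y, ANash (1 / 5) A B x y → k < (univ.filter (fun j => y j ≠ 0)).card := by
  classical
  set m := 2 * k + 2 with hm
  have hmn : m < 2 ^ m := Nat.lt_two_pow_self
  refine ⟨2 ^ m, mA k, fun i j => 1 - mA k i j, Nat.one_le_two_pow, ?_, ?_, ?_⟩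
  · intro i j
    unfold mA
    split_ifs
    · exact Or.inr rfl
    · exact Or.inl rfl
  · intro i j
    unfold mA
    simp only
    split_ifs
    · exact Or.inl (by norm_num)
    · exact Or.inr (by norm_num)
  intro x y h
  obtain ⟨hx, hy, h1, h2⟩ := h
  by_contra hc
  rw [not_lt] at hc
  set U := (univ.filter (fun j => y j ≠ 0)).image (fun j : Fin (2 ^ m) => (j : ℕ) % m) with hU
  have hUm : U ⊆ range m := by
    intro b hb
    rw [hU, mem_image] at hb
    obtain ⟨j, _, rfl⟩ := hb
    exact mem_range.2 (Nat.mod_lt _ (by omega))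
  have hUc : U.card ≤ k := card_image_le.trans hc
  obtain ⟨T, hUT, hTm, hTc⟩ := Finset.exists_subsuperset_card_eq (n := k + 1) hUm (by omega)
    (by rw [card_range]; omega)
  obtain ⟨i, hi, hiT⟩ := exists_dig hTm
  -- the pure row `i`
  have h3 := h1 (Pi.single ⟨i, hi⟩ 1) (single_mem_stdSimplex ℝ _)
  have h4 : pay (mA k) (Pi.single ⟨i, hi⟩ 1) y = 1 := by
    rw [pay_row, sum_eq_single (⟨i, hi⟩ : Fin (2 ^ m))]
    · rw [Pi.single_eq_same, one_mul, ← hy.2]
      refine sum_congr rfl fun j _ => ?_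
      by_cases hj : y j = 0
      · rw [hj, mul_zero]
      · have h5 : (j : ℕ) % m ∈ T :=
          hUT (mem_image.2 ⟨j, mem_filter.2 ⟨mem_univ _, hj⟩, rfl⟩)
        unfold mA
        rw [if_pos, one_mul]
        show (dig m i).card = k + 1 ∧ (j : ℕ) % m ∈ dig m i
        rw [hiT]
        exact ⟨hTc, h5⟩
    · intro b _ hb
      rw [Pi.single_eq_of_ne hb, zero_mul]
    · intro hn
      exact absurd (mem_univ _) hn
  have h5 : pay (mA k) x y + pay (fun i j => 1 - mA k i j) x y = 1 := by
    rw [pay_row, pay_row, ← sum_add_distrib]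
    refine (sum_congr rfl fun i _ => ?_).trans hx.2
    rw [← mul_add, ← sum_add_distrib]
    have : ∑ j, (mA k i j * y j + (1 - mA k i j) * y j) = 1 := by
      refine (sum_congr rfl fun j _ => ?_).trans hy.2
      ring
    rw [this, mul_one]
  -- the uniform strategy
  have hm0 : (0 : ℝ) < m := by
    have : 0 < m := by omega
    exact_mod_cast this
  set w : Fin (2 ^ m) → ℝ := fun j => if (j : ℕ) < m then 1 / m else 0 with hw
  have hws : ∀ f : ℕ → ℝ, ∑ j : Fin (2 ^ m), f j * w j = (∑ j ∈ range m, f j) / m := by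
    intro f
    have e1 : ∑ j : Fin (2 ^ m), f j * w j =
        ∑ j ∈ range (2 ^ m), f j * (if j < m then 1 / (m : ℝ) else 0) := by
      rw [← Fin.sum_univ_eq_sum_range (fun j => f j * (if j < m then 1 / (m : ℝ) else 0))]
    rw [e1, ← sum_subset (range_subset_range.2 hmn.le)]
    · rw [sum_div]
      refine sum_congr rfl fun j hj => ?_
      rw [if_pos (mem_range.1 hj)]
      ring
    · intro j _ hj
      rw [mem_range] at hj
      rw [if_neg hj, mul_zero]
  have hwm : w ∈ stdSimplex ℝ (Fin (2 ^ m)) := by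
    refine ⟨fun j => ?_, ?_⟩
    · rw [hw]
      simp only
      split_ifs
      · positivity
      · exact le_refl _
    · have := hws (fun _ => (1 : ℝ))
      simp only [one_mul] at this
      rw [this, sum_const, card_range, nsmul_eq_mul, mul_one]
      exact div_self hm0.ne'
  have h6 := h2 w hwm
  have h7 : 1 / 2 ≤ pay (fun i j => 1 - mA k i j) x w := by
    rw [pay_row]
    have h8 : ∀ i : Fin (2 ^ m), 1 / 2 ≤ ∑ j : Fin (2 ^ m), (1 - mA k i j) * w j := by
      intro i
      have e2 := hws (fun j => 1 - if (dig (2 * k + 2) i).card = k + 1 ∧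
        j % (2 * k + 2) ∈ dig (2 * k + 2) i then (1 : ℝ) else 0)
      have e3 : ∑ j : Fin (2 ^ m), (1 - mA k i j) * w j =
          (∑ j ∈ range m, (1 - if (dig (2 * k + 2) i).card = k + 1 ∧
        j % (2 * k + 2) ∈ dig (2 * k + 2) i then (1 : ℝ) else 0)) / m := by
        rw [← e2]
        rfl
      rw [e3, sum_sub_distrib, sum_const, card_range, nsmul_eq_mul, mul_one]
      have h9 : ∑ j ∈ range m, (if (dig (2 * k + 2) i).card = k + 1 ∧
        j % (2 * k + 2) ∈ dig (2 * k + 2) i then (1 : ℝ) else 0) ≤ k + 1 := by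
        rw [← hm]
        by_cases hcard : (dig m i).card = k + 1
        · calc ∑ j ∈ range m, (if (dig m i).card = k + 1 ∧ j % m ∈ dig m i then (1 : ℝ) else 0)
              ≤ ∑ j ∈ range m, (if j ∈ dig m i then (1 : ℝ) else 0) := by
                refine sum_le_sum fun j hj => ?_
                rw [Nat.mod_eq_of_lt (mem_range.1 hj)]
                by_cases hj' : j ∈ dig m i
                · rw [if_pos hj', if_pos ⟨hcard, hj'⟩]
                · rw [if_neg hj', if_neg (fun h => hj' h.2)]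
            _ = (((range m).filter (fun j => j ∈ dig m i)).card : ℝ) := by
                rw [sum_boole]
            _ ≤ ((dig m i).card : ℝ) := by
                have : (range m).filter (fun j => j ∈ dig m i) ⊆ dig m i := by
                  intro j hj
                  exact (mem_filter.1 hj).2
                exact_mod_cast card_le_card this
            _ = k + 1 := by rw [hcard]; push_cast; ring
        · rw [sum_eq_zero]
          · positivity
          · intro j _
            rw [if_neg (fun h => hcard h.1)]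
      rw [div_le_div_iff₀ (by norm_num) hm0]
      have e4 : (m : ℝ) = 2 * (k + 1) := by rw [hm]; push_cast; ring
      linarith
    calc (1 : ℝ) / 2 = ∑ i, x i * (1 / 2) := by rw [← sum_mul, hx.2, one_mul]
      _ ≤ _ := sum_le_sum fun i _ => mul_le_mul_of_nonneg_left (h8 i) (hx.1 i)
  rw [h4] at h3
  linarith

end Nvc
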